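import Pool.Agent.Lib.MP_1a91b9_nuX.DG.FrG
import Pool.Agent.Lib.MP_1a91b9_nuX.AN.ESum
import Pool.Agent.Lib.MP_1a91b9_nuX.DB.Frob

/-!
# The action of Galois on the torsion points and the values of the Hecke character

JOB HPS. PROOF (complete; helper30). `Fx a` (AN/ESum.lean): `ps (span {a}) = a`.
`gal_ps`: `Gal(L/K)` is commutative: by `gal_sm` (DB/Ram.lean, `k := K`) every `σ` acts on `T` as some `sm c`, so `σ τ` and `τ σ` agree on `T`, and `hgen` (see `hcomm` in `std_form`, MP_1a91b9_nuT/TG/Std2.lean). Let `G` be the set of the `σ` such that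
`∃ c, IsCoprime c ν ∧ ga σ T = sm L c T ∧ Fx c`. It contains `1` (`Fx.one`), is closed under products (`Fx.mul`, `ga_mul`, `ga_sm`, `sm_sm`) and, the group being finite, under inverses (`σ⁻¹ = σ ^ (orderOf σ - 1)`). Apply `gal_gen` (FrG.lean) with `S` = the places of `K` which contain `bO` or `ν`
(finite: finitely many prime ideals contain a nonzero element; `bO ≠ 0` since `DD.ne`): let `W` with `W.under ∉ S` and `σ` as there: `frob W hb σ hσ hγ` (DB/Frob.lean, `k := K`, `γ := ν`, `sm L ν T = 0`): `ga σ T = sm (psi K v) T`, `v = (W.under (𝓞 K)).asIdeal`, `psi K v = ps v` (`AN.psi_self`).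
`W (bD L) = 1` and `W ν = 1` because `bO ∉ v`, `ν ∉ v` (`bO_map`; see `dec_val` in MP_1a91b9_nuT/DG/Dec.lean). `ps_span`: `span {ps v} = v`; so `Fx (ps v)`; `ps v` is coprime to `ν` because `v` is maximal and `ν ∉ v`.
`Md.of_nu`: the fields of `Nu`. `Md.cop_I`: if `I` is not coprime to `f` there is a maximal ideal `P` containing `I` and `f`, `P ≠ ⊥`, `bO ∈ P` (`HC.hd.good`), `μ ∈ P` (`bad`), contradiction with `hI` (same proof as `Nu.span` in NuM.lean). `HC.hd.span`. `ps I` is coprime to `μ`: `span {ps I} = I`. `Fx (ps I)`: `AN.fx_ps`.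
`Md.cop_f`: `Md.cop_I` for `I = span {a}`. `Md.not_unit`: `f` is not a unit (`AN.f_not_isUnit`), a maximal ideal `P` containing `f` contains `bO` (`HC.hd.good`) and `μ`.
`Md.fx_congr`: let `y a + z μ = 1`. `μ ∣ b y - 1` and `μ ∣ a y - 1`, so `Fx (b y)`, `Fx (a y)` (`ray`). `ps (a y) = ps (a) ps (y)` (of principal ideals), so `a ps(y) = a y`, and `a ≠ 0` (`not_unit`), `ps (y) = y`; `y ≠ 0`; `ps (b) y = b y`, so `ps (b) = b`.
`AB.ps_mem`: induction on the factorisation of `I` (`UniqueFactorizationMonoid.induction_on_prime` for the statement `IsCoprime I (span {μ}) → ∃ u ..`): `I = 0`: `μ` would be a unit; `I` a unit: `I = 1`, `HC.hd.one`, `rp_one`; `P * I`: `ps (P I) = ps P ps I`, `rp_mul`, `IsCoprime.of_mul_left_left`. For a prime `P` coprime to `μ`: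
`μ ∉ P`, `bO ∉ P` (`bad`). Let `W` be a place of `L'` above `P` (`CF.exists_over`), `σ` a Frobenius element (`CF.exists_fr` and `nrm_eq`, or `exists_frobW` used in MP_1a91b9_nuX/DS/Frob.lean), `frob` as above: `ga σ J' = sm (ps P) J'`, and `hAB.mem σ` gives `u`, `Ord.sm_eq_iff`: `μ ∣ ps P - rp u`.
`AB.fx`: `hAB.surj u` gives `σ`, `gal_ps` (`hAB.gal`, `hAB.ne`, `hAB.ord`, `hAB.gen`) gives `c`, `μ ∣ c - rp u` (`Ord.sm_eq_iff`), `Md.fx_congr`. `AB.fx_iff`: `→`: `AB.ps_mem` for `span {a}`; `←`: `AB.fx`, `rp_cop`, `Md.fx_congr`.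
`AB.unit_mul`: `span {ps (span {a})} = span {a}` (`Md.cop_I`), so `ps (span {a}) = ε a` with a unit `ε` (`Ideal.span_singleton_eq_span_singleton`); `AB.ps_mem` gives `u`, `η = ε⁻¹`.
-/

set_option autoImplicit false

namespace Pool.Agent.Lib.MP_1a91b9_nuX.DG

variable [Pool.Agent.Lib.MP_1a91b9_nuT.CD]

open NumberField IsDedekindDomain WeierstrassCurve Pool.Agent.Lib.MP_1a91b9_nuT
open Pool.Agent.Lib.MP_1a91b9_nuX.DB

noncomputable section

variable [HC]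

export Pool.Agent.Lib.MP_1a91b9_nuX.AN (Fx psbC psC psbC_self psi_self)

omit [HC] in
private theorem Hps_cop {v : HeightOneSpectrum (𝓞 K)} {a : 𝓞 K} (ha : a ∉ v.asIdeal) :
    IsCoprime v.asIdeal (Ideal.span {a}) := by
  rw [Ideal.isCoprime_iff_sup_eq]
  by_contra hc
  have h1 : v.asIdeal = v.asIdeal ⊔ Ideal.span {a} := v.isMaximal.eq_of_le hc le_sup_left
  refine ha ?_
  rw [h1]
  exact Ideal.mem_sup_right (Ideal.mem_span_singleton_self _)

omit [HC] in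
private theorem Hps_nmem {v : HeightOneSpectrum (𝓞 K)} {a : 𝓞 K}
    (h : IsCoprime v.asIdeal (Ideal.span {a})) : a ∉ v.asIdeal := by
  intro ha
  rw [Ideal.isCoprime_iff_sup_eq] at h
  apply v.isPrime.ne_top
  rw [eq_top_iff, ← h]
  exact sup_le le_rfl ((Ideal.span_singleton_le_iff_mem _).2 ha)

/-- a Frobenius element at a good place -/
private theorem Hps_frob {L : Type} [Field L] [NumberField L] [Algebra K L] [DecidableEq L]
    [IsGalois K L] (W : HeightOneSpectrum (𝓞 L)) (hb : (bO : 𝓞 K) ∉ (W.under (𝓞 K)).asIdeal)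
    {ν : 𝓞 K} (hν : ν ∉ (W.under (𝓞 K)).asIdeal) (σ : Gal(L/K))
    (hσ : ∀ x : 𝓞 L, σ • x - x ^ Ideal.absNorm (W.under (𝓞 K)).asIdeal ∈ W.asIdeal) {P : Pt L}
    (hP : sm L ν P = 0) : ga σ P = sm L (ps (W.under (𝓞 K)).asIdeal) P := by
  have hval : ∀ a : 𝓞 K, a ∉ (W.under (𝓞 K)).asIdeal →
      W.valuation L (algebraMap K L (a : K)) = 1 := by
    intro a ha
    have h1 : W.valuation L (algebraMap K L (a : K)) < 1 ↔ a ∈ (W.under (𝓞 K)).asIdeal := by
      have h2 : algebraMap K L (a : K) = algebraMap (𝓞 L) L (algebraMap (𝓞 K) (𝓞 L) a) := rfl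
      rw [h2, W.valuation_lt_one_iff_mem]
      exact Iff.rfl
    have h3 : W.valuation L (algebraMap K L (a : K)) ≤ 1 := by
      have h2 : algebraMap K L (a : K) = algebraMap (𝓞 L) L (algebraMap (𝓞 K) (𝓞 L) a) := rfl
      rw [h2]
      exact W.valuation_le_one _
    exact le_antisymm h3 (not_lt.1 fun h2 => ha (h1.1 h2))
  have hbW : W.valuation L (bD L) = 1 := by
    rw [← bO_map L]
    exact hval _ hb
  have h := frob (k := K) (N := L) W hbW σ hσ (hval ν hν) hP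
  rw [h, AN.psi_self]

theorem gal_ps {L : Type} [Field L] [NumberField L] [Algebra K L] [DecidableEq L] [IsGalois K L]
    {ν : 𝓞 K} (hν : ν ≠ 0) {T : Pt L} (hT : Ord ν T)
    (hgen : ∀ σ : Gal(L/K), ga σ T = T → σ = 1) (σ : Gal(L/K)) :
    ∃ c : 𝓞 K, IsCoprime c ν ∧ ga σ T = sm L c T ∧ Fx c := by
  have hfd : FiniteDimensional K L := Module.Finite.of_restrictScalars_finite ℚ K L
  have hcomm : ∀ σ τ : Gal(L/K), σ * τ = τ * σ := by
    intro σ τ
    obtain ⟨c, -, hc⟩ := gal_sm (k := K) hν hT σ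
    obtain ⟨d, -, hd⟩ := gal_sm (k := K) hν hT τ
    have h1 : ga (σ * τ) T = ga (τ * σ) T := by
      rw [ga_mul, ga_mul, hc, hd, ga_sm, ga_sm, hc, hd, sm_sm, sm_sm, mul_comm]
    have h2 : ga ((τ * σ)⁻¹ * (σ * τ)) T = T := by
      rw [ga_mul, h1, ← ga_mul, inv_mul_cancel, ga_one]
    have h3 := hgen _ h2
    rw [inv_mul_eq_one] at h3
    exact h3.symm
  have hmul : ∀ σ τ : Gal(L/K), (∃ c : 𝓞 K, IsCoprime c ν ∧ ga σ T = sm L c T ∧ Fx c) →
      (∃ c : 𝓞 K, IsCoprime c ν ∧ ga τ T = sm L c T ∧ Fx c) →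
      ∃ c : 𝓞 K, IsCoprime c ν ∧ ga (σ * τ) T = sm L c T ∧ Fx c := by
    rintro σ τ ⟨c, hc1, hc2, hc3⟩ ⟨d, hd1, hd2, hd3⟩
    refine ⟨d * c, hd1.mul_left hc1, ?_, hd3.mul hc3⟩
    rw [ga_mul, hd2, ga_sm, hc2, sm_sm]
  have hone : ∃ c : 𝓞 K, IsCoprime c ν ∧ ga (1 : Gal(L/K)) T = sm L c T ∧ Fx c := by
    refine ⟨1, isCoprime_one_left, ?_, AN.Fx.one⟩
    rw [ga_one, map_one]
    rfl
  have hpow : ∀ (n : ℕ) (σ : Gal(L/K)), (∃ c : 𝓞 K, IsCoprime c ν ∧ ga σ T = sm L c T ∧ Fx c) →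
      ∃ c : 𝓞 K, IsCoprime c ν ∧ ga (σ ^ n) T = sm L c T ∧ Fx c := by
    intro n σ hσ
    induction n with
    | zero => rw [pow_zero]; exact hone
    | succ n ih => rw [pow_succ]; exact hmul _ _ ih hσ
  let G : Subgroup Gal(L/K) :=
    { carrier := {σ | ∃ c : 𝓞 K, IsCoprime c ν ∧ ga σ T = sm L c T ∧ Fx c}
      mul_mem' := fun {σ τ} h1 h2 => hmul σ τ h1 h2
      one_mem' := hone
      inv_mem' := fun {σ} h => by
        have hpos : 0 < orderOf σ := orderOf_pos σ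
        have h1 : σ⁻¹ = σ ^ (orderOf σ - 1) := by
          refine inv_eq_of_mul_eq_one_right ?_
          rw [← pow_succ', Nat.sub_add_cancel hpos, pow_orderOf_eq_one]
        rw [h1]
        exact hpow _ σ h }
  have hb0 : (bO : 𝓞 K) ≠ 0 := by
    show ((CD.bad : ℤ) : 𝓞 K) ≠ 0
    rw [Ne, Int.cast_eq_zero]
    exact CD.bad_ne
  have hfin : ∀ a : 𝓞 K, a ≠ 0 → {v : HeightOneSpectrum (𝓞 K) | a ∈ v.asIdeal}.Finite := by
    intro a ha
    have h0 : Ideal.span {a} ≠ 0 := by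
      rw [Ne, Ideal.zero_eq_bot, Ideal.span_singleton_eq_bot]
      exact ha
    refine (Ideal.finite_factors h0).subset fun v hv => ?_
    exact Ideal.dvd_iff_le.mpr ((Ideal.span_singleton_le_iff_mem _).2 hv)
  have hS := (hfin bO hb0).union (hfin ν hν)
  have htop : G = ⊤ := by
    refine gal_gen (k := K) (L := L) hcomm G hS fun W hW τ hτ => ?_
    have hW1 : (bO : 𝓞 K) ∉ (W.under (𝓞 K)).asIdeal := fun h => hW (Or.inl h)
    have hW2 : ν ∉ (W.under (𝓞 K)).asIdeal := fun h => hW (Or.inr h)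
    have hsp := ps_span (W.under (𝓞 K)) hW1
    refine ⟨ps (W.under (𝓞 K)).asIdeal, ?_, ?_, ?_⟩
    · have h1 := Hps_cop hW2
      rw [← hsp] at h1
      exact (Ideal.isCoprime_span_singleton_iff _ _).1 h1
    · exact Hps_frob W hW1 hW2 τ hτ ((hT ν).2 dvd_rfl)
    · rw [Fx, hsp]
  have hσ : σ ∈ G := by
    rw [htop]
    exact Subgroup.mem_top σ
  exact hσ

/-- the conditions on the modulus -/
structure Md (μ : 𝓞 K) : Prop where
  ne : μ ≠ 0
  bad : ∀ P : HeightOneSpectrum (𝓞 K), (bO : 𝓞 K) ∈ P.asIdeal → μ ∈ P.asIdeal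
  ray : ∀ a : 𝓞 K, μ ∣ a - 1 → Fx a
  two : ¬ μ ∣ 2

theorem exists_md {m : 𝓞 K} (hm : m ≠ 0) : ∃ μ : 𝓞 K, Md μ ∧ m ∣ μ := by
  have hb0 : (bO : 𝓞 K) ≠ 0 := by
    show ((CD.bad : ℤ) : 𝓞 K) ≠ 0
    rw [Ne, Int.cast_eq_zero]
    exact CD.bad_ne
  refine ⟨m * bO * HC.f, ⟨mul_ne_zero (mul_ne_zero hm hb0) HC.hd.ne, fun P hP => ?_, fun a ha => ?_,
    fun h2 => ?_⟩, (dvd_mul_right m bO).trans (dvd_mul_right _ _)⟩
  · exact P.asIdeal.mul_mem_right _ (P.asIdeal.mul_mem_left _ hP)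
  · exact HC.hd.ray a ((dvd_mul_left _ _).trans ha)
  · obtain ⟨r, hr, hrf⟩ := HC.hd.big
    obtain ⟨c, hc⟩ := (hrf.trans (dvd_mul_left _ _)).trans h2
    obtain ⟨x, y, rfl⟩ := exists_coords c
    have e : ((2 : ℤ) : 𝓞 K) + ((0 : ℤ) : 𝓞 K) * ta = ((r * x : ℤ) : 𝓞 K) + ((r * y : ℤ) : 𝓞 K) * ta := by
      push_cast
      linear_combination hc
    obtain ⟨h1, -⟩ := coords_inj e
    have h3 : (r : ℤ) ∣ 2 := ⟨x, h1⟩
    have h4 := Int.le_of_dvd two_pos h3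
    omega

section
variable {μ : 𝓞 K} (hM : Md μ)
include hM

theorem Md.not_unit : ¬ IsUnit μ := by
  intro hu
  obtain ⟨P, hP, hle⟩ := Ideal.exists_le_maximal (Ideal.span {(HC.f : 𝓞 K)}) (by
    rw [Ne, Ideal.span_singleton_eq_top]
    exact AN.f_not_isUnit)
  have hfP : HC.f ∈ P := hle (Ideal.mem_span_singleton_self _)
  have hPb : P ≠ ⊥ := by
    intro h1
    rw [h1] at hfP
    exact HC.hd.ne ((Submodule.mem_bot _).1 hfP)
  have h6 : ((CD.bad : ℤ) : 𝓞 K) ∈ P := HC.hd.good ⟨P, hP.isPrime, hPb⟩ hfP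
  have hμ : μ ∈ P := hM.bad ⟨P, hP.isPrime, hPb⟩ h6
  exact hP.ne_top (Ideal.eq_top_of_isUnit_mem _ hμ hu)

theorem Md.cop_I {I : Ideal (𝓞 K)} (hI : IsCoprime I (Ideal.span {μ})) :
    IsCoprime I (Ideal.span {HC.f}) ∧ Ideal.span {ps I} = I ∧ IsCoprime (ps I) μ ∧ Fx (ps I) := by
  have hf : IsCoprime I (Ideal.span {HC.f}) := by
    have hI' := hI
    rw [Ideal.isCoprime_iff_sup_eq] at hI' ⊢
    by_contra hne
    obtain ⟨P, hP, hle⟩ := Ideal.exists_le_maximal _ hne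
    have hfP : HC.f ∈ P := hle (Ideal.mem_sup_right (Ideal.mem_span_singleton_self _))
    have hPb : P ≠ ⊥ := by
      intro h1
      rw [h1] at hfP
      exact HC.hd.ne ((Submodule.mem_bot _).1 hfP)
    have h6 : ((CD.bad : ℤ) : 𝓞 K) ∈ P := HC.hd.good ⟨P, hP.isPrime, hPb⟩ hfP
    have hμ : μ ∈ P := hM.bad ⟨P, hP.isPrime, hPb⟩ h6
    apply hP.ne_top
    rw [eq_top_iff, ← hI']
    exact sup_le (le_sup_left.trans hle) ((Ideal.span_singleton_le_iff_mem _).2 hμ)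
  have hsp : Ideal.span {ps I} = I := HC.hd.span I hf
  refine ⟨hf, hsp, ?_, AN.fx_ps I hf⟩
  rw [← Ideal.isCoprime_span_singleton_iff, hsp]
  exact hI


theorem Md.fx_congr {a b : 𝓞 K} (ha : IsCoprime a μ) (h : μ ∣ b - a) (hF : Fx a) : Fx b := by
  obtain ⟨y, z, hyz⟩ := ha
  have ha0 : a ≠ 0 := by
    rintro rfl
    rw [mul_zero, zero_add] at hyz
    exact hM.not_unit (IsUnit.of_mul_eq_one z (by rw [mul_comm]; exact hyz))
  have hy0 : y ≠ 0 := by
    rintro rfl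
    rw [zero_mul, zero_add] at hyz
    exact hM.not_unit (IsUnit.of_mul_eq_one z (by rw [mul_comm]; exact hyz))
  have h1 : μ ∣ a * y - 1 := ⟨-z, by linear_combination hyz⟩
  have h2 : μ ∣ b * y - 1 := by
    obtain ⟨d, hd⟩ := h
    exact ⟨d * y - z, by linear_combination y * hd + hyz⟩
  have h3 := hM.ray _ h1
  have h4 := hM.ray _ h2
  rw [Fx] at hF
  rw [Fx, ← Ideal.span_singleton_mul_span_singleton, AN.ps_mul, hF] at h3
  have h5 : ps (Ideal.span {y}) = y := mul_left_cancel₀ ha0 h3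
  rw [Fx, ← Ideal.span_singleton_mul_span_singleton, AN.ps_mul, h5] at h4
  exact mul_right_cancel₀ hy0 h4

end

section
variable {μ : 𝓞 K} {H : Subgroup (CU μ)} {F L' : Type} [Field F] [NumberField F] [Algebra K F]
  [Field L'] [NumberField L'] [Algebra K L'] [Algebra F L'] [IsScalarTower K F L']
  [DecidableEq L'] {J' : Pt L'} (hAB : AB H F L' J')
include hAB

theorem AB.ps_mem (hM : Md μ) {I : Ideal (𝓞 K)} (hI : IsCoprime I (Ideal.span {μ})) :
    ∃ u : U H, μ ∣ ps I - rp u := by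
  have hgal := hAB.gal
  revert hI
  refine UniqueFactorizationMonoid.induction_on_prime
    (P := fun I : Ideal (𝓞 K) => IsCoprime I (Ideal.span {μ}) → ∃ u : U H, μ ∣ ps I - rp u)
    I ?_ ?_ ?_
  · intro h0
    exfalso
    rw [isCoprime_zero_left, Ideal.isUnit_iff, Ideal.span_singleton_eq_top] at h0
    exact hM.not_unit h0
  · intro x hx _
    rw [Ideal.isUnit_iff] at hx
    refine ⟨1, ?_⟩
    rw [hx, ← Ideal.one_eq_top, AN.ps_one, ← dvd_neg, neg_sub]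
    exact rp_one
  · intro a p _ hp ih hI
    obtain ⟨ua, hua⟩ := ih (IsCoprime.of_mul_left_right hI)
    have hpI : IsCoprime p (Ideal.span {μ}) := IsCoprime.of_mul_left_left hI
    obtain ⟨up, hup⟩ : ∃ u : U H, μ ∣ ps p - rp u := by
      have hpP : p.IsPrime := Ideal.isPrime_of_prime hp
      let v : HeightOneSpectrum (𝓞 K) := ⟨p, hpP, hp.ne_zero⟩
      have hμ : μ ∉ v.asIdeal := Hps_nmem (v := v) hpI
      have hb : (bO : 𝓞 K) ∉ v.asIdeal := fun h => hμ (hM.bad v h)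
      obtain ⟨W, hW⟩ := CF.exists_over (k := K) (N := L') v
      obtain ⟨σ, hσ, -⟩ := exists_frobW (k := K) (N := L') W
      obtain ⟨u, hu⟩ := hAB.mem σ
      refine ⟨u, ?_⟩
      have h1 := Hps_frob W (ν := μ) (by rw [hW]; exact hb) (by rw [hW]; exact hμ) σ hσ
        ((hAB.ord μ).2 dvd_rfl)
      rw [hu, hW] at h1
      exact (hAB.ord.sm_eq_iff _ _).1 h1.symm
    refine ⟨up * ua, ?_⟩
    have h2 := rp_mul up ua
    rw [AN.ps_mul]
    have e : ps p * ps a - rp (up * ua) = (ps p - rp up) * ps a + rp up * (ps a - rp ua) -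
        (rp (up * ua) - rp up * rp ua) := by ring
    rw [e]
    exact dvd_sub (dvd_add (Dvd.dvd.mul_right hup _) (Dvd.dvd.mul_left hua _)) h2

theorem AB.fx (hM : Md μ) (u : U H) : Fx (rp u) := by
  have hgal := hAB.gal
  obtain ⟨σ, hσ⟩ := hAB.surj u
  obtain ⟨c, hc1, hc2, hc3⟩ := gal_ps hAB.ne hAB.ord hAB.gen σ
  refine hM.fx_congr hc1 ?_ hc3
  refine (hAB.ord.sm_eq_iff _ _).1 ?_
  rw [← hc2, hσ]
  rfl

theorem AB.fx_iff (hM : Md μ) {a : 𝓞 K} (ha : IsCoprime a μ) :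
    Fx a ↔ ∃ u : U H, μ ∣ a - rp u := by
  constructor
  · intro hF
    obtain ⟨u, hu⟩ := hAB.ps_mem hM ((Ideal.isCoprime_span_singleton_iff _ _).2 ha)
    rw [Fx] at hF
    rw [hF] at hu
    exact ⟨u, hu⟩
  · rintro ⟨u, hu⟩
    exact hM.fx_congr (rp_cop u) hu (hAB.fx hM u)

theorem AB.unit_mul (hM : Md μ) {a : 𝓞 K} (ha : IsCoprime a μ) :
    ∃ (η : (𝓞 K)ˣ) (u : U H), μ ∣ a - η * rp u := by
  have hI := (Ideal.isCoprime_span_singleton_iff _ _).2 ha
  obtain ⟨-, hsp, -, -⟩ := hM.cop_I hI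
  obtain ⟨ε, hε⟩ := Ideal.span_singleton_eq_span_singleton.1 hsp
  obtain ⟨u, hu⟩ := hAB.ps_mem hM hI
  refine ⟨ε, u, ?_⟩
  have e : a - ε * rp u = ε * (ps (Ideal.span {a}) - rp u) := by
    linear_combination -hε
  rw [e]
  exact Dvd.dvd.mul_left hu _

end

end

end Pool.Agent.Lib.MP_1a91b9_nuX.DG
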