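import Pool.Agent.Lib.MP_1a91b9_nuX.DG.Defs
import Pool.Agent.Lib.MP_1a91b9_nuX.AN.Alg
import Pool.Agent.Lib.MP_1a91b9_nuT.Nrm
import Pool.Agent.Lib.MP_1a91b9_nuX.DB.Ext

/-!
# The field generated by a torsion point

JOB TF. PROOF (complete; helper30).
`alg_tors`: let `q` be a prime number which does not divide `Ideal.absNorm (span {ν})` (exists: `Nat.exists_infinite_primes`, larger than the norm). Apply `AN.algebraic_of_val` (MP_1a91b9_nuX/AN/Alg.lean) to `z = xc R` and to `z = yc R`: let `W : ValuationSubring ℂ` with `(q : ℂ)⁻¹ ∉ W`. Then `W.valuation q < 1` and `W.valuation (embK ν) = 1`: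
`ν` divides the natural number `absNorm (span {ν})` (`Ideal.absNorm_mem`), which is coprime to `q` (`MP_1a91b9_nuG.val_coprime`, `val_integral`, or `v_alg_le` and Bezout: `a ν + b q = 1` in `𝓞 K` with `W a, W b ≤ 1`). `not_ker_torsO` (MP_1a91b9_nuX/DB/ValC.lean or near; `R ≠ 0`, `sm ν R = 0`): `¬ Ker W.valuation R`, so `W.valuation (xc R) ≤ 1`
(`not_ker`), `W.valuation (yc R) ≤ 1`. If `R = 0` the coordinates are `0`.
`exists_tf`: `R : Pt ℂ` with `Ord ν R` (`exists_ord_C`, DB/Tor2.lean). If `R = 0` (i.e. `ν` is a unit) take `L = K`, `R = 0`. Otherwise `L = IntermediateField.adjoin K {xc R, yc R}` in `ℂ` (finite over `K`: `alg_tors`, `IntermediateField.finiteDimensional_adjoin`; a number field: `NumberField.of_module_finite`), the point descends to `L`. The proof is the one of `exists_ext` in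
MP_1a91b9_nuX/DB/Ext.lean with `ℂ` in place of the algebraic closure and `k0 = k = K` (there the action of an automorphism: for normality of `L/K` use: every `K`-homomorphism `f : L →ₐ[K] ℂ` maps `L` into `L`: `pm f R'` is killed by `ν`, so it is `sm c R` (`ord_cases (AlgHom.id K ℂ)`), whose coordinates are in `L`; `IntermediateField.normal_iff_forall_fieldRange_le` or
`normal_iff_forall_map_le` over the algebraic closure of `K`; or replace `ℂ` by `AlgebraicClosure K` embedded in `ℂ`: the coordinates of `R` are algebraic, so `R` comes from a point over `AlgebraicClosure K`, and then the proof of `exists_ext` applies literally). `hgen`: `IntermediateField.algHom_ext_of_eq_adjoin` as in `exists_ext`.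
`emb_tf`: as `exists_embN` (Emb.lean of MP_1a91b9_nuT/DG and MP_1a91b9_nuX/DG): embed `L` and `L1` in `ℂ` over `K` (`exists_emb`), `T₀` and `R`: the image of `T₀` is killed by `m ∣ ν`, so it is `sm c R` (`ord_cases`), so its coordinates are in the image of `L1`; `L = K(T₀)`, so the image of `L` is contained in the image of `L1` (`IntermediateField.adjoin_le_iff`).
-/

set_option autoImplicit false

namespace Pool.Agent.Lib.MP_1a91b9_nuX.DG

variable [Pool.Agent.Lib.MP_1a91b9_nuT.CD]

open NumberField IsDedekindDomain WeierstrassCurve Pool.Agent.Lib.MP_1a91b9_nuT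
open Pool.Agent.Lib.MP_1a91b9_nuX.DB

noncomputable section

/-- descent of a point to an intermediate field -/
private theorem tf_down {Ω : Type*} [Field Ω] [Algebra K Ω] [DecidableEq Ω]
    (L : IntermediateField K Ω) [DecidableEq L] {R : Pt Ω} (hx : xc R ∈ L) (hy : yc R ∈ L) :
    ∃ R' : Pt L, pm L.val R' = R := by
  rcases cases_pt R with rfl | ⟨x, y, h, rfl⟩
  · exact ⟨0, map_zero _⟩
  · rw [xc_mk] at hx
    rw [yc_mk] at hy
    have h0 : (⟨y, hy⟩ : L) ^ 2 = (⟨x, hx⟩ : L) ^ 3 + cA L * (⟨x, hx⟩ : L) + cB L := by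
      apply L.val.toRingHom.injective
      have e1 : L.val.toRingHom (cA L) = cA Ω := map_intCast _ _
      have e2 : L.val.toRingHom (cB L) = cB Ω := map_intCast _ _
      rw [map_add, map_add, map_mul, map_pow, map_pow, e1, e2]
      exact h
    refine ⟨mkPt (⟨x, hx⟩ : L) ⟨y, hy⟩ h0, ?_⟩
    obtain ⟨h', e'⟩ := pm_mk L.val (⟨x, hx⟩ : L) ⟨y, hy⟩ h0
    rw [e', mk_inj]
    exact ⟨rfl, rfl⟩

/-- stability of the field generated by the coordinates -/
private theorem tf_stable {Ω : Type*} [Field Ω] [Algebra K Ω] [DecidableEq Ω]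
    (g : Ω →ₐ[K] ℂ) {ν : 𝓞 K} (hν : ν ≠ 0) {R : Pt Ω} (hR : Ord ν R) (σ : Ω ≃ₐ[K] Ω) {z : Ω}
    (hz : z ∈ IntermediateField.adjoin K {xc R, yc R}) :
    σ z ∈ IntermediateField.adjoin K {xc R, yc R} := by
  classical
  have hxm : xc R ∈ IntermediateField.adjoin K {xc R, yc R} :=
    IntermediateField.subset_adjoin _ _ (by simp)
  have hym : yc R ∈ IntermediateField.adjoin K {xc R, yc R} :=
    IntermediateField.subset_adjoin _ _ (by simp)
  obtain ⟨R', hR'⟩ := tf_down (IntermediateField.adjoin K {xc R, yc R}) hxm hym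
  have hσR : sm Ω ν (ga σ R) = 0 := ((Ord.ga σ hR) ν).2 dvd_rfl
  obtain ⟨c, hc⟩ := ord_cases g hν hR hσR
  have hm : xc (sm Ω c R) ∈ IntermediateField.adjoin K {xc R, yc R} ∧
      yc (sm Ω c R) ∈ IntermediateField.adjoin K {xc R, yc R} := by
    have e : sm Ω c R = pm (IntermediateField.adjoin K {xc R, yc R}).val (sm _ c R') := by
      rw [pm_sm, hR']
    rw [e, xc_pm, yc_pm]
    exact ⟨Subtype.property _, Subtype.property _⟩
  rw [← hc, xc_pm, yc_pm] at hm
  induction hz using IntermediateField.adjoin_induction with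
  | mem z hz =>
    rcases hz with rfl | hz
    · exact hm.1
    · rw [Set.mem_singleton_iff] at hz
      rw [hz]
      exact hm.2
  | algebraMap x =>
    rw [AlgEquiv.commutes]
    exact IntermediateField.algebraMap_mem _ _
  | add x y hx hy h1 h2 => rw [map_add]; exact add_mem h1 h2
  | inv x hx h1 => rw [map_inv₀]; exact inv_mem h1
  | mul x y hx hy h1 h2 => rw [map_mul]; exact mul_mem h1 h2

/-- an element of `𝓞 K` which is prime to `q` is a unit at the valuations above `q` -/
private theorem tf_val {W : ValuationSubring ℂ} {q : ℕ} (hq : (q : ℂ)⁻¹ ∉ W) {ν : 𝓞 K}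
    (h : (Ideal.absNorm (Ideal.span {ν})).Coprime q) :
    W.valuation (algebraMap K ℂ (ν : K)) = 1 := by
  have h1 := MP_1a91b9_nuG.val_coprime W hq _ h
  obtain ⟨c, hc⟩ : ν ∣ ((Ideal.absNorm (Ideal.span {ν}) : ℕ) : 𝓞 K) := ⟨cj ν, (mul_cj ν).symm⟩
  have e : ((Ideal.absNorm (Ideal.span {ν}) : ℕ) : ℂ) =
      algebraMap K ℂ (ν : K) * algebraMap K ℂ (c : K) := by
    rw [← map_mul]
    have e1 : ((ν * c : 𝓞 K) : K) = (ν : K) * (c : K) := map_mul _ _ _
    rw [← e1, ← hc]
    have e2 : (((Ideal.absNorm (Ideal.span {ν}) : ℕ) : 𝓞 K) : K) =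
      ((Ideal.absNorm (Ideal.span {ν}) : ℕ) : K) := map_natCast _ _
    rw [e2, map_natCast]
  rw [e, map_mul] at h1
  refine le_antisymm (v_alg_le W.valuation ν) ?_
  by_contra h2
  push Not at h2
  have h3 := mul_lt_one_of_lt_of_le h2 (v_alg_le W.valuation c)
  rw [h1] at h3
  exact lt_irrefl _ h3

theorem alg_tors [DecidableEq ℂ] {ν : 𝓞 K} (hν : ν ≠ 0) {R : Pt ℂ} (hR : sm ℂ ν R = 0) :
    IsAlgebraic ℤ (xc R) ∧ IsAlgebraic ℤ (yc R) := by
  by_cases hR0 : R = 0
  · rw [hR0, xc_zero, yc_zero]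
    exact ⟨isAlgebraic_zero, isAlgebraic_zero⟩
  obtain ⟨q, hq1, hq⟩ := Nat.exists_infinite_primes (Ideal.absNorm (Ideal.span {ν}) + 1)
  have hN0 : Ideal.absNorm (Ideal.span {ν}) ≠ 0 := by
    rw [Ne, Ideal.absNorm_eq_zero_iff, Ideal.span_singleton_eq_bot]
    exact hν
  have hcop : (Ideal.absNorm (Ideal.span {ν})).Coprime q := by
    rw [Nat.coprime_comm, Nat.Prime.coprime_iff_not_dvd hq]
    intro hd
    have := Nat.le_of_dvd (Nat.pos_of_ne_zero hN0) hd
    omega
  have key : ∀ W : ValuationSubring ℂ, (q : ℂ)⁻¹ ∉ W → xc R ∈ W ∧ yc R ∈ W := by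
    intro W hW
    obtain ⟨-, hx, hy⟩ := not_ker W.valuation
      (not_ker_torsO W.valuation hR0 (tf_val hW hcop) hR)
    exact ⟨(W.valuation_le_one_iff _).1 hx, (W.valuation_le_one_iff _).1 hy⟩
  exact ⟨AN.algebraic_of_val hq fun W hW => (key W hW).1,
    AN.algebraic_of_val hq fun W hW => (key W hW).2⟩

theorem exists_tf {ν : 𝓞 K} (hν : ν ≠ 0) : ∃ (L : Type) (_ : Field L) (_ : NumberField L)
    (_ : Algebra K L) (_ : DecidableEq L) (R : Pt L), IsGalois K L ∧ Ord ν R ∧
      IntermediateField.adjoin K {xc R, yc R} = (⊤ : IntermediateField K L) ∧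
      ∀ σ : Gal(L/K), ga σ R = R → σ = 1 := by
  classical
  obtain ⟨R0, hR0⟩ := exists_ord_C hν
  obtain ⟨hax, hay⟩ := alg_tors hν ((hR0 ν).2 dvd_rfl)
  have hinj : Function.Injective (algebraMap ℤ K) := RingHom.injective_int _
  have hKx : xc R0 ∈ algebraicClosure K ℂ := mem_algebraicClosure_iff.2 (hax.extendScalars hinj)
  have hKy : yc R0 ∈ algebraicClosure K ℂ := mem_algebraicClosure_iff.2 (hay.extendScalars hinj)
  obtain ⟨R1, hR1⟩ := tf_down (algebraicClosure K ℂ) hKx hKy
  have hO1 : Ord ν R1 := by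
    rw [← Ord.map (algebraicClosure K ℂ).val, hR1]
    exact hR0
  have hC : IsAlgClosure K (algebraicClosure K ℂ) := inferInstance
  have hN : Normal K (algebraicClosure K ℂ) := IsAlgClosure.normal K _
  set L0 : IntermediateField K (algebraicClosure K ℂ) :=
    IntermediateField.adjoin K {xc R1, yc R1} with hL0
  have hxm : xc R1 ∈ L0 := IntermediateField.subset_adjoin _ _ (by simp)
  have hym : yc R1 ∈ L0 := IntermediateField.subset_adjoin _ _ (by simp)
  have hfin : FiniteDimensional K L0 := by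
    refine IntermediateField.finiteDimensional_adjoin fun x _ => ?_
    exact (Algebra.IsAlgebraic.isAlgebraic (R := K) x).isIntegral
  have hNF : NumberField L0 := NumberField.of_module_finite K L0
  have hNL : Normal K L0 := by
    rw [IntermediateField.normal_iff_forall_map_le']
    intro σ z hz
    rw [IntermediateField.mem_map] at hz
    obtain ⟨w, hw, rfl⟩ := hz
    exact tf_stable (algebraicClosure K ℂ).val hν hO1 σ hw
  have hG0 : IsGalois K L0 := ⟨⟩
  obtain ⟨R2, hR2⟩ := tf_down L0 hxm hym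
  have hx2 : ((xc R2 : L0) : algebraicClosure K ℂ) = xc R1 := by
    have h1 := congrArg xc hR2
    rw [xc_pm] at h1
    exact h1
  have hy2 : ((yc R2 : L0) : algebraicClosure K ℂ) = yc R1 := by
    have h1 := congrArg yc hR2
    rw [yc_pm] at h1
    exact h1
  have htop : IntermediateField.adjoin K {xc R2, yc R2} = (⊤ : IntermediateField K L0) := by
    apply IntermediateField.lift_injective L0
    rw [IntermediateField.lift_adjoin, IntermediateField.lift_top, Set.image_pair, hx2, hy2]
  refine ⟨L0, L0.toField, hNF, L0.algebra', inferInstance, R2, hG0, ?_, htop, ?_⟩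
  · rw [← Ord.map L0.val, hR2]
    exact hO1
  · intro σ hσ
    have hx := congrArg xc hσ
    have hy := congrArg yc hσ
    rw [xc_ga] at hx
    rw [yc_ga] at hy
    have key : (σ : L0 →ₐ[K] L0) = AlgHom.id K L0 := by
      refine IntermediateField.algHom_ext_of_eq_adjoin K hL0 ?_
      intro z hz
      rcases hz with hz | hz
      · have e : (⟨z, IntermediateField.subset_adjoin _ _ (Or.inl hz)⟩ : L0) = xc R2 :=
          Subtype.ext (hz.trans hx2.symm)
        have h1 : (σ : L0 →ₐ[K] L0) (xc R2) = AlgHom.id K L0 (xc R2) := hx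
        rw [← e] at h1
        exact h1
      · rw [Set.mem_singleton_iff] at hz
        have e : (⟨z, IntermediateField.subset_adjoin _ _ (Or.inr hz)⟩ : L0) = yc R2 :=
          Subtype.ext (hz.trans hy2.symm)
        have h1 : (σ : L0 →ₐ[K] L0) (yc R2) = AlgHom.id K L0 (yc R2) := hy
        rw [← e] at h1
        exact h1
    ext z
    exact congrArg (fun y : L0 => ((y : algebraicClosure K ℂ) : ℂ)) (DFunLike.congr_fun key z)

theorem emb_tf {L L1 : Type} [Field L] [NumberField L] [Algebra K L] [DecidableEq L]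
    [Field L1] [NumberField L1] [Algebra K L1] [DecidableEq L1] {m ν : 𝓞 K} (hν : ν ≠ 0)
    (hm : m ∣ ν) {T₀ : Pt L} (hT : sm L m T₀ = 0)
    (hgen : IntermediateField.adjoin K {xc T₀, yc T₀} = ⊤) {R : Pt L1} (hR : Ord ν R) :
    Nonempty (L →ₐ[K] L1) := by
  classical
  obtain ⟨g⟩ := exists_emb L
  obtain ⟨j⟩ := exists_emb L1
  have hR' : Ord ν (pm j R) := (Ord.map _).2 hR
  have hT' : sm ℂ ν (pm g T₀) = 0 := by
    obtain ⟨d, rfl⟩ := hm
    rw [← pm_sm, mul_comm, ← sm_sm, hT, map_zero, map_zero]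
  obtain ⟨c, hc⟩ := ord_cases (AlgHom.id K ℂ) hν hR' hT'
  rw [← pm_sm] at hc
  have hx : g (xc T₀) = j (xc (sm L1 c R)) := by
    have h1 := congrArg xc hc
    rw [xc_pm, xc_pm] at h1
    exact h1
  have hy : g (yc T₀) = j (yc (sm L1 c R)) := by
    have h1 := congrArg yc hc
    rw [yc_pm, yc_pm] at h1
    exact h1
  have hM : IntermediateField.comap g j.fieldRange = ⊤ := by
    rw [eq_top_iff, ← hgen, IntermediateField.adjoin_le_iff]
    intro z hz
    rcases hz with rfl | hz
    · exact ⟨_, hx.symm⟩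
    · rw [Set.mem_singleton_iff] at hz
      subst hz
      exact ⟨_, hy.symm⟩
  have hr : ∀ x : L, g x ∈ j.range := by
    intro x
    have h1 : x ∈ IntermediateField.comap g j.fieldRange := by
      rw [hM]
      exact IntermediateField.mem_top
    exact h1
  have e : L1 ≃ₐ[K] j.range := AlgEquiv.ofInjectiveField j
  exact ⟨(e.symm : j.range →ₐ[K] L1).comp (g.codRestrict j.range hr)⟩

end

end Pool.Agent.Lib.MP_1a91b9_nuX.DG
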