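import Pool.Agent.Lib.MP_1a91b9_nuT.DG.Chars

/-!
# The determinant of a group matrix and the combinations with a translate
-/

set_option autoImplicit false

namespace Pool.Agent.Lib.MP_1a91b9_nuX.DG

noncomputable section

variable [Pool.Agent.Lib.MP_1a91b9_nuT.CD]

section
variable {G : Type} [Group G] [Fintype G]

omit [Pool.Agent.Lib.MP_1a91b9_nuT.CD] in
/-- the sum of a function translated by `t` against a character -/
private theorem dsh_sum (χ : G →* ℂ) (y : G → ℂ) (t : G) :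
    ∑ g : G, χ g * y (g * t) = χ t⁻¹ * ∑ g : G, χ g * y g := by
  rw [Finset.mul_sum]
  refine Fintype.sum_equiv (Equiv.mulRight t) _ _ fun g => ?_
  show χ g * y (g * t) = χ t⁻¹ * (χ (g * t) * y (g * t))
  have h1 : χ (g * t) * χ t⁻¹ = χ g := by rw [← map_mul, mul_inv_cancel_right]
  rw [← mul_assoc, mul_comm (χ t⁻¹), h1]

/-- a group matrix plus a small multiple of a translate is invertible -/
theorem det_shift [DecidableEq G] (hc : ∀ a b : G, a * b = b * a) {y : G → ℂ} {κ c N : ℂ}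
    (hκ : κ ≠ 0) (hcN : ‖c‖ < ‖N‖) (h0 k : G)
    (hy : Matrix.det (Matrix.of fun g h : G => y (g * h)) ≠ 0) :
    Matrix.det (Matrix.of fun g h : G =>
      κ * (c * y (g * h * h0 * k) - N * y (g * h * h0))) ≠ 0 := by
  obtain ⟨ι, iι, χ, hχ1, ⟨ε, hε, hdet⟩, -⟩ :=
    Pool.Agent.Lib.MP_1a91b9_nuT.DG.exists_chars (G := G) hc
  have hε0 : ε ≠ 0 := by
    rcases hε with rfl | rfl
    · exact one_ne_zero
    · exact neg_ne_zero.2 one_ne_zero
  rw [hdet] at hy
  have hy1 : ∀ i, ∑ g : G, χ i g * y g ≠ 0 := fun i =>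
    Finset.prod_ne_zero_iff.1 (right_ne_zero_of_mul hy) i (Finset.mem_univ i)
  have h1 := hdet (fun g => κ * (c * y (g * h0 * k) - N * y (g * h0)))
  beta_reduce at h1
  rw [h1]
  refine mul_ne_zero hε0 (Finset.prod_ne_zero_iff.2 fun i _ => ?_)
  have e1 : ∑ g : G, χ i g * (κ * (c * y (g * h0 * k) - N * y (g * h0))) =
      κ * (c * χ i (h0 * k)⁻¹ - N * χ i h0⁻¹) * ∑ g : G, χ i g * y g := by
    have e2 : ∀ g : G, χ i g * (κ * (c * y (g * h0 * k) - N * y (g * h0))) =
        κ * c * (χ i g * y (g * (h0 * k))) - κ * N * (χ i g * y (g * h0)) := by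
      intro g
      rw [mul_assoc g h0 k]
      ring
    rw [Finset.sum_congr rfl fun g _ => e2 g, Finset.sum_sub_distrib, ← Finset.mul_sum,
      ← Finset.mul_sum, dsh_sum, dsh_sum]
    ring
  rw [e1]
  refine mul_ne_zero (mul_ne_zero hκ fun h2 => ?_) (hy1 i)
  have h3 : c * χ i (h0 * k)⁻¹ = N * χ i h0⁻¹ := sub_eq_zero.1 h2
  have h4 := congrArg norm h3
  rw [norm_mul, norm_mul, hχ1, hχ1, mul_one, mul_one] at h4
  exact hcN.ne h4

end

end

end Pool.Agent.Lib.MP_1a91b9_nuX.DG
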