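import Pool.Agent.Lib.MP_1a91b9_nuX.DG.LSum
import Pool.Agent.Lib.MP_1a91b9_nuT.DG.Defs
import Pool.Agent.Lib.MP_1a91b9_nuT.CF.Frob
import Pool.Agent.Lib.MP_1a91b9_nuT.DG.Unr
import Pool.Agent.Lib.MP_1a91b9_nuT.DG.ZDefs
import Pool.Agent.Lib.MP_1a91b9_nuT.S4.Quad
import Pool.Agent.Lib.MP_1a91b9_nuT.S4.LComp
import Pool.Agent.Lib.MP_1a91b9_nuT.DG.Chars

/-!
# The determinant of the residual L-values

JOB DETL. PROOF (complete; helper30): port of MP_1a91b9_nuT/DG/DetL.lean (start from this file): `exists_chars` of MP_1a91b9_nuT.DG (Chars.lean) does not depend on the curve; `hAB.Lf_prod hM`, `hAB.Lf_sum hM` of this folder.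
-/

set_option autoImplicit false

namespace Pool.Agent.Lib.MP_1a91b9_nuX.DG

variable [Pool.Agent.Lib.MP_1a91b9_nuT.CD]

open NumberField IsDedekindDomain WeierstrassCurve Pool.Agent.Lib.MP_1a91b9_nuT
open Pool.Agent.Lib.MP_1a91b9_nuX.DB

noncomputable section

variable [HC]

section
variable {μ : 𝓞 K} {H : Subgroup (CU μ)} {F L' : Type} [Field F] [NumberField F] [Algebra K F]
  [Field L'] [NumberField L'] [Algebra K L'] [Algebra F L'] [IsScalarTower K F L']
  [DecidableEq L'] {J' : Pt L'} (hAB : AB H F L' J')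
include hAB

theorem AB.det_val (hM : Md μ) [Fintype (U H)] [DecidableEq Gal(F/K)] {res : U H →* Gal(F/K)}
    (hres : ∀ (σ : Gal(L'/K)) (u : U H), ga σ J' = smU J' u →
      ∀ x : F, algebraMap F L' (res u x) = σ (algebraMap F L' x))
    {A : U H → ℂ → ℂ} (hA : ∀ u, Differentiable ℂ (A u))
    (hA1 : ∀ u (s : ℂ), 2 < s.re → A u s = ZS μ (rp u) s)
    {L : ℂ → ℂ} (hL : Differentiable ℂ L) (hL1 : ∀ s : ℂ, 2 < s.re → L s = S4.Lf (psbC F) s)
    (B : Finset (HeightOneSpectrum (𝓞 F)))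
    (hB : ∀ v, v ∈ B ↔ algebraMap (𝓞 K) (𝓞 F) μ ∈ v.asIdeal) :
    ∃ ε : ℂ, (ε = 1 ∨ ε = -1) ∧
      Matrix.det (Matrix.of fun g h : Gal(F/K) =>
        ∑ u : U H, if res u = g * h then A u 1 else 0) =
      ε * (L 1 * ∏ v ∈ B,
        (1 - psbC F v.asIdeal * (Ideal.absNorm v.asIdeal : ℂ) ^ (-1 : ℂ))) := by
  obtain ⟨ι, iι, χ, hχ1, ⟨ε, hε, hdet⟩, hχ⟩ := Pool.Agent.Lib.MP_1a91b9_nuT.DG.exists_chars
    (G := Gal(F/K)) hAB.commF
  refine ⟨ε, hε, ?_⟩
  have hsum : ∀ (s : ℂ) (i : ι), ∑ g : Gal(F/K), χ i g * (∑ u : U H, if res u = g then A u s else 0) =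
      ∑ u : U H, χ i (res u) * A u s := by
    intro s i
    simp only [Finset.mul_sum, mul_ite, mul_zero]
    rw [Finset.sum_comm]
    refine Finset.sum_congr rfl fun u _ => ?_
    rw [Finset.sum_ite_eq Finset.univ (res u) (fun g => χ i g * A u s),
      if_pos (Finset.mem_univ _)]
  have key : (fun s : ℂ => ε * ∏ i, ∑ u : U H, χ i (res u) * A u s) =
      fun s : ℂ => ε * (L s * ∏ v ∈ B,
        (1 - psbC F v.asIdeal * (Ideal.absNorm v.asIdeal : ℂ) ^ (-s))) := by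
    refine S4.entire_eq ?_ ?_ fun s hs => ?_
    · refine Differentiable.const_mul ?_ ε
      refine Differentiable.fun_finsetProd fun i _ => ?_
      refine Differentiable.fun_sum fun u _ => ?_
      exact (hA u).const_mul _
    · exact (hL.mul (S4.differentiable_euler B _)).const_mul ε
    · congr 1
      rw [hL1 s hs, ← hAB.Lf_prod hM hres hχ1 hχ B hB hs]
      refine Finset.prod_congr rfl fun i _ => ?_
      rw [hAB.Lf_sum hM res (χ i) (hχ1 i) hs]
      exact Finset.sum_congr rfl fun u _ => by rw [hA1 u s hs]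
  have h1 := hdet (fun g => ∑ u : U H, if res u = g then A u 1 else 0)
  have h2 := congrFun key 1
  beta_reduce at h1 h2
  rw [h1, ← h2]
  congr 1
  exact Finset.prod_congr rfl fun i _ => hsum 1 i

end

end

end Pool.Agent.Lib.MP_1a91b9_nuX.DG
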