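import Pool.Agent.Lib.MP_1a91b9_nuX.DG.TrV
import Pool.Agent.Lib.MP_1a91b9_nuX.DG.DetL
import Pool.Agent.Lib.MP_1a91b9_nuX.DG.DSh
import Pool.Agent.Lib.MP_1a91b9_nuX.AN.Alg

/-!
# The determinant `dL` is not zero
-/

set_option autoImplicit false

namespace Pool.Agent.Lib.MP_1a91b9_nuX.DG

variable [Pool.Agent.Lib.MP_1a91b9_nuT.CD]

open NumberField IsDedekindDomain WeierstrassCurve Pool.Agent.Lib.MP_1a91b9_nuT
open Pool.Agent.Lib.MP_1a91b9_nuX.DB

noncomputable section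

private theorem DNE_finU {μ : 𝓞 K} (h : μ ≠ 0) (H : Subgroup (CU μ)) : Finite (U H) := by
  have h1 : Finite (𝓞 K ⧸ Ideal.span {μ}) := by
    refine Ideal.finiteQuotientOfFreeOfNeBot _ ?_
    rw [Ne, Ideal.span_singleton_eq_bot]
    exact h
  infer_instance

private theorem DNE_pm {s : ℂ} (hs : s = 1 ∨ s = -1) : s ≠ 0 := by
  rcases hs with rfl | rfl
  · exact one_ne_zero
  · exact neg_ne_zero.2 one_ne_zero

variable [HC]

/-- a unit congruent to `1` modulo `μ` is `1` -/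
theorem Md.inj {μ : 𝓞 K} (hM : Md μ) (u : (𝓞 K)ˣ) (hu : μ ∣ (u : 𝓞 K) - 1) : u = 1 := by
  have h1 := hM.ray _ hu
  rw [Fx, Ideal.span_singleton_eq_top.2 u.isUnit, ← Ideal.one_eq_top, AN.ps_one] at h1
  exact Units.ext h1.symm

section
variable [FP] {μ : 𝓞 K} {H : Subgroup (CU μ)} {F L' : Type} [Field F] [NumberField F]
  [Algebra K F] [Field L'] [NumberField L'] [Algebra K L'] [Algebra F L'] [IsScalarTower K F L']
  [DecidableEq L'] {J' : Pt L'} (hAB : AB H F L' J')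
include hAB

theorem AB.dL_ne (hM : Md μ) (hpk : IsCoprime pk μ) (hL : AN.LGood F) : dL F L' J' ≠ 0 := by
  have hg : IsGalois K F := hAB.galF
  have hfU : Finite (U H) := DNE_finU hAB.ne H
  have hftU : Fintype (U H) := Fintype.ofFinite (U H)
  let hdec : DecidableEq Gal(F/K) := Classical.decEq _
  obtain ⟨res, -, hres⟩ := hAB.exists_res
  obtain ⟨φ⟩ := exists_emb L'
  have hnot : ∀ u : U H, ¬ μ ∣ rp u := fun u h =>
    hM.not_unit ((rp_cop u).isUnit_of_dvd' h dvd_rfl)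
  choose A hA hA1 hA2 using fun u : U H =>
    Pool.Agent.Lib.MP_1a91b9_nuT.DG.exists_Z hAB.ne (hnot u) hM.inj
  obtain ⟨κ, c, u0, u1, hκ, hc, hkey⟩ := hAB.trace_val hM hpk hres φ
  obtain ⟨L, hLd, hL1, hLne⟩ := hL
  have hBfin : {v : HeightOneSpectrum (𝓞 F) |
      Ideal.span {algebraMap (𝓞 K) (𝓞 F) μ} ≤ v.asIdeal}.Finite := by
    refine (Ideal.finite_factors (I := Ideal.span {algebraMap (𝓞 K) (𝓞 F) μ}) ?_).subset
      fun v hv => ?_
    · rw [Ne, Ideal.zero_eq_bot, Ideal.span_singleton_eq_bot,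
        map_eq_zero_iff _ (FaithfulSMul.algebraMap_injective (𝓞 K) (𝓞 F))]
      exact hAB.ne
    · exact Ideal.dvd_iff_le.mpr hv
  obtain ⟨B, hBdef⟩ : ∃ B, B = hBfin.toFinset := ⟨_, rfl⟩
  have hB : ∀ v, v ∈ B ↔ algebraMap (𝓞 K) (𝓞 F) μ ∈ v.asIdeal := fun v => by
    rw [hBdef, Set.Finite.mem_toFinset]
    exact Ideal.span_singleton_le_iff_mem _
  obtain ⟨ε', hε', hdet⟩ := hAB.det_val hM hres hA hA1 hLd hL1 B hB
  obtain ⟨y, hy⟩ : ∃ y : Gal(F/K) → ℂ, ∀ g, y g =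
      ∑ u : U H, if res u = g then A u 1 else 0 := ⟨_, fun _ => rfl⟩
  have hB1 : ∏ v ∈ B, (1 - psbC F v.asIdeal * (Ideal.absNorm v.asIdeal : ℂ) ^ (-1 : ℂ)) ≠ 0 :=
    Finset.prod_ne_zero_iff.2 fun v _ => AN.euler_ne v
  have hdy : Matrix.det (Matrix.of fun g h : Gal(F/K) => y (g * h)) ≠ 0 := by
    have e : (Matrix.of fun g h : Gal(F/K) => y (g * h)) = Matrix.of fun g h : Gal(F/K) =>
        ∑ u : U H, if res u = g * h then A u 1 else 0 := by
      ext g h
      exact hy (g * h)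
    rw [e, hdet]
    exact mul_ne_zero (DNE_pm hε') (mul_ne_zero hLne hB1)
  have hmain := det_shift hAB.commF hκ hc (res u0) (res u1) hdy
  have hkey2 : ∀ g : Gal(F/K), Om * φ (algebraMap F L' (g (Algebra.trace F L' (lamQ J')))) =
      κ * (c * y (g * res u0 * res u1) -
        (Ideal.absNorm (Ideal.span {(pk : 𝓞 K)}) : ℂ) * y (g * res u0)) := by
    intro g
    rw [hkey g, hy, hy]
    have e : ∀ t : Gal(F/K), (∑ u : U H, if res u = t then
        (embK (μ : K))⁻¹ * E1 (embK ((rp u : 𝓞 K) : K) / embK (μ : K)) else 0) =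
        ∑ u : U H, if res u = t then A u 1 else 0 := by
      intro t
      refine Finset.sum_congr rfl fun u _ => ?_
      by_cases hc : res u = t
      · rw [if_pos hc, if_pos hc, hA2]
      · rw [if_neg hc, if_neg hc]
    rw [e, e]
  intro h0
  apply hmain
  have e1 : φ (algebraMap F L' (dL F L' J')) =
      Matrix.det (((φ : L' →+* ℂ).comp (algebraMap F L')).mapMatrix
        (Matrix.of fun g h : Gal(F/K) => (g * h) (Algebra.trace F L' (lamQ J')))) := by
    rw [← RingHom.map_det]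
    rfl
  have e2 : Matrix.det (Matrix.of fun g h : Gal(F/K) => κ * (c * y (g * h * res u0 * res u1) -
      (Ideal.absNorm (Ideal.span {(pk : 𝓞 K)}) : ℂ) * y (g * h * res u0))) =
      Om ^ Fintype.card Gal(F/K) * φ (algebraMap F L' (dL F L' J')) := by
    rw [e1, ← Matrix.det_smul]
    refine congrArg Matrix.det ?_
    ext g h
    exact (hkey2 (g * h)).symm
  rw [e2, h0, map_zero, map_zero, mul_zero]

end

end

end Pool.Agent.Lib.MP_1a91b9_nuX.DG
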