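import Pool.Agent.Lib.MP_1a91b9_nuX.DG.Fq
import Pool.Agent.Lib.MP_1a91b9_nuX.GM.Sep

/-!
# The valuations of `fq`
-/

set_option autoImplicit false

namespace Pool.Agent.Lib.MP_1a91b9_nuX.DG

open NumberField IsDedekindDomain WeierstrassCurve Pool.Agent.Lib.MP_1a91b9_nuT
open Pool.Agent.Lib.MP_1a91b9_nuX.DB

noncomputable section

variable [CD]

section
variable {F : Type*} [Field F] [Algebra K F] [DecidableEq F]

theorem sm_sm (a b : 𝓞 K) (Q : Pt F) : sm F a (sm F b Q) = sm F (a * b) Q := by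
  rw [map_mul]
  rfl

theorem sm_dvd {a b : 𝓞 K} (hab : a ∣ b) {Q : Pt F} (h : sm F a Q = 0) : sm F b Q = 0 := by
  obtain ⟨c, rfl⟩ := hab
  rw [mul_comm, ← sm_sm, h, map_zero]

/-- a point killed by two coprime elements is zero -/
theorem sm_cop {a b : 𝓞 K} (hab : IsCoprime a b) {Q : Pt F} (ha : sm F a Q = 0)
    (hb : sm F b Q = 0) : Q = 0 := by
  obtain ⟨x, y, hxy⟩ := hab
  have h1 : sm F (x * a + y * b) Q = 0 := by
    rw [map_add]
    change sm F (x * a) Q + sm F (y * b) Q = 0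
    rw [← sm_sm, ← sm_sm, ha, hb, map_zero, map_zero, add_zero]
  rw [hxy, map_one] at h1
  exact h1

theorem px_eq (P : Pt F) : GM.px P = xc P := by
  cases P <;> rfl

theorem bc_Δ : (Affine.baseChange (E K) F).Δ = -16 * (4 * cA F ^ 3 + 27 * cB F ^ 2) := by
  simp only [WeierstrassCurve.Δ, WeierstrassCurve.b₂, WeierstrassCurve.b₄, WeierstrassCurve.b₆,
    WeierstrassCurve.b₈, Affine.baseChange, WeierstrassCurve.map, E]
  simp
  ring

theorem bc_c₄ : (Affine.baseChange (E K) F).c₄ = -48 * cA F := by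
  simp only [WeierstrassCurve.c₄, WeierstrassCurve.b₂, WeierstrassCurve.b₄,
    Affine.baseChange, WeierstrassCurve.map, E]
  simp
  ring

theorem bc_ne : (Affine.baseChange (E K) F).Δ ≠ 0 := by
  rw [bc_Δ]
  refine mul_ne_zero ?_ dsc_ne
  have h2 : (2 : F) ≠ 0 := two_ne
  have e : (-16 : F) = -(2 ^ 4) := by norm_num
  rw [e]
  exact neg_ne_zero.2 (pow_ne_zero _ h2)

theorem bc_j {Γ : Type*} [LinearOrderedCommGroupWithZero Γ] (v : Valuation F Γ) :
    v ((Affine.baseChange (E K) F).c₄ ^ 3) ≤ v (Affine.baseChange (E K) F).Δ := by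
  obtain ⟨m, hm⟩ := CD.jint
  have h1 : (Affine.baseChange (E K) F).c₄ ^ 3 = (Affine.baseChange (E K) F).Δ * ((m : ℤ) : F) := by
    have h2 := congrArg (fun z : ℤ => (z : F)) hm
    push_cast at h2
    rw [bc_Δ, bc_c₄]
    linear_combination -16 * h2
  rw [h1, map_mul]
  exact mul_le_of_le_one_right' (v_int_le v m)

end

section
variable {F : Type*} [Field F] [Algebra K F] [DecidableEq F] {Γ : Type*}
  [LinearOrderedCommGroupWithZero Γ] (v : Valuation F Γ)

/-- the value of `ℓ` is less than `1`: good reduction -/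
theorem bad_of_ell {ℓ : ℕ} (hl : ℓ.Prime) (hg : ¬ (ℓ : ℤ) ∣ CD.bad) (hv : v (ℓ : F) < 1) :
    v (bD F) = 1 := by
  obtain ⟨a, b, hab⟩ := (Nat.prime_iff_prime_int.1 hl).coprime_iff_not_dvd.2 hg
  refine le_antisymm (v_int_le v _) (not_lt.1 fun hc => ?_)
  have h1 : (1 : F) = ((a : ℤ) : F) * (ℓ : F) + ((b : ℤ) : F) * bD F := by
    have h2 := congrArg (fun z : ℤ => (z : F)) hab
    push_cast at h2
    exact h2.symm
  have h3 : v (1 : F) < 1 := by
    rw [h1]
    refine v.map_add_lt ?_ ?_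
    · rw [map_mul]
      exact (mul_le_of_le_one_left' (v_int_le v a)).trans_lt hv
    · rw [map_mul]
      exact (mul_le_of_le_one_left' (v_int_le v b)).trans_lt hc
  rw [map_one] at h3
  exact lt_irrefl _ h3

/-- an element prime to an element of positive valuation is a unit -/
theorem v_cop {a b : 𝓞 K} (hab : IsCoprime a b) (hb : v (algebraMap K F (b : K)) < 1) :
    v (algebraMap K F (a : K)) = 1 := by
  obtain ⟨x, y, hxy⟩ := hab
  have h1 : algebraMap K F (x : K) * algebraMap K F (a : K) +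
      algebraMap K F (y : K) * algebraMap K F (b : K) = 1 := by
    have h2 : (x : K) * (a : K) + (y : K) * (b : K) = 1 := by
      have h3 := congrArg (algebraMap (𝓞 K) K) hxy
      rw [map_add, map_mul, map_mul, map_one] at h3
      exact h3
    have h4 := congrArg (algebraMap K F) h2
    rw [map_add, map_mul, map_mul, map_one] at h4
    exact h4
  by_contra hne
  have hlt : v (algebraMap K F (a : K)) < 1 := lt_of_le_of_ne (v_alg_le v a) hne
  have h3 : v (algebraMap K F (x : K) * algebraMap K F (a : K) +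
      algebraMap K F (y : K) * algebraMap K F (b : K)) < 1 := by
    refine Valuation.map_add_lt v ?_ ?_
    · rw [map_mul]
      exact lt_of_le_of_lt (mul_le_mul' (v_alg_le v x) le_rfl) (by rw [one_mul]; exact hlt)
    · rw [map_mul]
      exact lt_of_le_of_lt (mul_le_mul' (v_alg_le v y) le_rfl) (by rw [one_mul]; exact hb)
  rw [h1, map_one] at h3
  exact lt_irrefl _ h3

theorem v_nat_alg (n : ℕ) : algebraMap K F (((n : ℕ) : 𝓞 K) : K) = (n : F) := by
  have e : ((((n : ℕ) : 𝓞 K)) : K) = (n : K) := map_natCast (algebraMap (𝓞 K) K) n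
  rw [e, map_natCast]

end

variable [FP]

/-- the condition on `μ` and `ℓ`: `ℓ` does not divide the norm of `μ pk` -/
def CW (ℓ : ℕ) (μ : 𝓞 K) : Prop := ¬ ℓ ∣ Ideal.absNorm (Ideal.span {μ * pk})

theorem dvd_absN (a : 𝓞 K) : a ∣ ((Ideal.absNorm (Ideal.span {a}) : ℕ) : 𝓞 K) := by
  rw [← Ideal.mem_span_singleton]
  exact Ideal.absNorm_mem _

section
variable {ϖ μ : 𝓞 K} {ℓ q : ℕ}

theorem CW.copK (hc : CW ℓ μ) (hl : ℓ.Prime) : IsCoprime (μ * pk) (ℓ : 𝓞 K) := by
  have h1 : IsCoprime (Ideal.absNorm (Ideal.span {μ * pk}) : ℤ) (ℓ : ℤ) := by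
    rw [Nat.isCoprime_iff_coprime]
    exact ((Nat.Prime.coprime_iff_not_dvd hl).2 hc).symm
  have h2 := h1.map (Int.castRingHom (𝓞 K))
  rw [map_natCast, map_natCast] at h2
  exact IsCoprime.of_isCoprime_of_dvd_left h2 (dvd_absN _)

theorem CW.cop (hc : CW ℓ μ) (h : PD ϖ ℓ q) : IsCoprime (μ * pk) ϖ :=
  IsCoprime.of_isCoprime_of_dvd_right (hc.copK h.hl) h.dvd

theorem CW.copμ (hc : CW ℓ μ) (h : PD ϖ ℓ q) : IsCoprime μ ϖ :=
  IsCoprime.of_isCoprime_of_dvd_left (hc.cop h) (dvd_mul_right _ _)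

theorem CW.copp (hc : CW ℓ μ) (h : PD ϖ ℓ q) : IsCoprime pk ϖ :=
  IsCoprime.of_isCoprime_of_dvd_left (hc.cop h) (dvd_mul_left _ _)

theorem CW.not (hc : CW ℓ μ) (h : PD ϖ ℓ q) : ¬ ϖ ∣ μ := fun hd =>
  h.prime.not_isUnit ((hc.copμ h).symm.isUnit_of_dvd' dvd_rfl hd)

end

section
variable {F : Type*} [Field F] [Algebra K F] [DecidableEq F]

/-- `pk` does not kill a point with a component not killed by `pk` -/
theorem sm_pk_ne {m m' : 𝓞 K} (hc : IsCoprime m m') {Q X : Pt F} (hQ : sm F m Q = 0)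
    (hQ0 : sm F pk Q ≠ 0) (hX : sm F m' X = 0) : sm F pk (Q + X) ≠ 0 := by
  intro h
  apply hQ0
  refine sm_cop hc (by rw [sm_sm, mul_comm, ← sm_sm, hQ, map_zero]) ?_
  have h1 := congrArg (sm F m') h
  rw [map_zero, map_add, map_add, sm_sm m' pk X, mul_comm m' pk, ← sm_sm pk m' X, hX, map_zero,
    add_zero] at h1
  exact h1

/-- the difference of `Q` and a point killed by `pk` -/
theorem add_ne {Q s : Pt F} (hQ0 : sm F pk Q ≠ 0) (hs : sm F pk s = 0) : Q + s ≠ 0 := by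
  intro h
  apply hQ0
  have h1 := congrArg (sm F pk) h
  rwa [map_zero, map_add, hs, add_zero] at h1

theorem sub_ne {Q s : Pt F} (hQ0 : sm F pk Q ≠ 0) (hs : sm F pk s = 0) : Q - s ≠ 0 := by
  rw [sub_eq_add_neg]
  exact add_ne hQ0 (by rw [map_neg, hs, neg_zero])

theorem kill_add {m : 𝓞 K} {Q s : Pt F} (hQ : sm F m Q = 0) (hs : sm F pk s = 0) :
    sm F (m * pk) (Q + s) = 0 := by
  rw [map_add, sm_dvd (dvd_mul_right m pk) hQ, sm_dvd (dvd_mul_left pk m) hs, add_zero]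

theorem kill_sub {m : 𝓞 K} {Q s : Pt F} (hQ : sm F m Q = 0) (hs : sm F pk s = 0) :
    sm F (m * pk) (Q - s) = 0 := by
  rw [sub_eq_add_neg]
  exact kill_add hQ (by rw [map_neg, hs, neg_zero])

variable {Γ : Type*} [LinearOrderedCommGroupWithZero Γ] (v : Valuation F Γ)

private theorem nk_mix {m m' : 𝓞 K} (hc : IsCoprime m m')
    (hm : v (algebraMap K F (m : K)) = 1) {Q X : Pt F}
    (hQ : sm F m Q = 0) (hQ0 : Q ≠ 0) (hX : sm F m' X = 0) : ¬ Ker v (Q + X) := by
  by_cases hX0 : X = 0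
  · rw [hX0, add_zero]
    exact not_ker_torsO v hQ0 hm hQ
  · exact not_ker_mixO v hc hQ hQ0 hX hX0

private theorem v_pk_of {m : 𝓞 K} (hm : v (algebraMap K F ((m * pk : 𝓞 K) : K)) = 1) :
    v (algebraMap K F ((pk : 𝓞 K) : K)) = 1 := by
  refine le_antisymm (v_alg_le v _) ?_
  rw [← hm]
  have e : ((m * pk : 𝓞 K) : K) = (m : K) * ((pk : 𝓞 K) : K) := rfl
  rw [e, map_mul, map_mul]
  exact mul_le_of_le_one_left' (v_alg_le v m)

/-- the differences of abscissae over an algebraically closed field at the good places -/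
private theorem unit_root (hb : v (bD F) = 1) {m m' : 𝓞 K} (hc : IsCoprime (m * pk) m')
    (hm : v (algebraMap K F ((m * pk : 𝓞 K) : K)) = 1) {Q X s : Pt F}
    (hQ : sm F m Q = 0) (hQ0 : sm F pk Q ≠ 0) (hX : sm F m' X = 0) (hs0 : s ≠ 0)
    (hs : sm F pk s = 0) : v (xc (Q + X) - xc s) = 1 := by
  have hQn : Q ≠ 0 := fun e => hQ0 (by rw [e, map_zero])
  refine x_unit v hb (nk_mix v hc hm (sm_dvd (dvd_mul_right m pk) hQ) hQn hX)
    (not_ker_torsO v hs0 (v_pk_of v hm) hs) ?_ ?_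
  · have e : Q + X - s = (Q - s) + X := by abel
    rw [e]
    exact nk_mix v hc hm (kill_sub hQ hs) (sub_ne hQ0 hs) hX
  · have e : Q + X + s = (Q + s) + X := by abel
    rw [e]
    exact nk_mix v hc hm (kill_add hQ hs) (add_ne hQ0 hs) hX

end

section
variable {N : Type*} [Field N] [Algebra K N] [DecidableEq N]

/-- an algebraically closed extension with an embedding in `ℂ` -/
theorem exists_embΩ [Algebra.IsAlgebraic K N] : Nonempty (AlgebraicClosure N →ₐ[K] ℂ) := by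
  have h1 : Algebra.IsAlgebraic K (AlgebraicClosure N) := Algebra.IsAlgebraic.trans K N _
  exact ⟨IsAlgClosed.lift⟩

end

section
variable {N : Type*} [Field N] [Algebra K N] [Algebra.IsAlgebraic K N] [DecidableEq N]
  {Γ : Type*} [LinearOrderedCommGroupWithZero Γ] (v : Valuation N Γ)

/-- **`fq` is a unit at the good places prime to `m pk`** -/
theorem fq_unit (hb : v (bD N) = 1) {m m' : 𝓞 K} (hc : IsCoprime (m * pk) m')
    (hm : v (algebraMap K N ((m * pk : 𝓞 K) : K)) = 1) {Q X : Pt N} (hQ : sm N m Q = 0)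
    (hQ0 : sm N pk Q ≠ 0) (hX : sm N m' X = 0) : v (fq (Q + X)) = 1 := by
  classical
  obtain ⟨V, hV⟩ := GM.exists_val_ext (F' := AlgebraicClosure N) v
  obtain ⟨f⟩ := exists_embΩ (N := N)
  obtain ⟨ι, hι⟩ : ∃ ι : N →ₐ[K] AlgebraicClosure N, ι = IsScalarTower.toAlgHom K N _ := ⟨_, rfl⟩
  have hinj := pm_inj ι
  have hval : ∀ x : N, V.valuation (ι x) = 1 ↔ v x = 1 := fun x => by
    rw [hι]
    exact GM.val_ext_eq v V.valuation hV x
  have hK : ∀ a : 𝓞 K, algebraMap K (AlgebraicClosure N) (a : K) = ι (algebraMap K N (a : K)) :=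
    fun a => (ι.commutes _).symm
  rw [← hval, ← fq_pm, fq_prod, map_mul, map_pow, map_multiset_prod]
  have hm' : V.valuation (algebraMap K (AlgebraicClosure N) ((m * pk : 𝓞 K) : K)) = 1 := by
    rw [hK, hval]
    exact hm
  rw [v_pk_of V.valuation hm', one_pow, one_mul]
  refine Multiset.prod_eq_one fun y hy => ?_
  rw [Multiset.map_map, Multiset.mem_map] at hy
  obtain ⟨r, hr, rfl⟩ := hy
  obtain ⟨s, hs0, rfl, hs⟩ := root_pt f hr
  change V.valuation (xc (pm ι (Q + X)) - xc s) = 1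
  rw [map_add]
  refine unit_root V.valuation ?_ hc hm' ?_ ?_ ?_ hs0 hs
  · have e : bD (AlgebraicClosure N) = ι (bD N) := (map_intCast ι _).symm
    rw [e, hval]
    exact hb
  · rw [← pm_sm, hQ, map_zero]
  · rw [← pm_sm]
    intro e
    exact hQ0 (hinj (e.trans (map_zero _).symm))
  · rw [← pm_sm, hX, map_zero]

theorem ell_kill {F : Type*} [Field F] [Algebra K F] [DecidableEq F] {a : 𝓞 K} {Q : Pt F}
    (h : sm F a Q = 0) : Ideal.absNorm (Ideal.span {a}) • Q = 0 := by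
  rw [← sm_nat]
  exact sm_dvd (dvd_absN a) h

/-- **the valuation of `fq (Q + P)` does not depend on `P`** -/
theorem fq_v {ϖ μ : 𝓞 K} {ℓ q : ℕ} (h : PD ϖ ℓ q) (hc : CW ℓ μ) {Q P P' : Pt N}
    (hQ : sm N μ Q = 0) (hQ0 : sm N pk Q ≠ 0) (hP : sm N ϖ P = 0) (hP0 : P ≠ 0)
    (hP' : sm N ϖ P' = 0) (hP0' : P' ≠ 0) : v (fq (Q + P)) = v (fq (Q + P')) := by
  classical
  obtain ⟨V, hV⟩ := GM.exists_val_ext (F' := AlgebraicClosure N) v
  obtain ⟨f⟩ := exists_embΩ (N := N)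
  obtain ⟨ι, hι⟩ : ∃ ι : N →ₐ[K] AlgebraicClosure N, ι = IsScalarTower.toAlgHom K N _ := ⟨_, rfl⟩
  have hinj := pm_inj ι
  have hf : fq (Q + P') ≠ 0 :=
    fq_ne (f.comp ι) (sm_pk_ne (hc.copμ h) hQ hQ0 hP')
  refine GM.val_eq_of_ext hV hf ?_
  have hq : ∀ x : N, algebraMap N (AlgebraicClosure N) x = ι x := fun x => by rw [hι]; rfl
  rw [hq, hq, ← fq_pm, ← fq_pm, fq_prod, fq_prod, map_mul, map_mul, map_multiset_prod,
    map_multiset_prod, Multiset.map_map, Multiset.map_map]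
  congr 2
  refine Multiset.map_congr rfl fun r hr => ?_
  obtain ⟨s, hs0, rfl, hs⟩ := root_pt f hr
  change V.valuation (xc (pm ι (Q + P)) - xc s) = V.valuation (xc (pm ι (Q + P')) - xc s)
  rw [map_add, map_add]
  have kQ : sm _ μ (pm ι Q) = 0 := by rw [← pm_sm, hQ, map_zero]
  have kQ0 : sm _ pk (pm ι Q) ≠ 0 := by
    rw [← pm_sm]
    intro e
    exact hQ0 (hinj (e.trans (map_zero _).symm))
  have kP : sm _ ϖ (pm ι P) = 0 := by rw [← pm_sm, hP, map_zero]
  have kP' : sm _ ϖ (pm ι P') = 0 := by rw [← pm_sm, hP', map_zero]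
  have kP0 : pm ι P ≠ 0 := fun e => hP0 (hinj (e.trans (map_zero _).symm))
  have kP0' : pm ι P' ≠ 0 := fun e => hP0' (hinj (e.trans (map_zero _).symm))
  have hle : V.valuation ((ℓ : ℕ) : AlgebraicClosure N) ≤ 1 := v_nat_le _ _
  rcases hle.lt_or_eq with h1 | h1
  · have hb := bad_of_ell V.valuation h.hl h.good h1
    have hm : V.valuation (algebraMap K (AlgebraicClosure N) ((μ * pk : 𝓞 K) : K)) = 1 := by
      refine v_cop V.valuation (hc.copK h.hl) ?_
      rw [v_nat_alg]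
      exact h1
    rw [unit_root V.valuation hb (hc.cop h) hm kQ kQ0 kP hs0 hs,
      unit_root V.valuation hb (hc.cop h) hm kQ kQ0 kP' hs0 hs]
  · have h20 : (2 : AlgebraicClosure N) ≠ 0 := two_ne
    have h30 : (3 : AlgebraicClosure N) ≠ 0 := three_ne
    have lP : ℓ • pm ι P = 0 := by
      rw [← sm_nat]
      exact sm_dvd h.dvd kP
    have lP' : ℓ • pm ι P' = 0 := by
      rw [← sm_nat]
      exact sm_dvd h.dvd kP'
    have hco : ℓ.Coprime (Ideal.absNorm (Ideal.span {μ * pk})) :=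
      (Nat.Prime.coprime_iff_not_dvd h.hl).2 hc
    have nk : ∀ A B : Pt (AlgebraicClosure N), A ≠ 0 → ℓ • A = 0 → sm _ (μ * pk) B = 0 →
        GM.NKr V.valuation (B + A) := by
      intro A B hA hlA hB
      rw [add_comm]
      exact GM.NKr.add hA h1 hlA (ell_kill hB) hco
    have e1 : ∀ A : Pt (AlgebraicClosure N), pm ι Q + A - s = (pm ι Q - s) + A := fun A => by abel
    have e2 : ∀ A : Pt (AlgebraicClosure N), pm ι Q + A + s = (pm ι Q + s) + A := fun A => by abel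
    rw [← px_eq, ← px_eq, ← px_eq]
    refine GM.v_sub_congr h20 h30 bc_ne (bc_j _) hs0 ?_ ?_ ?_ ?_ ?_ ?_
    · exact nk _ _ kP0 lP (sm_dvd (dvd_mul_right μ pk) kQ)
    · rw [e1]
      exact nk _ _ kP0 lP (kill_sub kQ hs)
    · rw [e2]
      exact nk _ _ kP0 lP (kill_add kQ hs)
    · exact nk _ _ kP0' lP' (sm_dvd (dvd_mul_right μ pk) kQ)
    · rw [e1]
      exact nk _ _ kP0' lP' (kill_sub kQ hs)
    · rw [e2]
      exact nk _ _ kP0' lP' (kill_add kQ hs)

end

end

end Pool.Agent.Lib.MP_1a91b9_nuX.DG
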