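import Pool.Agent.Lib.MP_1a91b9_nuX.DG.FqV

/-!
# Local expansion of `fq`
-/

set_option autoImplicit false

namespace Pool.Agent.Lib.MP_1a91b9_nuX.DG

open NumberField IsDedekindDomain WeierstrassCurve Pool.Agent.Lib.MP_1a91b9_nuT
open Pool.Agent.Lib.MP_1a91b9_nuX.DB

noncomputable section

/-- the expansion of a polynomial with integral coefficients -/
theorem poly_exp {N : Type*} [Field N] {Γ : Type*} [LinearOrderedCommGroupWithZero Γ]
    (v : Valuation N Γ) (p : Polynomial N) (hp : ∀ i, v (p.coeff i) ≤ 1) {x y : N} (hx : v x ≤ 1)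
    (hy : v y ≤ 1) : v (p.eval (x + y) - p.eval x - p.derivative.eval x * y) ≤ v y ^ 2 ∧
      v (p.derivative.eval x) ≤ 1 ∧ v (p.eval x) ≤ 1 := by
  obtain ⟨T, hT⟩ : ∃ T : Subring N, T = v.integer := ⟨_, rfl⟩
  have hmem : ∀ z : N, z ∈ T ↔ v z ≤ 1 := fun z => by rw [hT]; exact Iff.rfl
  have hco : (↑p.coeffs : Set N) ⊆ T := by
    intro z hz
    obtain ⟨n, -, rfl⟩ := Polynomial.mem_coeffs_iff.1 hz
    exact (hmem _).2 (hp n)
  obtain ⟨p0, hp0⟩ : ∃ p0 : Polynomial T, p0.map T.subtype = p := by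
    refine ⟨p.toSubring T hco, ?_⟩
    ext i
    rw [Polynomial.coeff_map, Subring.coe_subtype, Polynomial.coeff_toSubring]
  obtain ⟨x0, hx0⟩ : ∃ x0 : T, T.subtype x0 = x := ⟨⟨x, (hmem x).2 hx⟩, rfl⟩
  obtain ⟨y0, hy0⟩ : ∃ y0 : T, T.subtype y0 = y := ⟨⟨y, (hmem y).2 hy⟩, rfl⟩
  have hev : ∀ (r : Polynomial T) (z : T), (r.map T.subtype).eval (T.subtype z) =
      T.subtype (r.eval z) := fun r z => Polynomial.eval_map_apply _ _
  have hle : ∀ z : T, v (T.subtype z) ≤ 1 := fun z => (hmem _).1 z.2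
  obtain ⟨k, hk⟩ := Polynomial.binomExpansion p0 x0 y0
  rw [← hp0, ← hx0, ← hy0, Polynomial.derivative_map, ← map_add, hev, hev, hev, hk]
  refine ⟨?_, hle _, hle _⟩
  have e : T.subtype (p0.eval x0 + p0.derivative.eval x0 * y0 + k * y0 ^ 2) -
      T.subtype (p0.eval x0) - T.subtype (p0.derivative.eval x0) * T.subtype y0 =
      T.subtype k * T.subtype y0 ^ 2 := by
    rw [map_add, map_add, map_mul, map_mul, map_pow]
    ring
  rw [e, map_mul, map_pow]
  exact mul_le_of_le_one_left' (hle k)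

variable [CD] [FP]

section
variable {N : Type*} [Field N] [Algebra K N] [Algebra.IsAlgebraic K N] [DecidableEq N]
  {Γ : Type*} [LinearOrderedCommGroupWithZero Γ] (v : Valuation N Γ)

/-- the coefficients of the denominator are integral at the places prime to `pk` -/
theorem coef_le (ha : v (algebraMap K N ((pk : 𝓞 K) : K)) = 1) (i : ℕ) :
    v ((dpoly N).coeff i) ≤ 1 := by
  classical
  obtain ⟨V, hV⟩ := GM.exists_val_ext (F' := AlgebraicClosure N) v
  obtain ⟨f⟩ := exists_embΩ (N := N)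
  obtain ⟨ι, hι⟩ : ∃ ι : N →ₐ[K] AlgebraicClosure N, ι = IsScalarTower.toAlgHom K N _ := ⟨_, rfl⟩
  have hq : ∀ x : N, algebraMap N (AlgebraicClosure N) x = ι x := fun x => by rw [hι]; rfl
  have ha' : V.valuation (algebraMap K (AlgebraicClosure N) ((pk : 𝓞 K) : K)) = 1 := by
    have e : algebraMap K (AlgebraicClosure N) ((pk : 𝓞 K) : K) =
        algebraMap N (AlgebraicClosure N) (algebraMap K N ((pk : 𝓞 K) : K)) := by
      rw [hq]
      exact (ι.commutes _).symm
    rw [e]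
    exact (GM.val_ext_eq v V.valuation hV _).2 ha
  have hmem : ∀ z : AlgebraicClosure N, V.valuation z ≤ 1 → z ∈ Set.range V.subtype := by
    intro z hz
    exact ⟨⟨z, (V.valuation_le_one_iff z).1 hz⟩, rfl⟩
  have hlift : dpoly (AlgebraicClosure N) ∈ Polynomial.lifts V.subtype := by
    rw [(IsAlgClosed.splits (dpoly (AlgebraicClosure N))).eq_prod_roots, dpoly_lead]
    refine mul_mem (Polynomial.C'_mem_lifts (hmem _ ?_)) (multiset_prod_mem _ fun q hq => ?_)
    · rw [map_pow, ha', one_pow]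
    · obtain ⟨r, hr, rfl⟩ := Multiset.mem_map.1 hq
      obtain ⟨s, hs0, rfl, hs⟩ := root_pt f hr
      rw [sub_eq_add_neg, ← map_neg]
      refine add_mem (Polynomial.X_mem_lifts _) (Polynomial.C'_mem_lifts (hmem _ ?_))
      have h1 := not_ker_torsO V.valuation hs0 ha' hs
      rw [Valuation.map_neg]
      exact not_lt.1 fun h2 => h1 (Or.inr h2)
  rw [← hV, hq]
  have h2 := (Polynomial.lifts_iff_coeff_lifts _).1 hlift i
  obtain ⟨z, hz⟩ := h2
  have e : ι ((dpoly N).coeff i) = (dpoly (AlgebraicClosure N)).coeff i := by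
    rw [← dpoly_map ι, Polynomial.coeff_map]
    rfl
  rw [e, ← hz]
  exact (V.valuation_le_one_iff _).2 z.2

/-- **the expansion of `fq` at a point which is not in the kernel of reduction** -/
theorem fq_add (ha : v (algebraMap K N ((pk : 𝓞 K) : K)) = 1) {Q R : Pt N} (hQ : ¬ Ker v Q)
    (hR : Ker v R) : v (fq (Q + R) - fq Q - 2 * yc Q * dq Q * tc R) ≤ v (tc R) ^ 2 ∧
      v (dq Q) ≤ 1 := by
  obtain ⟨-, h1, -⟩ := add_ker v hQ hR
  obtain ⟨-, hX, hY⟩ := not_ker v hQ
  have ht := (ker_tc_lt v hR).le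
  have h2 : v (2 : N) ≤ 1 := by simpa using v_nat_le v (F := N) 2
  obtain ⟨δ, hδ⟩ : ∃ δ : N, δ = xc (Q + R) - xc Q := ⟨_, rfl⟩
  rw [← hδ] at h1
  have hδ1 : v δ ≤ v (tc R) := by
    have e : δ = (δ - 2 * yc Q * tc R) + 2 * yc Q * tc R := by ring
    rw [e]
    refine Valuation.map_add_le v (h1.trans ?_) ?_
    · rw [sq]
      exact mul_le_of_le_one_left' ht
    · rw [map_mul]
      refine mul_le_of_le_one_left' ?_
      rw [map_mul]
      exact mul_le_one' h2 hY
  obtain ⟨h3, h4, -⟩ := poly_exp v (dpoly N) (coef_le v ha) hX (hδ1.trans ht)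
  refine ⟨?_, h4⟩
  have e1 : fq (Q + R) = (dpoly N).eval (xc Q + δ) := by
    unfold fq
    rw [hδ]
    congr 1
    ring
  have e2 : fq (Q + R) - fq Q - 2 * yc Q * dq Q * tc R =
      ((dpoly N).eval (xc Q + δ) - (dpoly N).eval (xc Q) -
        (dpoly N).derivative.eval (xc Q) * δ) + dq Q * (δ - 2 * yc Q * tc R) := by
    rw [e1]
    unfold fq dq
    ring
  rw [e2]
  refine Valuation.map_add_le v (h3.trans (pow_le_pow_left' hδ1 2)) ?_
  rw [map_mul]
  exact (mul_le_of_le_one_left' h4).trans h1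

end

end

end Pool.Agent.Lib.MP_1a91b9_nuX.DG
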