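import Pool.Agent.Lib.MP_1a91b9_nuX.DG.XQa
import Pool.Agent.Lib.MP_1a91b9_nuX.DG.FqL
import Pool.Agent.Lib.MP_1a91b9_nuX.DB.KerS

/-!
# Local expansion of the units `xQ`

`xQ T iv n P Q c = 1 - c (lamQ Q) (tc P)` modulo `(tc P)^2` at the places above `ϖ`.
-/

set_option autoImplicit false

namespace Pool.Agent.Lib.MP_1a91b9_nuX.DG

variable [Pool.Agent.Lib.MP_1a91b9_nuT.CD]

open NumberField IsDedekindDomain WeierstrassCurve Pool.Agent.Lib.MP_1a91b9_nuT
open Pool.Agent.Lib.MP_1a91b9_nuX.DB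

noncomputable section

variable [FP]

omit [FP] in
private theorem addk_mul {F : Type*} [Field F] {Γ : Type*} [LinearOrderedCommGroupWithZero Γ]
    (v : Valuation F Γ)
    {g : Γ} (hg : g ≤ 1) {x x' α α' : F} (h1 : v α ≤ g) (h2 : v (x - 1 - α) ≤ g ^ 2)
    (h1' : v α' ≤ g) (h2' : v (x' - 1 - α') ≤ g ^ 2) :
    v (α + α') ≤ g ∧ v (x * x' - 1 - (α + α')) ≤ g ^ 2 := by
  refine ⟨Valuation.map_add_le v h1 h1', ?_⟩
  have hx' : v x' ≤ 1 := by
    have e1 : x' = (x' - 1 - α') + (1 + α') := by ring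
    rw [e1]
    refine Valuation.map_add_le v (h2'.trans (pow_le_one' hg 2)) ?_
    exact Valuation.map_add_le v (by rw [map_one]) (h1'.trans hg)
  have e2 : x * x' - 1 - (α + α') = (x - 1 - α) * x' + ((1 + α) * (x' - 1 - α') + α * α') := by
    ring
  rw [e2]
  refine Valuation.map_add_le v ?_ (Valuation.map_add_le v ?_ ?_)
  · rw [map_mul]
    exact (mul_le_mul' h2 hx').trans (by rw [mul_one])
  · rw [map_mul]
    have h3 : v (1 + α) ≤ 1 := Valuation.map_add_le v (by rw [map_one]) (h1.trans hg)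
    exact (mul_le_mul' h3 h2').trans (by rw [one_mul])
  · rw [map_mul, sq]
    exact mul_le_mul' h1 h1'

private theorem addk_inv {F : Type*} [Field F] {Γ : Type*} [LinearOrderedCommGroupWithZero Γ]
    (v : Valuation F Γ)
    {g : Γ} (hg : g ≤ 1) {x α : F} (hx : v x = 1) (h1 : v α ≤ g) (h2 : v (x - 1 - α) ≤ g ^ 2) :
    v (-α) ≤ g ∧ v (x⁻¹ - 1 - -α) ≤ g ^ 2 := by
  refine ⟨by rwa [Valuation.map_neg], ?_⟩
  have hx0 : x ≠ 0 := by
    rintro rfl
    rw [map_zero] at hx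
    exact zero_ne_one hx
  have e1 : x⁻¹ - 1 - -α = x⁻¹ * (α * (x - 1 - α) + α * α - (x - 1 - α)) := by
    field_simp
    ring
  rw [e1, map_mul, map_inv₀, hx, inv_one, one_mul]
  refine Valuation.map_sub_le v (Valuation.map_add_le v ?_ ?_) h2
  · rw [map_mul]
    exact (mul_le_mul' (h1.trans hg) h2).trans (by rw [one_mul])
  · rw [map_mul, sq]
    exact mul_le_mul' h1 h1

private theorem addk_pow {F : Type*} [Field F] {Γ : Type*} [LinearOrderedCommGroupWithZero Γ]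
    (v : Valuation F Γ)
    {g : Γ} (hg : g ≤ 1) {x α : F} (h1 : v α ≤ g) (h2 : v (x - 1 - α) ≤ g ^ 2) (m : ℕ) :
    v ((m : F) * α) ≤ g ∧ v (x ^ m - 1 - (m : F) * α) ≤ g ^ 2 := by
  induction m with
  | zero => simp
  | succ m ih =>
    have h3 := addk_mul v hg ih.1 ih.2 h1 h2
    have e1 : ((m + 1 : ℕ) : F) * α = (m : F) * α + α := by
      push_cast
      ring
    rw [e1, pow_succ]
    exact h3

private theorem addk_zpow {F : Type*} [Field F] {Γ : Type*} [LinearOrderedCommGroupWithZero Γ]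
    (v : Valuation F Γ)
    {g : Γ} (hg : g ≤ 1) {x α : F} (hx : v x = 1) (h1 : v α ≤ g) (h2 : v (x - 1 - α) ≤ g ^ 2)
    (m : ℤ) : v ((m : F) * α) ≤ g ∧ v (x ^ m - 1 - (m : F) * α) ≤ g ^ 2 := by
  obtain ⟨k, rfl | rfl⟩ := m.eq_nat_or_neg
  · rw [zpow_natCast, Int.cast_natCast]
    exact addk_pow v hg h1 h2 k
  · have h3 := addk_pow v hg h1 h2 k
    have h4 : v (x ^ k) = 1 := by rw [map_pow, hx, one_pow]
    have h5 := addk_inv v hg h4 h3.1 h3.2
    have e1 : (((-(k : ℤ) : ℤ)) : F) * α = -((k : F) * α) := by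
      push_cast
      ring
    rw [e1, zpow_neg, zpow_natCast]
    exact h5

private theorem addk_prod {F : Type*} [Field F] {Γ : Type*} [LinearOrderedCommGroupWithZero Γ]
    (v : Valuation F Γ)
    {g : Γ} (hg : g ≤ 1) {ι : Type*} (s : Finset ι) (x α : ι → F)
    (h1 : ∀ i ∈ s, v (α i) ≤ g ∧ v (x i - 1 - α i) ≤ g ^ 2) :
    v (∑ i ∈ s, α i) ≤ g ∧ v (∏ i ∈ s, x i - 1 - ∑ i ∈ s, α i) ≤ g ^ 2 := by
  classical
  induction s using Finset.induction_on with
  | empty => simp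
  | insert a s ha ih =>
    have h2 := ih fun i hi => h1 i (Finset.mem_insert_of_mem hi)
    have h3 := h1 a (Finset.mem_insert_self a s)
    rw [Finset.sum_insert ha, Finset.prod_insert ha]
    exact addk_mul v hg h3.1 h3.2 h2.1 h2.2

private theorem addk_prod_zpow {F : Type*} [Field F] {x : F} (hx : x ≠ 0) {ι : Type*}
    (s : Finset ι) (f : ι → ℤ) :
    ∏ i ∈ s, x ^ f i = x ^ (∑ i ∈ s, f i) := by
  classical
  induction s using Finset.induction_on with
  | empty => simp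
  | insert a s ha ih =>
    rw [Finset.sum_insert ha, Finset.prod_insert ha, ih, zpow_add₀ hx]


section
variable {N : Type} [Field N] [NumberField N] [Algebra K N] [DecidableEq N]
  {ϖ : 𝓞 K} {ℓ q : ℕ} (h : PD ϖ ℓ q) {T : Finset (𝓞 K)} {iv : 𝓞 K → 𝓞 K} {n : 𝓞 K → ℤ}
  (hT : TrD ϖ ℓ T iv n) {P : Pt N} (hP : Ord ϖ P) {μ : 𝓞 K}
  (hμϖ : CW ℓ μ) {Q : Pt N} (hQ : sm N μ Q = 0) (hQ0 : sm N pk Q ≠ 0)

include h in
omit [FP] in
theorem bad_of_pi {F : Type*} [Field F] [Algebra K F] [DecidableEq F] {Γ : Type*}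
    [LinearOrderedCommGroupWithZero Γ] (v : Valuation F Γ)
    (hv : v (algebraMap K F (ϖ : K)) < 1) : v (bD F) = 1 := by
  refine bad_of_ell v h.hl h.good ?_
  obtain ⟨c, hc⟩ := h.dvd
  rw [← v_nat_alg (F := F) ℓ, hc]
  have e : ((ϖ * c : 𝓞 K) : K) = (ϖ : K) * (c : K) := rfl
  rw [e, map_mul, map_mul]
  exact (mul_le_of_le_one_right' (v_alg_le v c)).trans_lt hv

include h hμϖ in
theorem v_mu {F : Type*} [Field F] [Algebra K F] [DecidableEq F] {Γ : Type*}
    [LinearOrderedCommGroupWithZero Γ] (v : Valuation F Γ)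
    (hv : v (algebraMap K F (ϖ : K)) < 1) : v (algebraMap K F ((μ * pk : 𝓞 K) : K)) = 1 :=
  v_cop v (hμϖ.cop h) hv

include h hμϖ in
theorem v_pk {F : Type*} [Field F] [Algebra K F] [DecidableEq F] {Γ : Type*}
    [LinearOrderedCommGroupWithZero Γ] (v : Valuation F Γ)
    (hv : v (algebraMap K F (ϖ : K)) < 1) : v (algebraMap K F ((pk : 𝓞 K) : K)) = 1 :=
  v_cop v (hμϖ.copp h) hv

include h hμϖ hQ hQ0 in
theorem nkQ {Γ : Type*} [LinearOrderedCommGroupWithZero Γ] (v : Valuation N Γ)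
    (hv : v (algebraMap K N (ϖ : K)) < 1) : ¬ Ker v Q := by
  refine not_ker_torsO v (fun e => hQ0 (by rw [e, map_zero])) ?_ hQ
  exact v_cop v (hμϖ.copμ h) hv

include h hP hμϖ hQ hQ0 in
theorem xQ1_val {Γ : Type*} [LinearOrderedCommGroupWithZero Γ] (v : Valuation N Γ)
    (hv : v (algebraMap K N (ϖ : K)) < 1) (c : 𝓞 K) :
    v (fq (Q + sm N c P)) = 1 :=
  fq_unit v (bad_of_pi h v hv) (hμϖ.cop h) (v_mu h hμϖ v hv) hQ hQ0 (sm_kill h hP c)

include h hP hμϖ hQ hQ0 in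
theorem xQ0_val {Γ : Type*} [LinearOrderedCommGroupWithZero Γ] (v : Valuation N Γ)
    (hv : v (algebraMap K N (ϖ : K)) < 1) : v (fq Q) = 1 := by
  have h1 := xQ1_val h hP hμϖ hQ hQ0 v hv 0
  have e : sm N (0 : 𝓞 K) P = 0 := by
    rw [map_zero]
    rfl
  rwa [e, add_zero] at h1

include h hP hμϖ hQ hQ0 in
theorem lamQ_val {Γ : Type*} [LinearOrderedCommGroupWithZero Γ] (v : Valuation N Γ)
    (hv : v (algebraMap K N (ϖ : K)) < 1) : v (lamQ Q) ≤ 1 := by
  have hnk := nkQ h hμϖ hQ hQ0 v hv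
  obtain ⟨-, -, hY⟩ := not_ker v hnk
  have h6 : v (2 : N) ≤ 1 := by simpa using v_nat_le v (F := N) 2
  have hK : Ker v P := ker_of_val v h.prime hP hv (bad_of_pi h v hv)
  obtain ⟨-, h7⟩ := fq_add v (v_pk h hμϖ v hv) hnk hK
  unfold lamQ
  rw [map_div₀, xQ0_val h hP hμϖ hQ hQ0 v hv, div_one, map_mul, map_mul]
  exact mul_le_one' (mul_le_one' h6 hY) h7

include h hT hP hμϖ hQ hQ0

theorem xQ_loc {Γ : Type*} [LinearOrderedCommGroupWithZero Γ] (v : Valuation N Γ)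
    (hv : v (algebraMap K N (ϖ : K)) < 1) (c : 𝓞 K) :
    v (xQ T iv n P Q c - 1 + algebraMap K N (c : K) * lamQ Q * tc P) ≤ v (tc P) ^ 2 := by
  have hb := bad_of_pi h v hv
  have hK : Ker v P := ker_of_val v h.prime hP hv hb
  have ht := (ker_tc_lt v hK).le
  have hlam := lamQ_val h hP hμϖ hQ hQ0 v hv
  have hnk := nkQ h hμϖ hQ hQ0 v hv
  obtain ⟨-, -, hYQ⟩ := not_ker v hnk
  have h2 : v (2 : N) ≤ 1 := by simpa using v_nat_le v (F := N) 2
  have hY := xQ0_val h hP hμϖ hQ hQ0 v hv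
  obtain ⟨Y, hYd⟩ : ∃ Y, Y = fq Q := ⟨_, rfl⟩
  have hdq := (fq_add v (v_pk h hμϖ v hv) hnk hK).2
  have hlY : lamQ Q * Y = 2 * yc Q * dq Q := by
    have hY0 : Y ≠ 0 := by
      rintro h0
      rw [← hYd, h0, map_zero] at hY
      exact zero_ne_one hY
    unfold lamQ
    rw [hYd] at hY0 ⊢
    exact div_mul_cancel₀ _ hY0
  rw [← hYd] at hY
  have hY0 : Y ≠ 0 := by
    rintro h0
    rw [h0, map_zero] at hY
    exact zero_ne_one hY
  have hvYi : v (Y⁻¹) = 1 := by rw [map_inv₀, hY, inv_one]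
  -- each factor
  have hα : ∀ a : 𝓞 K, v (lamQ Q * algebraMap K N (a : K) * tc P) ≤ v (tc P) := by
    intro a
    rw [map_mul, map_mul]
    exact (mul_le_mul' (mul_le_one' hlam (v_alg_le v a)) le_rfl).trans (by rw [one_mul])
  have hx : ∀ a ∈ T, v (Y⁻¹ * fq (Q + sm N a P)) = 1 := by
    intro a ha
    rw [map_mul, hvYi, one_mul]
    exact xQ1_val h hP hμϖ hQ hQ0 v hv a
  have hx1 : ∀ a ∈ T, v (Y⁻¹ * fq (Q + sm N a P) - 1 -
      lamQ Q * algebraMap K N (a : K) * tc P) ≤ v (tc P) ^ 2 := by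
    intro a ha
    have h1 := (fq_add v (v_pk h hμϖ v hv) hnk (ker_sm v hK a)).1
    have h3 := ker_sm_t v hK a
    have h4 := ker_sm_le v hK a
    rw [← hYd] at h1
    have e1 : Y⁻¹ * fq (Q + sm N a P) - 1 - lamQ Q * algebraMap K N (a : K) * tc P =
        Y⁻¹ * ((fq (Q + sm N a P) - Y - 2 * yc Q * dq Q * tc (sm N a P)) +
          2 * yc Q * dq Q * (tc (sm N a P) - algebraMap K N (a : K) * tc P)) := by
      rw [← hlY]
      field_simp
      ring
    rw [e1, map_mul, hvYi, one_mul]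
    refine Valuation.map_add_le v (h1.trans (pow_le_pow_left' h4 2)) ?_
    rw [map_mul, map_mul, map_mul]
    refine (mul_le_mul' (mul_le_one' (mul_le_one' h2 hYQ) hdq) h3).trans ?_
    rw [one_mul]
    exact pow_le_pow_right_of_le_one' ht (by norm_num)
  have hprod := (addk_prod v ht T
    (fun a => (Y⁻¹ * fq (Q + sm N a P)) ^ n (c * iv a))
    (fun a => ((n (c * iv a) : ℤ) : N) * (lamQ Q * algebraMap K N (a : K) * tc P))
    (fun a ha => addk_zpow v ht (hx a ha) (hα a) (hx1 a ha) _)).2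
  have e2 : ∏ a ∈ T, (Y⁻¹ * fq (Q + sm N a P)) ^ n (c * iv a) = xQ T iv n P Q c := by
    have e3 : ∀ a ∈ T, (Y⁻¹ * fq (Q + sm N a P)) ^ n (c * iv a) =
        (Y⁻¹) ^ n (c * iv a) * fq (Q + sm N a P) ^ n (c * iv a) :=
      fun a _ => mul_zpow _ _ _
    rw [Finset.prod_congr rfl e3, Finset.prod_mul_distrib,
      addk_prod_zpow (inv_ne_zero hY0) T (fun a => n (c * iv a)),
      TrD.sum_zero h hT c, zpow_zero, one_mul]
    rfl
  have e4 : ∑ a ∈ T, ((n (c * iv a) : ℤ) : N) * (lamQ Q * algebraMap K N (a : K) * tc P) =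
      lamQ Q * tc P * algebraMap K N
        ((∑ a ∈ T, (n (c * iv a) : 𝓞 K) * a : 𝓞 K) : K) := by
    have e5 : ((∑ a ∈ T, (n (c * iv a) : 𝓞 K) * a : 𝓞 K) : K) =
        ∑ a ∈ T, ((n (c * iv a) : ℤ) : K) * (a : K) := by
      change algebraMap (𝓞 K) K _ = _
      rw [map_sum]
      refine Finset.sum_congr rfl fun a _ => ?_
      rw [map_mul, map_intCast]
    rw [e5, map_sum, Finset.mul_sum]
    refine Finset.sum_congr rfl fun a _ => ?_
    rw [map_mul, map_intCast]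
    ring
  obtain ⟨b, hb'⟩ := hT.orth c
  have e6 : algebraMap K N ((∑ a ∈ T, (n (c * iv a) : 𝓞 K) * a : 𝓞 K) : K) =
      algebraMap K N (ϖ : K) * algebraMap K N (b : K) - algebraMap K N (c : K) := by
    have e7 : (∑ a ∈ T, (n (c * iv a) : 𝓞 K) * a : 𝓞 K) = ϖ * b - c := by
      rw [← hb']
      ring
    rw [e7]
    have e8 : ((ϖ * b - c : 𝓞 K) : K) = (ϖ : K) * (b : K) - (c : K) := by
      change algebraMap (𝓞 K) K (ϖ * b - c) = _
      rw [map_sub, map_mul]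
    rw [e8, map_sub, map_mul]
  rw [e2, e4, e6] at hprod
  have hϖ : v (algebraMap K N (ϖ : K)) ≤ v (tc P) := by
    rw [← v_tc v h.prime hP hv hb]
    have h5 : 5 ≤ q := PD.q_five h
    rw [h.norm]
    calc v (tc P) ^ (q - 1) ≤ v (tc P) ^ 1 := pow_le_pow_right_of_le_one' ht (by omega)
      _ = v (tc P) := pow_one _
  have e9 : xQ T iv n P Q c - 1 + algebraMap K N (c : K) * lamQ Q * tc P =
      (xQ T iv n P Q c - 1 - lamQ Q * tc P *
        (algebraMap K N (ϖ : K) * algebraMap K N (b : K) - algebraMap K N (c : K))) +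
      lamQ Q * tc P * (algebraMap K N (ϖ : K) * algebraMap K N (b : K)) := by
    ring
  rw [e9]
  refine Valuation.map_add_le v hprod ?_
  rw [map_mul, map_mul, map_mul, sq]
  refine mul_le_mul' ((mul_le_mul' hlam le_rfl).trans (by rw [one_mul])) ?_
  exact (mul_le_mul' hϖ (v_alg_le v b)).trans (by rw [mul_one])

end

end

end Pool.Agent.Lib.MP_1a91b9_nuX.DG
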