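import Pool.Agent.Lib.MP_1a91b9_nuX.DG.Res
import Pool.Agent.Lib.MP_1a91b9_nuX.DG.AddK
import Pool.Agent.Lib.MP_1a91b9_nuT.DG.Unr
import Pool.Agent.Lib.MP_1a91b9_nuT.DS.Defs
import Pool.Agent.Lib.MP_1a91b9_nuT.BaseK

/-!
# unramified places
-/

set_option autoImplicit false

namespace Pool.Agent.Lib.MP_1a91b9_nuX.DG

variable [Pool.Agent.Lib.MP_1a91b9_nuT.CD]

open NumberField IsDedekindDomain WeierstrassCurve Pool.Agent.Lib.MP_1a91b9_nuT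
open Pool.Agent.Lib.MP_1a91b9_nuX.DB

export Pool.Agent.Lib.MP_1a91b9_nuT.DG (unram_gen od_prime_K)

noncomputable section

section
variable {k L : Type} [Field k] [NumberField k] [Algebra K k] [Field L] [NumberField L]
  [Algebra K L] [Algebra k L] [IsScalarTower K k L] [DecidableEq L] [IsGalois k L]

theorem fix_tors (W : HeightOneSpectrum (𝓞 L)) (hb : W.valuation L (bD L) = 1) {γ : 𝓞 K}
    (hWγ : W.valuation L (algebraMap K L (γ : K)) = 1) {Q : Pt L} (hQ : sm L γ Q = 0)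
    (σ : Gal(L/k)) (hσ : ∀ x : 𝓞 L, σ • x - x ∈ W.asIdeal) : ga σ Q = Q := by
  rcases eq_or_ne Q 0 with rfl | hQ0
  · rw [map_zero]
  have hQ' : sm L γ (ga σ Q) = 0 := by rw [← ga_sm, hQ, map_zero]
  have hGQ0 : ga σ Q ≠ 0 := fun e => hQ0 (pm_inj _ (by rw [e, map_zero]))
  have hk1 : ¬ Ker (W.valuation L) Q := not_ker_torsO _ hQ0 hWγ hQ
  have hk2 : ¬ Ker (W.valuation L) (ga σ Q) := not_ker_torsO _ hGQ0 hWγ hQ'
  obtain ⟨_, hx, hy⟩ := not_ker (W.valuation L) hk1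
  have hker : Ker (W.valuation L) (Q - ga σ Q) := by
    apply red_inj (W.valuation L) hb hk1 hk2
    · rw [xc_ga]
      exact raD_val W σ hσ hx
    · rw [yc_ga]
      exact raD_val W σ hσ hy
  have h0 : sm L γ (Q - ga σ Q) = 0 := by rw [map_sub, hQ, hQ', sub_zero]
  exact (sub_eq_zero.1 (ker_torsO _ hker hWγ h0)).symm

end

private theorem unr_sq {ℓ : ℕ} (hℓ : ℓ.Prime) (hD : ¬ (ℓ : ℤ) ∣ CD.bad) {y z : 𝓞 K}
    (h : y ^ 2 = (ℓ : 𝓞 K) * z) : ∃ t : 𝓞 K, y = (ℓ : 𝓞 K) * t := by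
  obtain ⟨m, n, hy⟩ := CD.gen y
  obtain ⟨m', n', hz⟩ := CD.gen z
  have hq : omO ^ 2 = (CD.tr : 𝓞 K) * omO - (CD.nm : 𝓞 K) := omO_quad
  have h1 : (((m ^ 2 - CD.nm * n ^ 2 - ℓ * m' : ℤ) : 𝓞 K)) +
      ((2 * m * n + CD.tr * n ^ 2 - ℓ * n' : ℤ) : 𝓞 K) * omO = 0 := by
    rw [hy, hz] at h
    push_cast
    linear_combination h - (n : 𝓞 K) ^ 2 * hq
  have h3 : ((m ^ 2 - CD.nm * n ^ 2 - ℓ * m' : ℤ) : ℂ) +
      ((2 * m * n + CD.tr * n ^ 2 - ℓ * n' : ℤ) : ℂ) * zt = 0 := by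
    rw [← embK_lin, h1]
    exact map_zero embK
  obtain ⟨h4, h6⟩ := lin_zero _ _ h3
  have hp : Prime (ℓ : ℤ) := Nat.prime_iff_prime_int.1 hℓ
  have h2 : ¬ (ℓ : ℤ) ∣ 2 := fun h9 => hD ((h9.trans (Dvd.intro
    (3 * (4 * CD.A ^ 3 + 27 * CD.B ^ 2) * CD.nm * (CD.tr ^ 2 - 4 * CD.nm)) (by ring))).trans
    CD.bad_dvd)
  have hdk : ¬ (ℓ : ℤ) ∣ CD.tr ^ 2 - 4 * CD.nm := fun h9 => hD ((h9.trans (Dvd.intro_left
    (6 * (4 * CD.A ^ 3 + 27 * CD.B ^ 2) * CD.nm) (by ring))).trans CD.bad_dvd)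
  have hn : (ℓ : ℤ) ∣ n * (2 * m + CD.tr * n) := ⟨n', by linear_combination h6⟩
  have hm : (ℓ : ℤ) ∣ m ^ 2 - CD.nm * n ^ 2 := ⟨m', by linear_combination h4⟩
  have key : (ℓ : ℤ) ∣ m ∧ (ℓ : ℤ) ∣ n := by
    have hnn : (ℓ : ℤ) ∣ n := by
      rcases hp.dvd_or_dvd hn with hn1 | hn1
      · exact hn1
      · have h7 : (ℓ : ℤ) ∣ (CD.tr ^ 2 - 4 * CD.nm) * n ^ 2 := by
          obtain ⟨c, hc⟩ := hn1
          obtain ⟨d, hd⟩ := hm
          refine ⟨4 * d - c * (2 * m - CD.tr * n), ?_⟩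
          linear_combination 4 * hd - (2 * m - CD.tr * n) * hc
        exact hp.dvd_of_dvd_pow ((hp.dvd_or_dvd h7).resolve_left hdk)
    refine ⟨?_, hnn⟩
    apply hp.dvd_of_dvd_pow (n := 2)
    have h8 := dvd_add hm (Dvd.dvd.mul_left (Dvd.dvd.pow hnn two_ne_zero) CD.nm)
    rwa [sub_add_cancel] at h8
  obtain ⟨⟨m1, hm1⟩, ⟨n1, hn1⟩⟩ := key
  refine ⟨(m1 : 𝓞 K) + n1 * omO, ?_⟩
  rw [hy, hm1, hn1]
  push_cast
  ring

private theorem unr_K {ℓ : ℕ} (hℓ : ℓ.Prime) (hD : ¬ (ℓ : ℤ) ∣ CD.bad) : MP_1a91b9_nuT.DS.UnrL ℓ K := by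
  intro v hv
  have hl0 : (ℓ : K) ≠ 0 := Nat.cast_ne_zero.2 hℓ.ne_zero
  have hl0' : (ℓ : 𝓞 K) ≠ 0 := Nat.cast_ne_zero.2 hℓ.ne_zero
  have h1 : 0 < od v (ℓ : K) := (val_lt_one_iff v hl0).1 hv
  by_contra hne
  have h2 : 2 ≤ od v (ℓ : K) := by omega
  have e0 : algebraMap (𝓞 K) K (ℓ : 𝓞 K) = (ℓ : K) := map_natCast (algebraMap (𝓞 K) K) ℓ
  have h3 : (ℓ : 𝓞 K) ∈ v.asIdeal ^ 2 := by
    rw [← v.intValuation_le_pow_iff_mem, ← v.valuation_of_algebraMap (K := K)]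
    change v.valuation K (algebraMap (𝓞 K) K (ℓ : 𝓞 K)) ≤ _
    rw [e0, val_eq v hl0, WithZero.exp_le_exp]
    push_cast
    omega
  have h4 : v.asIdeal ^ 2 ∣ Ideal.span {(ℓ : 𝓞 K)} := by
    rw [Ideal.dvd_span_singleton]
    exact h3
  obtain ⟨J, hJ⟩ := h4
  have hJ0 : J ≠ 0 := by
    rintro rfl
    rw [mul_zero, Ideal.zero_eq_bot, Ideal.span_singleton_eq_bot] at hJ
    exact hl0' hJ
  have hle : ¬ v.asIdeal * J ≤ Ideal.span {(ℓ : 𝓞 K)} := by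
    intro h6
    have h7 : Ideal.span {(ℓ : 𝓞 K)} ∣ v.asIdeal * J := Ideal.dvd_iff_le.2 h6
    rw [hJ, pow_two, mul_assoc] at h7
    have h8 : v.asIdeal * (v.asIdeal * J) ∣ 1 * (v.asIdeal * J) := by rwa [one_mul]
    have h9 : v.asIdeal ∣ 1 :=
      (mul_dvd_mul_iff_right (mul_ne_zero v.ne_bot hJ0)).1 h8
    have h10 : v.asIdeal = ⊤ := by
      rw [← Ideal.one_eq_top]
      exact le_antisymm (by rw [Ideal.one_eq_top]; exact le_top) (Ideal.dvd_iff_le.1 h9)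
    exact v.isPrime.ne_top h10
  obtain ⟨y, hy1, hy2⟩ := SetLike.not_le_iff_exists.1 hle
  have h6 : y ^ 2 ∈ Ideal.span {(ℓ : 𝓞 K)} := by
    have h7 : y * y ∈ (v.asIdeal * J) * (v.asIdeal * J) := Ideal.mul_mem_mul hy1 hy1
    have e : (v.asIdeal * J) * (v.asIdeal * J) = Ideal.span {(ℓ : 𝓞 K)} * J := by
      rw [hJ, pow_two, mul_mul_mul_comm, mul_assoc (v.asIdeal * v.asIdeal) J J]
    have h8 : Ideal.span {(ℓ : 𝓞 K)} * J ≤ Ideal.span {(ℓ : 𝓞 K)} := Ideal.mul_le_left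
    rw [pow_two]
    rw [e] at h7
    exact h8 h7
  obtain ⟨z, hz⟩ := Ideal.mem_span_singleton.1 h6
  obtain ⟨t, ht⟩ := unr_sq hℓ hD hz
  exact hy2 (Ideal.mem_span_singleton.2 ⟨t, ht⟩)

private theorem unr_over {N L : Type} [Field N] [NumberField N] [Field L] [NumberField L]
    [Algebra N L] (W : HeightOneSpectrum (𝓞 N)) :
    ∃ W' : HeightOneSpectrum (𝓞 L), W'.under (𝓞 N) = W := by
  have i3 : W.asIdeal.IsPrime := W.isPrime
  obtain ⟨Q, hQ1, hQ2⟩ := (inferInstance : Nonempty (W.asIdeal.primesOver (𝓞 L)))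
  have hb : Q ≠ ⊥ := Ideal.ne_bot_of_mem_primesOver W.ne_bot ⟨hQ1, hQ2⟩
  refine ⟨⟨Q, hQ1, hb⟩, ?_⟩
  apply HeightOneSpectrum.ext
  exact hQ2.over.symm

private theorem unr_cop {F : Type} [Field F] [Algebra K F] [DecidableEq F] {Γ : Type*}
    [LinearOrderedCommGroupWithZero Γ] (v : Valuation F Γ) {a b : 𝓞 K} (h : IsCoprime a b)
    (ha : v (algebraMap K F (a : K)) < 1) : v (algebraMap K F (b : K)) = 1 := by
  obtain ⟨c, d, hcd⟩ := h
  refine le_antisymm (v_alg_le v b) (not_lt.1 fun hb => ?_)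
  have e1 : ((c * a + d * b : 𝓞 K) : K) = (c : K) * (a : K) + (d : K) * (b : K) := by
    rw [← map_mul (algebraMap (𝓞 K) K), ← map_mul (algebraMap (𝓞 K) K),
      ← map_add (algebraMap (𝓞 K) K)]
  have e2 : algebraMap K F (((c * a + d * b : 𝓞 K)) : K) = 1 := by
    have e3 : (((1 : 𝓞 K)) : K) = 1 := map_one (algebraMap (𝓞 K) K)
    rw [hcd, e3, map_one]
  rw [e1, map_add, map_mul, map_mul] at e2
  have h1 : v (1 : F) < 1 := by
    rw [← e2]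
    refine Valuation.map_add_lt _ ?_ ?_
    · rw [map_mul]
      exact (mul_le_of_le_one_left' (v_alg_le v c)).trans_lt ha
    · rw [map_mul]
      exact (mul_le_of_le_one_left' (v_alg_le v d)).trans_lt hb
  rw [map_one] at h1
  exact lt_irrefl _ h1

section
variable [FP] {μ : 𝓞 K} {H : Subgroup (CU μ)} {ϖ : 𝓞 K} {ℓ q : ℕ} {F N L : Type} [Field F] [NumberField F] [Algebra K F]
  [Field N] [NumberField N] [Algebra K N] [Algebra F N] [IsScalarTower K F N] [IsGalois F N]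
  [DecidableEq N] [Field L] [NumberField L] [Algebra K L] [Algebra F L] [Algebra N L]
  [IsScalarTower K F L] [IsScalarTower K N L] [IsScalarTower F N L] [DecidableEq L]
  {P : Pt N} {J : Pt L} (hG : TopG H ϖ ℓ q F N L P J)
include hG

theorem TopG.nosG (W : HeightOneSpectrum (𝓞 L)) (hb : W.valuation L (bD L) = 1)
    (hμ : W.valuation L (algebraMap K L (μ : K)) = 1)
    (hϖ : W.valuation L (algebraMap K L (ϖ : K)) = 1) (σ : Gal(L/K))
    (hσ : ∀ x : 𝓞 L, σ • x - x ∈ W.asIdeal) : σ = 1 := by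
  have := hG.gal
  apply hG.gen σ
  · exact fix_tors (k := K) W hb hμ ((hG.ord μ).2 dvd_rfl) σ hσ
  · refine fix_tors (k := K) W hb hϖ ?_ σ hσ
    unfold up
    rw [← pm_sm, (hG.full.ord ϖ).2 dvd_rfl, map_zero]

theorem TopG.unramG (W : HeightOneSpectrum (𝓞 L)) (hb : W.valuation L (bD L) = 1)
    (hμ : W.valuation L (algebraMap K L (μ : K)) = 1)
    (hϖ : W.valuation L (algebraMap K L (ϖ : K)) = 1) :
    W.asIdeal.ramificationIdx (𝓞 K) = 1 := by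
  have := hG.gal
  exact unram_gen (k := K) W (fun σ hσ => hG.nosG W hb hμ hϖ σ hσ)

end

section
variable {μ : 𝓞 K} {H : Subgroup (CU μ)} {F L' : Type} [Field F] [NumberField F] [Algebra K F] [Field L']
  [NumberField L'] [Algebra K L'] [Algebra F L'] [IsScalarTower K F L'] [DecidableEq L']
  {J' : Pt L'} (hAB : AB H F L' J')
include hAB

theorem unramA (W : HeightOneSpectrum (𝓞 L')) (hb : W.valuation L' (bD L') = 1)
    (hμ : W.valuation L' (algebraMap K L' (μ : K)) = 1) :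
    W.asIdeal.ramificationIdx (𝓞 K) = 1 := by
  have := hAB.gal
  refine unram_gen (k := K) W (fun σ hσ => hAB.gen σ ?_)
  exact fix_tors (k := K) W hb hμ ((hAB.ord μ).2 dvd_rfl) σ hσ

theorem unrF {ℓ : ℕ} (hℓ : ℓ.Prime) (hD : ¬ (ℓ : ℤ) ∣ CD.bad)
    (hμ : IsCoprime (ℓ : 𝓞 K) μ) :
    MP_1a91b9_nuT.DS.UnrL ℓ F := by
  intro v hv
  obtain ⟨W, rfl⟩ := unr_over (L := L') v
  have hWl : W.valuation L' (ℓ : L') < 1 := by
    rw [← val_map_lt, map_natCast] at hv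
    exact hv
  have hcl : algebraMap K L' (((ℓ : 𝓞 K)) : K) = (ℓ : L') := by
    have e : (((ℓ : 𝓞 K)) : K) = (ℓ : K) := map_natCast (algebraMap (𝓞 K) K) ℓ
    rw [e, map_natCast]
  have hWl' : W.valuation L' (algebraMap K L' (((ℓ : 𝓞 K)) : K)) < 1 := by rw [hcl]; exact hWl
  have hWμ : W.valuation L' (algebraMap K L' (μ : K)) = 1 := unr_cop _ hμ hWl'
  have h3c : IsCoprime (ℓ : 𝓞 K) ((CD.bad : ℤ) : 𝓞 K) := by
    have hp : Prime (ℓ : ℤ) := Nat.prime_iff_prime_int.1 hℓ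
    have h4 : IsCoprime (ℓ : ℤ) (CD.bad) := (hp.irreducible.coprime_iff_not_dvd).2 hD
    have h6 := h4.map (Int.castRingHom (𝓞 K))
    simpa using h6
  have hW3 : W.valuation L' (bD L') = 1 := by
    have h4 := unr_cop (W.valuation L') h3c hWl'
    have e : ((((CD.bad : ℤ) : 𝓞 K)) : K) = ((CD.bad : ℤ) : K) :=
      map_intCast (algebraMap (𝓞 K) K) _
    rw [e, map_intCast] at h4
    exact h4
  have hram := unramA hAB W hW3 hWμ
  have h1 := od_map (k := K) W (ℓ : K)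
  rw [map_natCast, hram, Nat.cast_one, one_mul] at h1
  have hwl : (W.under (𝓞 K)).valuation K (ℓ : K) < 1 := by
    rw [← val_map_lt, map_natCast]
    exact hWl
  rw [unr_K hℓ hD _ hwl] at h1
  have h2 := od_map (k := F) W (ℓ : F)
  rw [map_natCast, h1] at h2
  have h0 : (0 : ℤ) ≤ (W.asIdeal.ramificationIdx (𝓞 F) : ℤ) := Int.natCast_nonneg _
  rcases Int.mul_eq_one_iff_eq_one_or_neg_one.1 h2.symm with h4 | h4
  · exact h4.2
  · omega

end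

end

end Pool.Agent.Lib.MP_1a91b9_nuX.DG

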