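import Pool.Agent.Lib.MP_1a91b9_nuX.DG.Defs

/-!
# The image of a point in an extension
-/

set_option autoImplicit false

namespace Pool.Agent.Lib.MP_1a91b9_nuX.DG

variable [Pool.Agent.Lib.MP_1a91b9_nuT.CD]

open NumberField IsDedekindDomain WeierstrassCurve Pool.Agent.Lib.MP_1a91b9_nuT
open Pool.Agent.Lib.MP_1a91b9_nuX.DB

noncomputable section

section
universe u

variable {N L : Type u} [Field N] [Algebra K N] [DecidableEq N] [Field L] [Algebra K L]
  [DecidableEq L] [Algebra N L] [IsScalarTower K N L]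

theorem up_ord {ϖ : 𝓞 K} {P : Pt N} (hP : Ord ϖ P) : Ord ϖ (up L P) := (Ord.map _).2 hP

theorem xc_up (P : Pt N) : xc (up L P) = algebraMap N L (xc P) :=
  xc_pm (IsScalarTower.toAlgHom K N L) P


theorem up_add (P Q : Pt N) : up L (P + Q) = up L P + up L Q := map_add _ _ _

theorem up_sm (a : 𝓞 K) (P : Pt N) : up L (sm N a P) = sm L a (up L P) := pm_sm _ a P

theorem up_inj {P Q : Pt N} (h : up L P = up L Q) : P = Q := pm_inj _ h

/-- the automorphisms over `N` fix the points of `N` -/
theorem yyb_fix (P : Pt N) (σ : Gal(L/N)) : ga σ (up L P) = up L P := by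
  rcases cases_pt P with rfl | ⟨x, y, hxy, rfl⟩
  · unfold up
    rw [map_zero, map_zero]
  · have h0 : up L (mkPt x y hxy) ≠ 0 := by
      intro e
      have e1 : pm (IsScalarTower.toAlgHom K N L) (mkPt x y hxy) =
          pm (IsScalarTower.toAlgHom K N L) 0 := by
        rw [map_zero]
        exact e
      exact mk_ne_zero x y hxy (pm_inj _ e1)
    have h1 : ga σ (up L (mkPt x y hxy)) ≠ 0 := by
      intro e
      have e1 : ga σ (up L (mkPt x y hxy)) = ga σ 0 := by
        rw [map_zero]
        exact e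
      exact h0 (pm_inj _ e1)
    refine pt_ext h1 h0 ?_ ?_
    · rw [xc_ga]
      have h2 : xc (up L (mkPt x y hxy)) = algebraMap N L x :=
        xc_pm (IsScalarTower.toAlgHom K N L) (mkPt x y hxy)
      rw [h2]
      exact σ.commutes x
    · rw [yc_ga]
      have h2 : yc (up L (mkPt x y hxy)) = algebraMap N L y :=
        yc_pm (IsScalarTower.toAlgHom K N L) (mkPt x y hxy)
      rw [h2]
      exact σ.commutes y

end

end

end Pool.Agent.Lib.MP_1a91b9_nuX.DG
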