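import Pool.Agent.Lib.MP_1a91b9_nuX.DG.NoH
import Pool.Agent.Lib.MP_1a91b9_nuX.DG.IsoU
import Pool.Agent.Lib.MP_1a91b9_nuX.DG.Comp
import Pool.Agent.Lib.MP_1a91b9_nuX.DG.Nd
import Pool.Agent.Lib.MP_1a91b9_nuX.DB.VT

/-!
# the vanishing theorem over `F`
-/

set_option autoImplicit false

namespace Pool.Agent.Lib.MP_1a91b9_nuX.DG

variable [Pool.Agent.Lib.MP_1a91b9_nuT.CD]

open NumberField IsDedekindDomain WeierstrassCurve Pool.Agent.Lib.MP_1a91b9_nuT
open Pool.Agent.Lib.MP_1a91b9_nuX.DB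

noncomputable section

variable [FP] [HC]

section
open Polynomial
universe u
variable {k N : Type u} [Field k] [NumberField k] [Algebra K k] [Field N] [NumberField N]
  [Algebra K N] [Algebra k N] [IsScalarTower K k N] [DecidableEq N] [IsGalois k N]
  {ϖ : 𝓞 K} {ℓ q : ℕ} (h : PD ϖ ℓ q) {P : Pt N} (hF : Full k ϖ P)
include h hF

omit [HC] in
private theorem Vt_cl {g : 𝓞 K} (hg : ∀ c : 𝓞 K, ¬ ϖ ∣ c → ∃ i : ℕ, ϖ ∣ c - g ^ i) (hg0 : ¬ ϖ ∣ g) {α : Nˣ}
    (hα : ∀ w : HeightOneSpectrum (𝓞 N), (ℓ : ℤ) ∣ od w (α : N)) (hiso : Iso k ℓ P α) :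
    (∃ ε y : Nˣ, (∀ w : HeightOneSpectrum (𝓞 N), od w (ε : N) = 0) ∧ α = ε * y ^ ℓ) ∨
    ∃ f : HeightOneSpectrum (𝓞 N) → ZMod ℓ, (∃ v, f v ≠ 0) ∧ PrincZero f ∧ IsoPl k ℓ P f := by
  classical
  have hl0 : (ℓ : ℤ) ≠ 0 := by exact_mod_cast h.hl.ne_zero
  obtain ⟨τ, hτ⟩ := hF.all g hg0
  have hτi : ∀ i : ℕ, ga (τ ^ i) P = sm N (g ^ i) P := by
    intro i
    induction i with
    | zero => rw [pow_zero, pow_zero, ga_one, map_one]; rfl
    | succ i ih =>
      have e : sm N (g * g ^ i) P = sm N g (sm N (g ^ i) P) := by rw [map_mul]; rfl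
      rw [pow_succ, pow_succ', ga_mul, hτ, ga_sm, ih, e]
  have hσ : ∀ (σ : Gal(N/k)) (c : 𝓞 K), ga σ P = sm N c P →
      ∃ i : ℕ, ϖ ∣ c - g ^ i ∧ σ = τ ^ i := by
    intro σ c hc
    obtain ⟨i, hi⟩ := hg c (hF.c_ne h hc)
    refine ⟨i, hi, ?_⟩
    have h1 : ga σ P = ga (τ ^ i) P := by
      rw [hc, hτi, hF.ord.sm_eq_iff]
      exact hi
    have h2 : (τ ^ i)⁻¹ * σ = 1 := by
      apply hF.gen
      rw [ga_mul, h1, ← ga_mul, inv_mul_cancel, ga_one]
    exact (inv_mul_eq_one.mp h2).symm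
  obtain ⟨A, hA⟩ := hiso
  -- the divisor `I`
  obtain ⟨I, hI⟩ : ∃ I : MP_1a91b9_nuT.DB.DD N, (ℓ : ℤ) • I = dv N (Additive.ofMul α) := by
    refine ⟨Finsupp.mapRange (fun n : ℤ => n / (ℓ : ℤ)) (Int.zero_ediv _)
      (dv N (Additive.ofMul α)), ?_⟩
    ext w
    rw [Finsupp.smul_apply, Finsupp.mapRange_apply, smul_eq_mul]
    exact Int.mul_ediv_cancel' (hα w)
  by_cases hx0 : (QuotientAddGroup.mk I : CC N) = 0
  · left
    rw [QuotientAddGroup.eq_zero_iff] at hx0
    obtain ⟨y, hy⟩ := hx0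
    refine ⟨α * ((Additive.toMul y) ^ ℓ)⁻¹, Additive.toMul y, ?_, by rw [inv_mul_cancel_right]⟩
    intro w
    have h1 : od w ((α : Nˣ) : N) = (ℓ : ℤ) * od w ((Additive.toMul y : Nˣ) : N) := by
      have h2 := DFunLike.congr_fun hI w
      rw [← hy, Finsupp.smul_apply, dv_apply, dv_apply, smul_eq_mul] at h2
      exact h2.symm
    rw [Units.val_mul, od_mul w (Units.ne_zero _) (Units.ne_zero _), Units.val_inv_eq_inv_val,
      od_inv, Units.val_pow_eq_pow_val, od_pow, h1]
    ring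
  right
  -- the three endomorphisms
  set TU : Module.End ℤ (Additive Nˣ) :=
    (MonoidHom.toAdditive (Units.map (τ : N →* N))).toIntLinearMap with hTU
  set TD : Module.End ℤ (MP_1a91b9_nuT.DB.DD N) := (tauD τ).toIntLinearMap with hTD
  set TC : Module.End ℤ (CC N) := (tauC τ).toIntLinearMap with hTC
  have hTU1 : ∀ y : Additive Nˣ, TU y = Additive.ofMul (sg τ (Additive.toMul y)) := fun y => rfl
  -- compatibility of polynomials
  have comp : ∀ {M M' : Type u} [AddCommGroup M] [AddCommGroup M'] (F : M →+ M')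
      (S : Module.End ℤ M) (T : Module.End ℤ M'), (∀ y, F (S y) = T (F y)) →
      ∀ (f : ℤ[X]) (y : M), F (aeval S f y) = aeval T f (F y) := by
    intro M M' _ _ F S T hST f y
    have hpow : ∀ (i : ℕ) (y : M), F ((S ^ i) y) = (T ^ i) (F y) := by
      intro i
      induction i with
      | zero => intro y; simp
      | succ i ih => intro y; rw [pow_succ, pow_succ, Module.End.mul_apply, ih, hST]; rfl
    induction f using Polynomial.induction_on' with
    | add p q hp hq => rw [map_add, map_add, LinearMap.add_apply, LinearMap.add_apply, map_add, hp, hq]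
    | monomial n a =>
      rw [aeval_monomial, aeval_monomial, Module.End.mul_apply, Module.End.mul_apply,
        Module.algebraMap_end_apply, Module.algebraMap_end_apply, map_zsmul, hpow]
  have hdv : ∀ (f : ℤ[X]) (y : Additive Nˣ), dv N (aeval TU f y) = aeval TD f (dv N y) :=
    comp (dv N) TU TD (fun y => (tauD_dv τ (Additive.toMul y)).symm)
  have hmk : ∀ (f : ℤ[X]) (y : MP_1a91b9_nuT.DB.DD N), (QuotientAddGroup.mk (aeval TD f y) : CC N) =
      aeval TC f (QuotientAddGroup.mk y : CC N) :=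
    comp (QuotientAddGroup.mk' _) TD TC (fun y => rfl)
  -- the class in `El` of a polynomial of `α`
  have hel : ∀ f : ℤ[X], (QuotientAddGroup.mk (aeval TU f (Additive.ofMul α)) : El ℓ N) =
      A (aeval g f) := by
    intro f
    have hpow : ∀ i : ℕ, (TU ^ i) (Additive.ofMul α) = Additive.ofMul (sg (τ ^ i) α) := by
      intro i
      induction i with
      | zero => rw [pow_zero, pow_zero]; rfl
      | succ i ih =>
        rw [pow_succ', Module.End.mul_apply, ih, hTU1, pow_succ', sg_sg]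
        rfl
    induction f using Polynomial.induction_on' with
    | add p q hp hq =>
      rw [map_add, map_add, LinearMap.add_apply, map_add, QuotientAddGroup.mk_add, hp, hq]
    | monomial n a =>
      rw [aeval_monomial, aeval_monomial, Module.End.mul_apply, Module.algebraMap_end_apply,
        hpow, QuotientAddGroup.mk_zsmul, algebraMap_int_eq, eq_intCast, ← zsmul_eq_mul, map_zsmul,
        ← hA (τ ^ n) (g ^ n) (hτi n)]
      rfl
  have hx : ∀ f : ℤ[X], ϖ ∣ aeval g f → aeval TC f (QuotientAddGroup.mk I : CC N) = 0 := by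
    intro f hf
    have h1 := hel f
    rw [Iso.map_dvd h hF hA hf, QuotientAddGroup.eq_zero_iff] at h1
    obtain ⟨z, hz⟩ := h1
    have h2 : (ℓ : ℤ) • dv N z = (ℓ : ℤ) • aeval TD f I := by
      rw [← map_zsmul, ← map_zsmul, hI, ← hdv, ← hz]
      exact congrArg (dv N) (natCast_zsmul z ℓ)
    have h3 : dv N z = aeval TD f I := by
      ext w
      have h4 := DFunLike.congr_fun h2 w
      rw [Finsupp.smul_apply, Finsupp.smul_apply, smul_eq_mul, smul_eq_mul] at h4
      exact mul_left_cancel₀ hl0 h4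
    rw [← hmk, ← h3, QuotientAddGroup.eq_zero_iff]
    exact ⟨z, rfl⟩
  have hfin : Finite (CC N) := finite_cc N
  obtain ⟨φ, hφ0, hφ⟩ := exists_fun h TC hx0 hx
  set f : HeightOneSpectrum (𝓞 N) → ZMod ℓ :=
    fun v => φ (QuotientAddGroup.mk (Finsupp.single v 1) : CC N) with hf
  have hfD : ∀ D : MP_1a91b9_nuT.DB.DD N, φ (QuotientAddGroup.mk D : CC N) = ∑ v ∈ D.support, D v • f v := by
    intro D
    conv_lhs => rw [← D.sum_single]
    rw [Finsupp.sum]
    have h1 : (QuotientAddGroup.mk (∑ v ∈ D.support, Finsupp.single v (D v)) : CC N) =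
        ∑ v ∈ D.support, (QuotientAddGroup.mk (Finsupp.single v (D v)) : CC N) :=
      map_sum (QuotientAddGroup.mk' _) _ _
    rw [h1, map_sum]
    refine Finset.sum_congr rfl fun v _ => ?_
    have h2 : Finsupp.single v (D v) = D v • Finsupp.single v (1 : ℤ) := by
      rw [Finsupp.smul_single, smul_eq_mul, mul_one]
    rw [h2, QuotientAddGroup.mk_zsmul, map_zsmul]
  refine ⟨f, ?_, ?_, ?_⟩
  · by_contra hcon
    push Not at hcon
    apply hφ0
    refine AddMonoidHom.ext fun x => ?_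
    obtain ⟨D, rfl⟩ := QuotientAddGroup.mk_surjective x
    rw [hfD, AddMonoidHom.zero_apply]
    exact Finset.sum_eq_zero fun v _ => by rw [hcon v, smul_zero]
  · intro x hx
    have h1 := hfD (dv N (Additive.ofMul (Units.mk0 x hx)))
    have h2 : (QuotientAddGroup.mk (dv N (Additive.ofMul (Units.mk0 x hx))) : CC N) = 0 := by
      rw [QuotientAddGroup.eq_zero_iff]
      exact ⟨_, rfl⟩
    rw [h2, map_zero] at h1
    rw [finsum_eq_sum_of_support_subset (s := (dv N (Additive.ofMul (Units.mk0 x hx))).support)]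
    · exact h1.symm
    · intro v hv
      rw [Finset.mem_coe, Finsupp.mem_support_iff]
      intro h3
      apply hv
      have h4 : od v x = 0 := h3
      change od v x • f v = 0
      rw [h4, zero_smul]
  · intro w
    -- a polynomial for each class
    have hFc : ∀ c : 𝓞 K, ∃ F : ℤ[X], ϖ ∣ aeval g F - c := by
      intro c
      by_cases hc : ϖ ∣ c
      · exact ⟨0, by rw [map_zero, zero_sub]; exact (dvd_neg).mpr hc⟩
      · obtain ⟨i, hi⟩ := hg c hc
        refine ⟨X ^ i, ?_⟩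
        rw [map_pow, aeval_X, ← neg_sub]
        exact (dvd_neg).mpr hi
    choose F hFF using hFc
    have huniq : ∀ (p q : ℤ[X]), ϖ ∣ aeval g p - aeval g q →
        φ (aeval TC p (QuotientAddGroup.mk (Finsupp.single w 1) : CC N)) =
        φ (aeval TC q (QuotientAddGroup.mk (Finsupp.single w 1) : CC N)) := by
      intro p q hpq
      rw [← map_sub] at hpq
      have h1 := hφ (p - q) (QuotientAddGroup.mk (Finsupp.single w 1) : CC N) hpq
      rw [map_sub, LinearMap.sub_apply, map_sub, sub_eq_zero] at h1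
      exact h1
    refine ⟨AddMonoidHom.mk' (fun c => φ (aeval TC (F c)
      (QuotientAddGroup.mk (Finsupp.single w 1) : CC N))) ?_, ?_⟩
    · intro a b
      change φ (aeval TC (F (a + b)) _) = φ (aeval TC (F a) _) + φ (aeval TC (F b) _)
      rw [← map_add φ, ← LinearMap.add_apply, ← map_add (aeval TC)]
      apply huniq
      rw [map_add]
      have e : aeval g (F (a + b)) - (aeval g (F a) + aeval g (F b)) =
          (aeval g (F (a + b)) - (a + b)) - (aeval g (F a) - a) - (aeval g (F b) - b) := by ring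
      rw [e]
      exact dvd_sub (dvd_sub (hFF _) (hFF _)) (hFF _)
    · intro σ c hc
      obtain ⟨i, hi, rfl⟩ := hσ σ c hc
      change f (gpl (τ ^ i) w) = φ (aeval TC (F c) _)
      rw [huniq (F c) (X ^ i)]
      · rw [map_pow, aeval_X]
        have h1 : ∀ j : ℕ, (TC ^ j) (QuotientAddGroup.mk (Finsupp.single w 1) : CC N) =
            (QuotientAddGroup.mk (Finsupp.single (gpl (τ ^ j) w) 1) : CC N) := by
          intro j
          induction j with
          | zero => rw [pow_zero, pow_zero, gpl_one]; rfl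
          | succ j ih =>
            rw [pow_succ', Module.End.mul_apply, ih, pow_succ', gpl_mul]
            exact tauC_single τ _
        rw [h1]
      · rw [map_pow, aeval_X]
        have e : aeval g (F c) - g ^ i = (aeval g (F c) - c) + (c - g ^ i) := by ring
        rw [e]
        exact dvd_add (hFF _) hi

end

section
variable {μ : 𝓞 K} {H : Subgroup (CU μ)} {ϖ : 𝓞 K} {ℓ q : ℕ} {F N L : Type} [Field F] [NumberField F] [Algebra K F]
  [Field N] [NumberField N] [Algebra K N] [Algebra F N] [IsScalarTower K F N] [IsGalois F N]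
  [DecidableEq N] [Field L] [NumberField L] [Algebra K L] [Algebra F L] [Algebra N L]
  [IsScalarTower K F L] [IsScalarTower K N L] [IsScalarTower F N L] [DecidableEq L]
  {P : Pt N} {J : Pt L} (hG : TopG H ϖ ℓ q F N L P J)
include hG

theorem TopG.vt_core (hU : MP_1a91b9_nuT.DS.UnrL ℓ F) (hnd : ND N H ϖ J)
    (hDT : ∀ v : HeightOneSpectrum (𝓞 N), v.valuation N (bD N) < 1 →
      ∃ σ : Gal(N/F), σ ≠ 1 ∧ gpl σ v = v) {y : Nˣ} (hy : VV F ϖ ℓ P y) :
    ∃ z : Nˣ, y = z ^ ℓ := by
  have hfin : Finite (U H) :=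
    Nat.finite_of_card_ne_zero fun h0 => hG.cu (by rw [h0]; exact dvd_zero _)
  let _ : Fintype (U H) := Fintype.ofFinite _
  have h := hG.pd
  have hF := hG.full
  have hP1 : Ord ϖ (up L P) := (Ord.map _).2 hF.ord
  obtain ⟨T, iv, n, hT⟩ := exists_trD h
  obtain ⟨g, hg, hg0, -⟩ := exists_primgen h
  rcases Vt_cl h hF hg hg0 hy.od hy.iso with ⟨ε, s, hε, hys⟩ | ⟨f, ⟨v, hv⟩, hf, hiso⟩
  · have hisoε : Iso F ℓ P ε := by
      have e1 : ε = y * (s ^ ℓ)⁻¹ := by rw [hys, mul_inv_cancel_right]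
      rw [e1]
      exact Iso.mul h hF hy.iso (Iso.inv h hF (Iso.pow_ell h hF s))
    obtain ⟨c, x, z, hBI, hx, hcz⟩ := hG.iso_unitG hT hU hnd hε hisoε
    have hy1 : (y : N) = (x : N) * ((z : N) * s) ^ ℓ := by
      rw [hys, hcz]
      push_cast
      ring
    have hc : ∀ u, ϖ ∣ c u := by
      refine hnd c hBI fun W hW => ?_
      rw [finsum_eq_sum_of_fintype]
      have hwϖ : (W.under (𝓞 N)).valuation N (algebraMap K N (ϖ : K)) < 1 := by
        rw [← val_map_lt W, ← IsScalarTower.algebraMap_apply K N L]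
        exact hW
      obtain ⟨b, e, hb1, hb2⟩ := hy.loc _ hwϖ
      have hb1' : W.valuation L (algebraMap N L ((y : N) * b ^ ℓ)) = 1 := (val_map_eq W _).2 hb1
      have hb2' : W.valuation L (algebraMap N L ((y : N) * b ^ ℓ - e ^ ℓ)) ≤
          WithZero.exp (-2 : ℤ) := by
        by_cases h0 : (y : N) * b ^ ℓ - e ^ ℓ = 0
        · rw [h0, map_zero, map_zero]
          exact zero_le'
        · have h1 : 2 ≤ od (W.under (𝓞 N)) ((y : N) * b ^ ℓ - e ^ ℓ) := by
            rw [val_eq _ h0, WithZero.exp_le_exp] at hb2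
            linarith
          have hne : algebraMap N L ((y : N) * b ^ ℓ - e ^ ℓ) ≠ 0 :=
            (map_ne_zero (algebraMap N L)).2 h0
          rw [val_eq W hne, od_map, WithZero.exp_le_exp]
          have h2 : 0 < W.asIdeal.ramificationIdx (𝓞 N) := ramIdx_pos W
          have h3 : (1 : ℤ) ≤ (W.asIdeal.ramificationIdx (𝓞 N) : ℤ) := by exact_mod_cast h2
          nlinarith
      have hxc : W.valuation L (XX T iv n (up L P) J c) = 1 :=
        XX_val h hT hP1 hG.copw hG.nlam hG.ord (W.valuation L) c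
      set r : L := algebraMap N L ((z : N) * s * b) with hr
      have hyr : algebraMap N L ((y : N) * b ^ ℓ) = XX T iv n (up L P) J c * r ^ ℓ := by
        rw [hy1, hr, ← hx, ← map_pow, ← map_mul]
        congr 1
        ring
      have hwr : W.valuation L (r ^ ℓ) = 1 := by
        rw [hyr, map_mul, hxc, one_mul] at hb1'
        exact hb1'
      have hr0 : r ^ ℓ ≠ 0 := by
        intro h0
        rw [h0, map_zero] at hwr
        exact zero_ne_one hwr
      have hz : W.valuation L (XX T iv n (up L P) J c - (algebraMap N L e / r) ^ ℓ) ≤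
          WithZero.exp (-2 : ℤ) := by
        have e1 : XX T iv n (up L P) J c - (algebraMap N L e / r) ^ ℓ =
            algebraMap N L ((y : N) * b ^ ℓ - e ^ ℓ) / r ^ ℓ := by
          rw [map_sub, hyr, div_pow, map_pow]
          field_simp
        rw [e1, map_div₀, hwr, div_one]
        exact hb2'
      exact XX_pow h hT hP1 hG.copw hG.nlam hG.ord W hW (hG.odP W hW) hz
    have hx1 : (x : N) = 1 := by
      apply (algebraMap N L).injective
      rw [hx, map_one]
      exact XX_zero h hT hP1 hG.copw hG.nlam hG.ord hc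
    refine ⟨z * s, ?_⟩
    apply Units.ext
    rw [hy1, hx1, one_mul]
    push_cast
    rfl
  · have hf3 : ∀ w : HeightOneSpectrum (𝓞 N), w.valuation N (bD N) < 1 → f w = 0 := by
      intro w hw
      obtain ⟨σ, hσ1, hσ⟩ := hDT w hw
      exact IsoPl.fix h hF hiso hσ hσ1
    exact absurd (hG.no_hG hnd hf hiso hf3 v) hv

end

theorem vtG {μ : 𝓞 K} {H : Subgroup (CU μ)} {ϖ : 𝓞 K} {ℓ q : ℕ} {F L' : Type} [Field F] [NumberField F] [Algebra K F]
    [Field L'] [NumberField L'] [Algebra K L'] [Algebra F L'] [IsScalarTower K F L']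
    [DecidableEq L'] {J' : Pt L'} (hAB : AB H F L' J') (hk : ¬ μ ∣ pk) (h : PD ϖ ℓ q) (hμϖ : CW ℓ μ)
    (hcu : ¬ ℓ ∣ Nat.card (U H)) (hU : MP_1a91b9_nuT.DS.UnrL ℓ F) (hDT : DT ϖ F)
    (hd : ∀ v : HeightOneSpectrum (𝓞 F), v.valuation F (algebraMap K F (ϖ : K)) < 1 →
      v.valuation F (dL F L' J') = 1) : VT ϖ ℓ F := by
  intro N _ _ _ _ _ _ _ P hF y hy
  obtain ⟨L, iF, iN, iK, iFL, iNL, iLL, t1, t2, t3, t4, t5, iD, hG⟩ :=
    exists_top hAB hk h hμϖ hcu N hF
  exact hG.vt_core hU (nd_of_dL hAB hG hd) (hDT N P hF) hy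

end

end Pool.Agent.Lib.MP_1a91b9_nuX.DG

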