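import Pool.Agent.Lib.MP_1a91b9_nuX.DG.TF
import Pool.Agent.Lib.MP_1a91b9_nuX.DG.Hps
import Pool.Agent.Lib.MP_1a91b9_nuX.DG.Up

/-!
# The modulus of a base field contained in a field generated by a torsion point
-/

set_option autoImplicit false

namespace Pool.Agent.Lib.MP_1a91b9_nuX.DG

variable [Pool.Agent.Lib.MP_1a91b9_nuT.CD]

open NumberField IsDedekindDomain WeierstrassCurve Pool.Agent.Lib.MP_1a91b9_nuT
open Pool.Agent.Lib.MP_1a91b9_nuX.DB

noncomputable section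

section
variable {L : Type} [Field L] [NumberField L] [Algebra K L] [DecidableEq L]

omit [NumberField L] in
/-- the annihilator of a torsion point -/
private theorem ab_ann {T : Pt L} {n : ℕ} (hn : n ≠ 0) (h : n • T = 0) :
    ∃ ν : 𝓞 K, ν ≠ 0 ∧ Ord ν T := by
  let I : Ideal (𝓞 K) :=
    { carrier := {a | sm L a T = 0}
      add_mem' := fun {a b} ha hb => by
        change sm L (a + b) T = 0
        have ha' : sm L a T = 0 := ha
        have hb' : sm L b T = 0 := hb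
        rw [map_add]
        change sm L a T + sm L b T = 0
        rw [ha', hb', add_zero]
      zero_mem' := by
        change sm L 0 T = 0
        rw [map_zero]
        rfl
      smul_mem' := fun c a ha => by
        change sm L (c * a) T = 0
        have ha' : sm L a T = 0 := ha
        rw [← sm_sm, ha', map_zero] }
  have hI : ∀ a, a ∈ I ↔ sm L a T = 0 := fun a => Iff.rfl
  obtain ⟨ν, hν⟩ := (IsPrincipalIdealRing.principal I).principal
  have hν' : ∀ a, a ∈ I ↔ ν ∣ a := by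
    intro a
    rw [hν, Ideal.submodule_span_eq, Ideal.mem_span_singleton]
  refine ⟨ν, ?_, fun c => by rw [← hI, hν']⟩
  rintro rfl
  have h1 : ((n : ℕ) : 𝓞 K) ∈ I := by
    rw [hI, sm_nat, h]
  rw [hν', zero_dvd_iff] at h1
  exact hn (by exact_mod_cast h1)

/-- the residue classes by which the Galois group acts -/
theorem exists_sub (F : Type) [Field F] [NumberField F] [Algebra K F] [Algebra F L]
    [IsScalarTower K F L] [IsGalois K L] {μ : 𝓞 K} (hμ : μ ≠ 0) {J : Pt L} (hJ : Ord μ J)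
    (hgen : ∀ σ : Gal(L/K), ga σ J = J → σ = 1) : ∃ H : Subgroup (CU μ), AB H F L J := by
  have hone : ∀ Q : Pt L, Ord μ Q → sm L (MP_1a91b9_nuT.DG.rp (1 : CU μ)) Q = Q := by
    intro Q hQ
    have h1 := (hQ.sm_eq_iff _ _).2 (MP_1a91b9_nuT.DG.rp_one (μ := μ))
    rw [h1, map_one]
    rfl
  have hmul : ∀ (Q : Pt L) (u v : CU μ), Ord μ Q →
      sm L (MP_1a91b9_nuT.DG.rp (u * v)) Q =
        sm L (MP_1a91b9_nuT.DG.rp u) (sm L (MP_1a91b9_nuT.DG.rp v) Q) := by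
    intro Q u v hQ
    rw [sm_sm]
    exact (hQ.sm_eq_iff _ _).2 (MP_1a91b9_nuT.DG.rp_mul u v)
  let H : Subgroup (CU μ) :=
    { carrier := {u | ∃ σ : Gal(L/K), ga σ J = sm L (MP_1a91b9_nuT.DG.rp u) J}
      mul_mem' := fun {u v} hu hv => by
        obtain ⟨σ, hσ⟩ := hu
        obtain ⟨τ, hτ⟩ := hv
        refine ⟨τ * σ, ?_⟩
        rw [ga_mul, hσ, ga_sm, hτ, hmul J u v hJ]
      one_mem' := ⟨1, by rw [ga_one, hone J hJ]⟩
      inv_mem' := fun {u} hu => by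
        obtain ⟨σ, hσ⟩ := hu
        refine ⟨σ⁻¹, ?_⟩
        have h1 : ga σ⁻¹ (ga σ J) = J := by rw [← ga_mul, inv_mul_cancel, ga_one]
        rw [hσ, ga_sm] at h1
        have h2 : Ord μ (ga σ⁻¹ J) := hJ.ga σ⁻¹
        have h5 := hmul (ga σ⁻¹ J) u⁻¹ u h2
        rw [h1, inv_mul_cancel, hone _ h2] at h5
        exact h5 }
  refine ⟨H, inferInstance, hμ, hJ, hgen, fun σ => ?_, fun u => u.2⟩
  obtain ⟨c, hc, hcJ⟩ := gal_sm (k := K) hμ hJ σ
  obtain ⟨u, hu⟩ := MP_1a91b9_nuT.DG.rp_ex hc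
  have h1 : ga σ J = sm L (MP_1a91b9_nuT.DG.rp u) J := by
    rw [hcJ]
    exact (hJ.sm_eq_iff _ _).2 hu
  exact ⟨⟨u, σ, h1⟩, h1⟩

end

theorem exists_ab [HC] (F₀ : Type) [Field F₀] [NumberField F₀] [Algebra K F₀]
    {L : Type} [Field L] [NumberField L] [Algebra K L] [Algebra F₀ L]
    [IsScalarTower K F₀ L] [DecidableEq L] {T₀ : Pt L} {n : ℕ} (hn : n ≠ 0) (hT : n • T₀ = 0)
    (hgen : IntermediateField.adjoin K {xc T₀, yc T₀} = ⊤) :
    ∃ (μ : 𝓞 K) (_ : Md μ) (H : Subgroup (CU μ)) (L' : Type) (_ : Field L')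
      (_ : NumberField L') (_ : Algebra K L') (_ : Algebra F₀ L') (_ : IsScalarTower K F₀ L')
      (_ : DecidableEq L') (J : Pt L'), AB H F₀ L' J := by
  obtain ⟨m, hm0, hm⟩ := ab_ann hn hT
  obtain ⟨μ, hM, hmk⟩ := exists_md hm0
  obtain ⟨L1, i1, i2, i3, i4, R, hG, hR, -, hg⟩ := exists_tf hM.ne
  obtain ⟨f⟩ := emb_tf hM.ne hmk ((hm m).2 dvd_rfl) hgen hR
  let f0 : F₀ →+* L1 := (f : L →+* L1).comp (algebraMap F₀ L)
  letI a1 : Algebra F₀ L1 := f0.toAlgebra
  have t1 : IsScalarTower K F₀ L1 := IsScalarTower.of_algebraMap_eq fun x => by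
    change algebraMap K L1 x = f (algebraMap F₀ L (algebraMap K F₀ x))
    rw [← IsScalarTower.algebraMap_apply K F₀ L, f.commutes]
  obtain ⟨H, hH⟩ := exists_sub F₀ hM.ne hR hg
  exact ⟨μ, hM, H, L1, i1, i2, i3, a1, t1, i4, R, hH⟩

end

end Pool.Agent.Lib.MP_1a91b9_nuX.DG
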