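import Pool.Agent.Lib.MP_1a91b9_nuX.DG.Dual

/-!
# the element `r` of the group algebra

Port of MP_1a91b9_nuT/DG/Alg.lean to the curves `y² = x³ + D`.
-/

set_option autoImplicit false

namespace Pool.Agent.Lib.MP_1a91b9_nuX.DG

variable [Pool.Agent.Lib.MP_1a91b9_nuT.CD]

open NumberField IsDedekindDomain WeierstrassCurve Pool.Agent.Lib.MP_1a91b9_nuT
open Pool.Agent.Lib.MP_1a91b9_nuX.DB

private theorem alg_min {A : Type*} [CommRing A] [IsReduced A] [IsArtinianRing A] {η : A} (hη : η ≠ 0) :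
    ∃ x : A, η * x * η ≠ 0 ∧ ∀ y z : A, y * z * x = 0 → y * x = 0 ∨ z * x = 0 := by
  classical
  let S : Set (Ideal A) := {I | ∃ x : A, (∃ b, x = b * η) ∧ x ≠ 0 ∧ I = Ideal.span {x}}
  have hS : S.Nonempty := ⟨Ideal.span {η}, η, ⟨1, (one_mul η).symm⟩, hη, rfl⟩
  have hwf : WellFounded ((· < ·) : Ideal A → Ideal A → Prop) := IsWellFounded.wf
  obtain ⟨I, ⟨x, ⟨b, hb⟩, hx0, hI⟩, hmin⟩ := hwf.has_min S hS
  have hgen : ∀ y : A, y * x ≠ 0 → ∃ c, x = c * (y * x) := by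
    intro y hy
    have h1 : Ideal.span {y * x} ∈ S := ⟨y * x, ⟨y * b, by rw [hb]; ring⟩, hy, rfl⟩
    have h2 := hmin _ h1
    have h3 : Ideal.span {y * x} ≤ I := by
      rw [hI, Ideal.span_singleton_le_span_singleton]
      exact dvd_mul_left x y
    have h4 : Ideal.span {y * x} = I := by
      by_contra hne
      exact h2 (lt_of_le_of_ne h3 hne)
    have h5 : x ∈ Ideal.span {y * x} := by
      rw [h4, hI]
      exact Ideal.mem_span_singleton_self x
    obtain ⟨c, hc⟩ := Ideal.mem_span_singleton.1 h5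
    exact ⟨c, hc.trans (mul_comm _ _)⟩
  have hprime : ∀ y z : A, y * z * x = 0 → y * x = 0 ∨ z * x = 0 := by
    intro y z hyz
    by_cases hz : z * x = 0
    · exact Or.inr hz
    · obtain ⟨c, hc⟩ := hgen z hz
      left
      calc y * x = y * (c * (z * x)) := by rw [← hc]
        _ = c * (y * z * x) := by ring
        _ = 0 := by rw [hyz, mul_zero]
  have hxx : x * x ≠ 0 := by
    intro h
    exact hx0 (IsReduced.eq_zero x ⟨2, by rw [pow_two]; exact h⟩)
  have hηx : η * x ≠ 0 := by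
    intro h
    apply hxx
    calc x * x = b * (η * x) := by
          conv_lhs => rw [hb]
          rw [hb]; ring
      _ = 0 := by rw [h, mul_zero]
  refine ⟨x, ?_, hprime⟩
  intro h
  rcases hprime η η (by rw [← h]; ring) with h1 | h1 <;> exact hηx h1

/-- the element of the group algebra with given coefficients -/
private noncomputable def algE {k G : Type*} [Field k] [Fintype G] (f : G → k) : MonoidAlgebra k G :=
  MonoidAlgebra.ofCoeff (Finsupp.equivFunOnFinite.symm f)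


private theorem algE_ext {k G : Type*} [Field k] [Fintype G] {x y : MonoidAlgebra k G}
    (h : ∀ g, x.coeff g = y.coeff g) : x = y :=
  MonoidAlgebra.coeff_injective (Finsupp.ext h)

private theorem algE_mul {k G : Type*} [Field k] [Fintype G] [CommGroup G] (x y : MonoidAlgebra k G)
    (w : G) : (x * y).coeff w = ∑ g : G, x.coeff (g⁻¹ * w) * y.coeff g := by
  rw [MonoidAlgebra.coeff_mul_apply_right, Finsupp.sum_fintype]
  · refine Finset.sum_congr rfl fun g _ => ?_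
    rw [mul_comm w]
  · intro g
    rw [mul_zero]

theorem exists_r {ϖ : 𝓞 K} {ℓ q : ℕ} (h : PD ϖ ℓ q) {T : Finset (𝓞 K)} {iv : 𝓞 K → 𝓞 K}
    {n : 𝓞 K → ℤ} (hT : TrD ϖ ℓ T iv n) {μ : 𝓞 K} {H : Subgroup (CU μ)} [Fintype (U H)] (hcu : ¬ ℓ ∣ Nat.card (U H))
    {η1 : U H → 𝓞 K} (hη : ∃ u, ¬ ϖ ∣ η1 u) :
    ∃ t r : U H → 𝓞 K, (∀ w, ϖ ∣ r w - conv t η1 w) ∧
      ((n (conv η1 r 1) : ℤ) : ZMod ℓ) ≠ 0 ∧
      ∀ α η : U H → 𝓞 K, (∀ w, ϖ ∣ conv α η w) →
        (∀ w, ϖ ∣ conv α r w) ∨ (∀ w, ϖ ∣ conv η r w) := by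
  have hp : (Ideal.span {ϖ}).IsPrime := (Ideal.span_singleton_prime h.prime.ne_zero).2 h.prime
  have hm : (Ideal.span {ϖ}).IsMaximal := hp.isMaximal (by
    rw [Ne, Ideal.span_singleton_eq_bot]
    exact h.prime.ne_zero)
  let _ : Field (𝓞 K ⧸ Ideal.span {ϖ}) := Ideal.Quotient.field _
  have hz : ∀ x : 𝓞 K, Ideal.Quotient.mk (Ideal.span {ϖ}) x = 0 ↔ ϖ ∣ x := by
    intro x
    rw [Ideal.Quotient.eq_zero_iff_mem, Ideal.mem_span_singleton]
  have hne : ((Nat.card (U H) : ℕ) : 𝓞 K ⧸ Ideal.span {ϖ}) ≠ 0 := by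
    intro h0
    apply hcu
    have h1 : Ideal.Quotient.mk (Ideal.span {ϖ}) ((Nat.card (U H) : ℕ) : 𝓞 K) = 0 := by
      rw [map_natCast]; exact h0
    rw [hz] at h1
    have h2 := (h.dvd_int_iff ((Nat.card (U H) : ℕ) : ℤ)).1 (by rw [Int.cast_natCast]; exact h1)
    exact Int.natCast_dvd_natCast.1 h2
  have : NeZero ((Nat.card (U H) : ℕ) : 𝓞 K ⧸ Ideal.span {ϖ}) := ⟨hne⟩
  have hss : IsSemisimpleRing (MonoidAlgebra (𝓞 K ⧸ Ideal.span {ϖ}) (U H)) := inferInstance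
  set E : (U H → 𝓞 K) → MonoidAlgebra (𝓞 K ⧸ Ideal.span {ϖ}) (U H) :=
    fun f => algE (fun g => Ideal.Quotient.mk (Ideal.span {ϖ}) (f g)) with hE
  have hEc : ∀ f g, (E f).coeff g = Ideal.Quotient.mk (Ideal.span {ϖ}) (f g) := fun f g => rfl
  have hEmul : ∀ f1 f2, E (conv f1 f2) = E f1 * E f2 := by
    intro f1 f2
    apply algE_ext
    intro w
    rw [algE_mul, hEc]
    unfold conv
    rw [map_sum]
    refine Finset.sum_congr rfl fun g _ => ?_
    rw [map_mul]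
    rfl
  have hE0 : ∀ f, E f = 0 ↔ ∀ w, ϖ ∣ f w := by
    intro f
    constructor
    · intro h0 w
      rw [← hz, ← hEc, h0]
      rfl
    · intro h0
      apply algE_ext
      intro w
      rw [hEc, (hz _).2 (h0 w)]
      rfl
  have hη0 : E η1 ≠ 0 := by
    intro h0
    obtain ⟨u, hu⟩ := hη
    exact hu ((hE0 η1).1 h0 u)
  obtain ⟨x, hx1, hx2⟩ := alg_min hη0
  -- lift of x
  have hlift : ∀ g : U H, ∃ a : 𝓞 K, Ideal.Quotient.mk (Ideal.span {ϖ}) a = x.coeff g :=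
    fun g => Ideal.Quotient.mk_surjective _
  choose f0 hf0 using hlift
  have hEx : E f0 = x := by
    apply algE_ext
    intro g
    rw [hEc, hf0]
  obtain ⟨u0, hu0⟩ : ∃ u0, (E η1 * x * E η1).coeff u0 ≠ 0 := by
    by_contra hcon
    push Not at hcon
    apply hx1
    apply algE_ext
    intro g
    rw [hcon g]
    rfl
  obtain ⟨ζ, hζ⟩ := Ideal.Quotient.mk_surjective ((E η1 * x * E η1).coeff u0)
  have hζ0 : ¬ ϖ ∣ ζ := by
    rw [← hz, hζ]; exact hu0
  obtain ⟨κ, hκ⟩ : ∃ κ, ((n (ζ * κ) : ℤ) : ZMod ℓ) ≠ 0 := by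
    by_contra hcon
    push Not at hcon
    exact hζ0 (n_nondeg h hT hcon)
  set t : U H → 𝓞 K := fun w => κ * f0 (u0 * w) with ht
  have hEt : E t = MonoidAlgebra.single u0⁻¹ (Ideal.Quotient.mk (Ideal.span {ϖ}) κ) * x := by
    apply algE_ext
    intro w
    rw [hEc, MonoidAlgebra.coeff_single_mul_apply, inv_inv, ht]
    show Ideal.Quotient.mk (Ideal.span {ϖ}) (κ * f0 (u0 * w)) = _
    rw [map_mul, hf0]
  refine ⟨t, conv t η1, fun w => by rw [sub_self]; exact dvd_zero _, ?_, ?_⟩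
  · have h1 : ϖ ∣ conv η1 (conv t η1) 1 - ζ * κ := by
      rw [← hz, map_sub, sub_eq_zero, ← hEc, hEmul, hEmul, hEt]
      have e : E η1 * (MonoidAlgebra.single u0⁻¹ (Ideal.Quotient.mk (Ideal.span {ϖ}) κ) * x * E η1)
          = MonoidAlgebra.single u0⁻¹ (Ideal.Quotient.mk (Ideal.span {ϖ}) κ) * (E η1 * x * E η1) := by
        ring
      rw [e, MonoidAlgebra.coeff_single_mul_apply, inv_inv, mul_one, ← hζ, map_mul, mul_comm]
    rw [n_dvd h hT h1]
    exact hκ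
  · intro α η hαη
    have h0 : E α * E η = 0 := by
      rw [← hEmul]; exact (hE0 _).2 hαη
    have h1 : E α * E η * x = 0 := by rw [h0, zero_mul]
    have h2 : ∀ β : U H → 𝓞 K, E β * x = 0 → ∀ w, ϖ ∣ conv β (conv t η1) w := by
      intro β hβ
      rw [← hE0, hEmul, hEmul, hEt]
      have e : E β * (MonoidAlgebra.single u0⁻¹ (Ideal.Quotient.mk (Ideal.span {ϖ}) κ) * x * E η1)
          = MonoidAlgebra.single u0⁻¹ (Ideal.Quotient.mk (Ideal.span {ϖ}) κ) * E η1 * (E β * x) := by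
        ring
      rw [e, hβ, mul_zero]
    rcases hx2 _ _ h1 with h3 | h3
    · exact Or.inl (h2 α h3)
    · exact Or.inr (h2 η h3)

end Pool.Agent.Lib.MP_1a91b9_nuX.DG
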