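import Pool.Agent.Lib.MP_1a91b9_nuX.DG.FqV
import Pool.Agent.Lib.MP_1a91b9_nuX.DB.VT
import Pool.Agent.Lib.MP_1a91b9_nuT.DB.Od

/-!
# The decomposition groups at the bad places are not trivial
-/

set_option autoImplicit false

namespace Pool.Agent.Lib.MP_1a91b9_nuX.DG

variable [Pool.Agent.Lib.MP_1a91b9_nuT.CD]

open NumberField IsDedekindDomain WeierstrassCurve Pool.Agent.Lib.MP_1a91b9_nuT
open Pool.Agent.Lib.MP_1a91b9_nuX.DB

noncomputable section

/-- the number of the torsion points at a place prime to `ℓ` -/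
theorem card_le_place {N : Type} [Field N] [NumberField N] [Algebra K N] [DecidableEq N]
    {ϖ : 𝓞 K} {ℓ q : ℕ} (hp : PD ϖ ℓ q) {P : Pt N} (hP : Ord ϖ P) (v : HeightOneSpectrum (𝓞 N))
    (hv : v.valuation N (ℓ : N) = 1) : q ≤ 2 * Ideal.absNorm v.asIdeal + 1 := by
  classical
  obtain ⟨T, hT, hcard⟩ := exists_isRes hp.prime.ne_zero
  rw [hp.norm] at hcard
  have hlp : ∀ a : 𝓞 K, ℓ • sm N a P = 0 := by
    intro a
    rw [← sm_nat, sm_sm]
    exact (hP _).2 (hp.dvd.mul_right _)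
  have hnk : ∀ a : 𝓞 K, ¬ ϖ ∣ a → GM.NKr (v.valuation N) (sm N a P) := fun a ha =>
    GM.NKr.of (fun h0 => ha ((hP a).1 h0)) hv (hlp a)
  have hint : ∀ {m : ℤ}, m ≠ 0 → m.natAbs < 5 → ¬ ϖ ∣ (m : 𝓞 K) := by
    intro m hm h5 hd
    have h1 := (hp.dvd_int_iff m).1 hd
    have h2 := Int.natAbs_dvd_natAbs.2 h1
    rw [Int.natAbs_natCast] at h2
    have h3 := Nat.le_of_dvd (Int.natAbs_pos.2 hm) h2
    have h4 := hp.five
    omega
  have h20 : (2 : N) ≠ 0 := two_ne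
  have h30 : (3 : N) ≠ 0 := three_ne
  -- the differences of abscissae
  have hconst : ∀ a a' b b' : 𝓞 K, ¬ ϖ ∣ a → ¬ ϖ ∣ a' → ¬ ϖ ∣ a - a' → ¬ ϖ ∣ a + a' →
      ¬ ϖ ∣ b → ¬ ϖ ∣ b' → ¬ ϖ ∣ b - b' → ¬ ϖ ∣ b + b' →
      v.valuation N (xc (sm N a P) - xc (sm N a' P)) =
        v.valuation N (xc (sm N b P) - xc (sm N b' P)) := by
    intro a a' b b' h1 h2 h3 h4 h5 h6 h7 h8
    have e1 : ∀ c d : 𝓞 K, sm N c P - sm N d P = sm N (c - d) P := fun c d => by
      rw [map_sub]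
      rfl
    have e2 : ∀ c d : 𝓞 K, sm N c P + sm N d P = sm N (c + d) P := fun c d => by
      rw [map_add]
      rfl
    rw [← px_eq, ← px_eq, ← px_eq, ← px_eq]
    refine GM.v_sub_const h20 h30 bc_ne (bc_j _) (hnk a h1) (hnk a' h2) ?_ ?_ (hnk b h5)
      (hnk b' h6) ?_ ?_
    · rw [e1]
      exact hnk _ h3
    · rw [e2]
      exact hnk _ h4
    · rw [e1]
      exact hnk _ h7
    · rw [e2]
      exact hnk _ h8
  have hone : ¬ ϖ ∣ (1 : 𝓞 K) := by
    have h1 := hint (m := 1) (by norm_num) (by norm_num)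
    rwa [Int.cast_one] at h1
  have htwo : ¬ ϖ ∣ (2 : 𝓞 K) := by
    have h1 := hint (m := 2) (by norm_num) (by norm_num)
    rwa [Int.cast_ofNat] at h1
  have hthree : ¬ ϖ ∣ (3 : 𝓞 K) := by
    have h1 := hint (m := 3) (by norm_num) (by norm_num)
    rwa [Int.cast_ofNat] at h1
  have e21 : (2 : 𝓞 K) - 1 = 1 := by norm_num
  have e23 : (2 : 𝓞 K) + 1 = 3 := by norm_num
  obtain ⟨δ, hδ⟩ : ∃ δ : N, δ = xc (sm N 2 P) - xc (sm N 1 P) := ⟨_, rfl⟩
  have hδ0 : δ ≠ 0 := by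
    intro h0
    rw [hδ, sub_eq_zero] at h0
    have n2 : sm N 2 P ≠ 0 := fun e => htwo ((hP 2).1 e)
    have n1 : sm N 1 P ≠ 0 := fun e => hone ((hP 1).1 e)
    rw [← px_eq, ← px_eq] at h0
    rcases (GM.px_eq_iff n2 n1).1 h0 with h1 | h1
    · have h2 := (hP.sm_eq_iff _ _).1 h1
      rw [e21] at h2
      exact hone h2
    · have h3 : sm N 2 P = sm N (-1) P := by
        rw [h1, map_neg]
        rfl
      have h2 := (hP.sm_eq_iff _ _).1 h3
      rw [sub_neg_eq_add, e23] at h2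
      exact hthree h2
  have hvδ : v.valuation N δ ≠ 0 := (Valuation.ne_zero_iff _).2 hδ0
  obtain ⟨r, hr⟩ : ∃ r : 𝓞 K → N, ∀ a, r a = (xc (sm N a P) - xc (sm N 1 P)) / δ :=
    ⟨_, fun _ => rfl⟩
  have hsep : ∀ a a' : 𝓞 K, ¬ ϖ ∣ a → ¬ ϖ ∣ a' → ¬ ϖ ∣ a - a' → ¬ ϖ ∣ a + a' →
      v.valuation N (r a - r a') = 1 := by
    intro a a' h1 h2 h3 h4
    have e : r a - r a' = (xc (sm N a P) - xc (sm N a' P)) / δ := by
      rw [hr, hr]
      ring
    rw [e, map_div₀, hconst a a' 2 1 h1 h2 h3 h4 htwo hone (by rwa [e21]) (by rwa [e23]), ← hδ,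
      div_self hvδ]
  have hle : ∀ a : 𝓞 K, ¬ ϖ ∣ a → v.valuation N (r a) ≤ 1 := by
    intro a ha
    have e1 : r 1 = 0 := by rw [hr, sub_self, zero_div]
    by_cases h1 : ϖ ∣ a - 1
    · have h2 : sm N a P = sm N 1 P := (hP.sm_eq_iff _ _).2 h1
      rw [hr, h2, sub_self, zero_div, map_zero]
      exact zero_le
    · by_cases h2 : ϖ ∣ a + 1
      · have h3 : sm N a P = sm N (-1) P := (hP.sm_eq_iff _ _).2 (by rwa [sub_neg_eq_add])
        have h4 : sm N (-1) P = -sm N 1 P := by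
          rw [map_neg]
          rfl
        rw [hr, h3, h4, ← px_eq, ← px_eq, GM.px_neg, sub_self, zero_div, map_zero]
        exact zero_le
      · have h3 := hsep a 1 ha hone h1 h2
        rw [e1, sub_zero] at h3
        exact h3.le
  have hex : ∀ a : 𝓞 K, ∃ x : 𝓞 N, a ∈ T → v.valuation N (r a - (x : N)) < 1 := by
    intro a
    by_cases ha : a ∈ T
    · obtain ⟨x, hx⟩ := MP_1a91b9_nuT.DB.exists_val_lt_of_int v (hle a (hT.nz a ha)) 1
      refine ⟨x, fun _ => lt_of_le_of_lt hx ?_⟩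
      rw [← WithZero.exp_zero, WithZero.exp_lt_exp]
      norm_num
    · exact ⟨0, fun h => absurd h ha⟩
  choose x hx using hex
  have : Finite (𝓞 N ⧸ v.asIdeal) := Ideal.finiteQuotientOfFreeOfNeBot _ v.ne_bot
  have : Fintype (𝓞 N ⧸ v.asIdeal) := Fintype.ofFinite _
  let f : 𝓞 K → 𝓞 N ⧸ v.asIdeal := fun a => Ideal.Quotient.mk _ (x a)
  have hff : ∀ a ∈ T, ∀ a' ∈ T, f a' = f a → ϖ ∣ a' - a ∨ ϖ ∣ a' + a := by
    intro a ha a' ha' hf
    by_contra hcon
    rw [not_or] at hcon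
    have h6 := hsep a' a (hT.nz a' ha') (hT.nz a ha) hcon.1 hcon.2
    have h7 : x a' - x a ∈ v.asIdeal := (Ideal.Quotient.mk_eq_mk_iff_sub_mem _ _).1 hf
    have h8 : v.valuation N ((x a' - x a : 𝓞 N) : N) < 1 :=
      (v.valuation_lt_one_iff_mem _).2 h7
    have h9 : r a' - r a = (r a' - (x a' : N)) - (r a - (x a : N)) + ((x a' - x a : 𝓞 N) : N) := by
      have h10 : ((x a' - x a : 𝓞 N) : N) = (x a' : N) - (x a : N) :=
        map_sub (algebraMap (𝓞 N) N) _ _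
      rw [h10]
      ring
    rw [h9] at h6
    exact h6.not_lt (Valuation.map_add_lt _ (Valuation.map_sub_lt _ (hx a' ha') (hx a ha)) h8)
  have hfib : ∀ b ∈ T.image f, (T.filter fun a => f a = b).card ≤ 2 := by
    intro b hb
    obtain ⟨a, ha, rfl⟩ := Finset.mem_image.1 hb
    have hsub : (T.filter fun a' => f a' = f a) ⊆ {a} ∪ T.filter (fun a' => ϖ ∣ a' + a) := by
      intro a' ha'
      obtain ⟨h6, h7⟩ := Finset.mem_filter.1 ha'
      rw [Finset.mem_union, Finset.mem_singleton, Finset.mem_filter]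
      rcases hff a ha a' h6 h7 with h8 | h8
      · exact Or.inl (hT.uniq a' h6 a ha h8)
      · exact Or.inr ⟨h6, h8⟩
    have hone : (T.filter (fun a' => ϖ ∣ a' + a)).card ≤ 1 := by
      rw [Finset.card_le_one]
      intro c hc d hd
      obtain ⟨h6, h7⟩ := Finset.mem_filter.1 hc
      obtain ⟨h8, h9⟩ := Finset.mem_filter.1 hd
      refine hT.uniq c h6 d h8 ?_
      have h10 := dvd_sub h7 h9
      rwa [add_sub_add_right_eq_sub] at h10
    calc (T.filter fun a' => f a' = f a).card ≤ ({a} ∪ T.filter (fun a' => ϖ ∣ a' + a)).card :=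
          Finset.card_le_card hsub
      _ ≤ ({a} : Finset (𝓞 K)).card + (T.filter (fun a' => ϖ ∣ a' + a)).card :=
          Finset.card_union_le _ _
      _ ≤ 1 + 1 := Nat.add_le_add (Finset.card_singleton _).le hone
  have h6 := Finset.card_le_mul_card_image (f := f) T 2 hfib
  have h7 : (T.image f).card ≤ Ideal.absNorm v.asIdeal := by
    have h8 : Fintype.card (𝓞 N ⧸ v.asIdeal) = Ideal.absNorm v.asIdeal := by
      rw [Ideal.absNorm_apply, Submodule.cardQuot_apply, Nat.card_eq_fintype_card]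
    rw [← h8]
    exact Finset.card_le_univ _
  have h8 : T.card ≤ 2 * Ideal.absNorm v.asIdeal := h6.trans (Nat.mul_le_mul_left 2 h7)
  omega

open scoped Pointwise in
/-- trivial decomposition group: unramified of degree one -/
private theorem dtd_ef {k N : Type} [Field k] [NumberField k] [Field N] [NumberField N]
    [Algebra k N] [IsGalois k N] (v : HeightOneSpectrum (𝓞 N))
    (hst : ∀ σ : Gal(N/k), gpl σ v = v → σ = 1) :
    v.asIdeal.ramificationIdx (𝓞 k) = 1 ∧ v.asIdeal.inertiaDeg (𝓞 k) = 1 := by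
  have i1 : v.asIdeal.IsPrime := v.isPrime
  have i2 : (v.under (𝓞 k)).asIdeal.IsPrime := (v.under (𝓞 k)).isPrime
  have i3 : (v.under (𝓞 k)).asIdeal.IsMaximal := (v.under (𝓞 k)).isMaximal
  have i4 : v.asIdeal.LiesOver (v.under (𝓞 k)).asIdeal := ⟨rfl⟩
  have i5 : Finite (v.under (𝓞 k)).asIdeal.ResidueField := by
    have j1 : Finite (𝓞 k ⧸ (v.under (𝓞 k)).asIdeal) :=
      Ideal.finiteQuotientOfFreeOfNeBot _ (v.under (𝓞 k)).ne_bot
    exact Finite.of_surjective _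
      (Ideal.bijective_algebraMap_quotient_residueField (v.under (𝓞 k)).asIdeal).2
  have h1 := Ideal.card_stabilizer_eq (G := Gal(N/k)) (v.under (𝓞 k)).asIdeal v.asIdeal
  have h2 : Nat.card (MulAction.stabilizer Gal(N/k) v.asIdeal) = 1 := by
    rw [Nat.card_eq_one_iff_unique]
    refine ⟨⟨?_⟩, ⟨1⟩⟩
    have hone : ∀ g : MulAction.stabilizer Gal(N/k) v.asIdeal, g.1 = 1 := by
      rintro ⟨g, hg⟩
      change g = 1
      apply hst
      apply HeightOneSpectrum.ext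
      rw [MulAction.mem_stabilizer_iff] at hg
      conv_rhs => rw [← hg]
      rw [Ideal.pointwise_smul_eq_comap]
      rfl
    intro a b
    exact Subtype.ext ((hone a).trans (hone b).symm)
  rw [h2, Ideal.ramificationIdxIn_eq_ramificationIdx _ v.asIdeal Gal(N/k),
    Ideal.inertiaDegIn_eq_inertiaDeg _ v.asIdeal Gal(N/k)] at h1
  exact ⟨Nat.eq_one_of_mul_eq_one_right h1.symm, Nat.eq_one_of_mul_eq_one_left h1.symm⟩

/-- for large `ℓ` the decomposition groups at the bad places are not trivial -/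
theorem dt_large (F : Type) [Field F] [NumberField F] [Algebra K F] : ∃ B : ℕ,
    ∀ (ϖ : 𝓞 K) (ℓ q : ℕ), PD ϖ ℓ q → B < ℓ → DT ϖ F := by
  classical
  have hb0 : bD F ≠ 0 := bD_ne (F := F)
  have hfin : {w : HeightOneSpectrum (𝓞 F) | od w (bD F) ≠ 0}.Finite := od_finite hb0
  refine ⟨∑ w ∈ hfin.toFinset, (2 * Ideal.absNorm w.asIdeal + 1), ?_⟩
  intro ϖ ℓ q h hB N _ _ _ _ _ _ _ P hF v hv
  by_contra hcon
  push Not at hcon
  obtain ⟨he, hf⟩ := dtd_ef (k := F) v (fun σ hσ => by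
    by_contra h1
    exact hcon σ h1 hσ)
  have hvk : (v.under (𝓞 F)).valuation F (bD F) < 1 := by
    rw [← val_map_lt, map_intCast]
    exact hv
  have hmem : v.under (𝓞 F) ∈ hfin.toFinset := by
    rw [Set.Finite.mem_toFinset]
    have h1 := (val_lt_one_iff _ hb0).1 hvk
    exact h1.ne'
  have hpi : v.valuation N (ℓ : N) = 1 := by
    refine le_antisymm (v_nat_le _ ℓ) (not_lt.1 fun h2 => ?_)
    rw [bad_of_ell (v.valuation N) h.hl h.good h2] at hv
    exact lt_irrefl _ hv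
  have hcard := card_le_place h hF.ord v hpi
  have i1 : v.asIdeal.LiesOver (v.under (𝓞 F)).asIdeal := ⟨rfl⟩
  have h1 : Ideal.absNorm v.asIdeal = Ideal.absNorm (v.under (𝓞 F)).asIdeal := by
    have h2 := Ideal.absNorm_pow_inertiaDeg (v.under (𝓞 F)).asIdeal v.asIdeal
    rw [hf, pow_one] at h2
    exact h2.symm
  rw [h1] at hcard
  have h3 := Finset.single_le_sum
    (f := fun w : HeightOneSpectrum (𝓞 F) => 2 * Ideal.absNorm w.asIdeal + 1)
    (fun w _ => Nat.zero_le _) hmem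
  have h4 : ℓ ≤ q := by
    rcases h.alt with h5 | h5
    · exact h5.ge
    · rw [h5]
      exact Nat.le_self_pow two_ne_zero ℓ
  exact absurd (h4.trans (hcard.trans h3)) (not_le.2 hB)

end

end Pool.Agent.Lib.MP_1a91b9_nuX.DG
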