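import Pool.Agent.Lib.MP_1a91b9_nuX.DG.Vt
import Pool.Agent.Lib.MP_1a91b9_nuX.DG.Dt
import Pool.Agent.Lib.MP_1a91b9_nuX.DG.DNe
import Pool.Agent.Lib.MP_1a91b9_nuX.DG.Ab

/-!
# The base field of THEOREM G2
-/

set_option autoImplicit false

namespace Pool.Agent.Lib.MP_1a91b9_nuX.DG

variable [Pool.Agent.Lib.MP_1a91b9_nuT.CD]

open NumberField IsDedekindDomain WeierstrassCurve Pool.Agent.Lib.MP_1a91b9_nuT
open Pool.Agent.Lib.MP_1a91b9_nuX.DB

noncomputable section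

private theorem base_fin {μ : 𝓞 K} {H : Subgroup (CU μ)} (hμ : μ ≠ 0) : Finite (U H) := by
  have h1 : Finite (𝓞 K ⧸ Ideal.span {μ}) := by
    refine Ideal.finiteQuotientOfFreeOfNeBot _ ?_
    rw [Ne, Ideal.span_singleton_eq_bot]
    exact hμ
  infer_instance

private theorem base_cop {μ : 𝓞 K} {ℓ : ℕ} (hℓ : ℓ.Prime)
    (hμ : ¬ ℓ ∣ Ideal.absNorm (Ideal.span {μ})) : IsCoprime (ℓ : 𝓞 K) μ := by
  have h1 : IsCoprime (ℓ : ℤ) (Ideal.absNorm (Ideal.span {μ}) : ℤ) := by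
    rw [Nat.isCoprime_iff_coprime]
    exact (Nat.Prime.coprime_iff_not_dvd hℓ).2 hμ
  have h2 := h1.map (Int.castRingHom (𝓞 K))
  rw [map_natCast, map_natCast] at h2
  refine IsCoprime.of_isCoprime_of_dvd_right h2 ?_
  rw [← Ideal.mem_span_singleton]
  exact Ideal.absNorm_mem _

private theorem base_dvd {F : Type} [Field F] [NumberField F] (v : HeightOneSpectrum (𝓞 F))
    {ℓ : ℕ} (hℓ : ℓ.Prime) (hv : (ℓ : 𝓞 F) ∈ v.asIdeal) : ℓ ∣ Ideal.absNorm v.asIdeal := by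
  by_contra hnd
  have h1 : IsCoprime (ℓ : ℤ) (Ideal.absNorm v.asIdeal : ℤ) := by
    rw [Nat.isCoprime_iff_coprime]
    exact (Nat.Prime.coprime_iff_not_dvd hℓ).2 hnd
  obtain ⟨a, b, hab⟩ := h1.map (Int.castRingHom (𝓞 F))
  rw [map_natCast, map_natCast] at hab
  apply v.isPrime.ne_top
  rw [Ideal.eq_top_iff_one, ← hab]
  exact v.asIdeal.add_mem (v.asIdeal.mul_mem_left _ hv)
    (v.asIdeal.mul_mem_left _ (Ideal.absNorm_mem v.asIdeal))

private theorem base_nu {p : ℕ} (hp : p.Prime) : ¬ IsUnit (p : 𝓞 K) := by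
  intro h
  have h1 : IsUnit (Algebra.norm ℤ (p : 𝓞 K)) := h.map (Algebra.norm ℤ)
  have h2 : Algebra.norm ℤ (p : 𝓞 K) = (p : ℤ) ^ Module.finrank ℤ (𝓞 K) := by
    have h3 := Algebra.norm_algebraMap_of_basis (Module.Free.chooseBasis ℤ (𝓞 K)) (p : ℤ)
    rw [← Module.finrank_eq_card_chooseBasisIndex, map_natCast] at h3
    exact h3
  rw [h2] at h1
  have hpos : Module.finrank ℤ (𝓞 K) ≠ 0 := (Module.finrank_pos (R := ℤ) (M := 𝓞 K)).ne'
  rw [isUnit_pow_iff hpos] at h1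
  have h4 := Int.isUnit_iff_natAbs_eq.1 h1
  rw [Int.natAbs_natCast] at h4
  exact hp.one_lt.ne' h4

/-- an auxiliary element prime to `μ` -/
theorem exists_fp {μ : 𝓞 K} (hμ : μ ≠ 0) : ∃ fp : FP, IsCoprime fp.a μ := by
  have hN : Ideal.absNorm (Ideal.span {μ}) ≠ 0 := by
    rw [Ne, Ideal.absNorm_eq_zero_iff, Ideal.span_singleton_eq_bot]
    exact hμ
  obtain ⟨p, hp1, hp⟩ := Nat.exists_infinite_primes (3 + Ideal.absNorm (Ideal.span {μ}))
  have h2 : IsCoprime (2 : 𝓞 K) (p : 𝓞 K) := by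
    have h3 : IsCoprime ((2 : ℕ) : ℤ) (p : ℤ) := by
      rw [Nat.isCoprime_iff_coprime]
      exact (Nat.coprime_primes Nat.prime_two hp).2 (by omega)
    have h4 := h3.map (Int.castRingHom (𝓞 K))
    rw [map_natCast, map_natCast] at h4
    exact_mod_cast h4
  refine ⟨⟨(p : 𝓞 K), by exact_mod_cast hp.ne_zero, base_nu hp, h2⟩, base_cop hp fun hd => ?_⟩
  have := Nat.le_of_dvd (Nat.pos_of_ne_zero hN) hd
  omega

variable [HC]

section
variable {μ : 𝓞 K} {H : Subgroup (CU μ)} {F L' : Type} [Field F] [NumberField F] [Algebra K F]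
  [Field L'] [NumberField L'] [Algebra K L'] [Algebra F L'] [IsScalarTower K F L']
  [DecidableEq L'] {J' : Pt L'} (hAB : AB H F L' J')
include hAB

theorem AB.large (hM : Md μ)
    (hL : AN.LGood F) : ∃ B : ℕ, ∀ (ϖ : 𝓞 K) (ℓ q : ℕ), PD ϖ ℓ q → B < ℓ →
      VT ϖ ℓ F ∧ DT ϖ F := by
  classical
  obtain ⟨fp, hfp⟩ := exists_fp hAB.ne
  let _ : FP := fp
  have hpk : IsCoprime pk μ := hfp
  obtain ⟨B1, hB1⟩ := dt_large F
  have hd := hAB.dL_ne hM hpk hL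
  have hfin : {w : HeightOneSpectrum (𝓞 F) | od w (dL F L' J') ≠ 0}.Finite := od_finite hd
  have hfU : Finite (U H) := base_fin hAB.ne
  have hμpk : μ * pk ≠ 0 := mul_ne_zero hAB.ne pk_ne
  have hN0 : Ideal.absNorm (Ideal.span {μ * pk}) ≠ 0 := by
    rw [Ne, Ideal.absNorm_eq_zero_iff, Ideal.span_singleton_eq_bot]
    exact hμpk
  have hk : ¬ μ ∣ pk := fun hdv =>
    hM.not_unit (hpk.symm.isUnit_of_dvd' dvd_rfl hdv)
  refine ⟨B1 + Ideal.absNorm (Ideal.span {μ * pk}) + Nat.card (U H) +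
    ∑ w ∈ hfin.toFinset, Ideal.absNorm w.asIdeal, ?_⟩
  intro ϖ ℓ q h hB
  have hℓ := h.hl
  have hcpos : 0 < Nat.card (U H) := Nat.card_pos
  have hcu : ¬ ℓ ∣ Nat.card (U H) := fun hdv =>
    absurd (Nat.le_of_dvd hcpos hdv) (by omega)
  have hcw : CW ℓ μ := fun hdv =>
    absurd (Nat.le_of_dvd (Nat.pos_of_ne_zero hN0) hdv) (by omega)
  have hco : IsCoprime (ℓ : 𝓞 K) μ :=
    (IsCoprime.of_isCoprime_of_dvd_left (hcw.copK hℓ) (dvd_mul_right _ _)).symm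
  have hunr := unrF hAB hℓ h.good hco
  have hdt : DT ϖ F := hB1 ϖ ℓ q h (by omega)
  refine ⟨vtG hAB hk h hcw hcu hunr hdt fun v hv => ?_, hdt⟩
  by_contra hne
  have hmem : v ∈ hfin.toFinset := by
    rw [Set.Finite.mem_toFinset]
    intro h0
    exact hne ((val_eq_one_iff v hd).2 h0)
  have hvl : v.valuation F (algebraMap (𝓞 F) F ((ℓ : ℕ) : 𝓞 F)) < 1 := by
    obtain ⟨c, hc⟩ := h.dvd
    have e : algebraMap (𝓞 F) F ((ℓ : ℕ) : 𝓞 F) =
        algebraMap K F (ϖ : K) * algebraMap K F (c : K) := by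
      rw [← map_mul]
      have e1 : ((ϖ * c : 𝓞 K) : K) = (ϖ : K) * (c : K) := map_mul _ _ _
      rw [← e1, ← hc]
      have e2 : (((ℓ : ℕ) : 𝓞 K) : K) = (ℓ : K) := map_natCast _ _
      rw [e2, map_natCast, map_natCast]
    rw [e, map_mul]
    exact mul_lt_one_of_lt_of_le hv (v_alg_le (v.valuation F) c)
  have hlv : ((ℓ : ℕ) : 𝓞 F) ∈ v.asIdeal := (v.valuation_lt_one_iff_mem _).1 hvl
  have hdv := base_dvd v hℓ hlv
  have hpos : 0 < Ideal.absNorm v.asIdeal := by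
    rw [Nat.pos_iff_ne_zero, Ne, Ideal.absNorm_eq_zero_iff]
    exact v.ne_bot
  have h1 := Nat.le_of_dvd hpos hdv
  have h2 := Finset.single_le_sum
    (f := fun w : HeightOneSpectrum (𝓞 F) => Ideal.absNorm w.asIdeal)
    (fun w _ => Nat.zero_le _) hmem
  have h3 : Ideal.absNorm v.asIdeal ≤ ∑ w ∈ hfin.toFinset, Ideal.absNorm w.asIdeal := h2
  omega

end

/-- **The base field of THEOREM G2.** -/
theorem base_all {F₀ L : Type} [Field F₀] [NumberField F₀] [Algebra K F₀] [Field L]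
    [NumberField L] [Algebra K L] [Algebra F₀ L] [IsScalarTower K F₀ L] [DecidableEq L]
    {T₀ : Pt L} {n : ℕ} (hn : n ≠ 0) (hT : n • T₀ = 0)
    (hgen : IntermediateField.adjoin K {xc T₀, yc T₀} = ⊤) (hL : AN.LGood F₀) :
    ∃ B : ℕ, ∀ (ϖ : 𝓞 K) (ℓ q : ℕ), PD ϖ ℓ q → B < ℓ → VT ϖ ℓ F₀ ∧ DT ϖ F₀ := by
  obtain ⟨μ, hM, H, L', i1, i2, i3, i4, i5, i6, J, hAB⟩ := exists_ab F₀ hn hT hgen
  exact hAB.large hM hL

end

end Pool.Agent.Lib.MP_1a91b9_nuX.DG
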