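import Pool.Agent.Lib.MP_1a91b9_nuX.DG.Defs
import Pool.Agent.Lib.MP_1a91b9_nuT.DG.Dual

/-!
# Duality for the trace form `n`

Port of MP_1a91b9_nuT/DG/Dual.lean.
-/

set_option autoImplicit false

namespace Pool.Agent.Lib.MP_1a91b9_nuX.DG

variable [Pool.Agent.Lib.MP_1a91b9_nuT.CD]

open NumberField IsDedekindDomain WeierstrassCurve Pool.Agent.Lib.MP_1a91b9_nuT
open Pool.Agent.Lib.MP_1a91b9_nuX.DB

section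
variable {ϖ : 𝓞 K} {ℓ q : ℕ} (h : PD ϖ ℓ q) {T : Finset (𝓞 K)} {iv : 𝓞 K → 𝓞 K} {n : 𝓞 K → ℤ}
  (hT : TrD ϖ ℓ T iv n)
include h hT

theorem n_add (x y : 𝓞 K) :
    ((n (x + y) : ℤ) : ZMod ℓ) = ((n x : ℤ) : ZMod ℓ) + ((n y : ℤ) : ZMod ℓ) :=
  MP_1a91b9_nuT.DG.n_add h hT x y


theorem n_sum {ι : Type*} (s : Finset ι) (f : ι → 𝓞 K) :
    ((n (∑ i ∈ s, f i) : ℤ) : ZMod ℓ) = ∑ i ∈ s, ((n (f i) : ℤ) : ZMod ℓ) :=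
  MP_1a91b9_nuT.DG.n_sum h hT s f

theorem n_dvd {x y : 𝓞 K} (hxy : ϖ ∣ x - y) : ((n x : ℤ) : ZMod ℓ) = ((n y : ℤ) : ZMod ℓ) :=
  MP_1a91b9_nuT.DG.n_dvd h hT hxy

theorem n_orth (x y : 𝓞 K) : ∑ d ∈ T, ((n (x * iv d) : ℤ) : ZMod ℓ) * ((n (y * d) : ℤ) : ZMod ℓ) =
    -((n (x * y) : ℤ) : ZMod ℓ) := MP_1a91b9_nuT.DG.n_orth h hT x y

theorem n_nondeg {x : 𝓞 K} (hx : ∀ y : 𝓞 K, ((n (x * y) : ℤ) : ZMod ℓ) = 0) : ϖ ∣ x :=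
  MP_1a91b9_nuT.DG.n_nondeg h hT hx

theorem dualU {μ : 𝓞 K} {H : Subgroup (CU μ)} [Fintype (U H)] (A : (U H → 𝓞 K) →+ ZMod ℓ)
    (hA : ∀ c : U H → 𝓞 K, (∀ u, ϖ ∣ c u) → A c = 0) :
    ∃ α : U H → 𝓞 K, ∀ c : U H → 𝓞 K, A c = ∑ v : U H, ((n (α v * c v) : ℤ) : ZMod ℓ) := by
  classical
  have h1 : ∀ v : U H, ∃ a : 𝓞 K, ∀ x : 𝓞 K,
      (A.comp (AddMonoidHom.single (fun _ : U H => 𝓞 K) v)) x = ((n (a * x) : ℤ) : ZMod ℓ) := by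
    intro v
    refine hT.dual _ fun x hx => ?_
    refine hA _ fun u => ?_
    by_cases huv : u = v
    · subst huv
      show ϖ ∣ (Pi.single u x : U H → 𝓞 K) u
      rw [Pi.single_eq_same]
      exact hx
    · show ϖ ∣ (Pi.single v x : U H → 𝓞 K) u
      rw [Pi.single_eq_of_ne huv]
      exact dvd_zero ϖ
  choose α hα using h1
  refine ⟨α, fun c => ?_⟩
  have h2 : A c = A (∑ v : U H, Pi.single v (c v)) := by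
    rw [Finset.univ_sum_single]
  rw [h2, map_sum]
  exact Finset.sum_congr rfl fun v _ => hα v (c v)

end

end Pool.Agent.Lib.MP_1a91b9_nuX.DG
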