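import Pool.Agent.Lib.MP_1a91b9_nuX.DG.GalU
import Pool.Agent.Lib.MP_1a91b9_nuX.DG.Unr
import Pool.Agent.Lib.MP_1a91b9_nuX.DG.Hps
import Pool.Agent.Lib.MP_1a91b9_nuT.CF.Frob
import Pool.Agent.Lib.MP_1a91b9_nuT.DG.ZDefs

/-!
# Decomposition of the primes of `K` in `F`
-/

set_option autoImplicit false

namespace Pool.Agent.Lib.MP_1a91b9_nuX.DG

variable [Pool.Agent.Lib.MP_1a91b9_nuT.CD]

open NumberField IsDedekindDomain WeierstrassCurve Pool.Agent.Lib.MP_1a91b9_nuT
open Pool.Agent.Lib.MP_1a91b9_nuX.DB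

noncomputable section

/-- powers of a Frobenius element -/
private theorem dec_pow {L : Type} [Field L] [NumberField L] [Algebra K L]
    (W : HeightOneSpectrum (𝓞 L)) (σ : Gal(L/K)) (q : ℕ)
    (h : ∀ x : 𝓞 L, σ • x - x ^ q ∈ W.asIdeal) (j : ℕ) :
    ∀ x : 𝓞 L, (σ ^ j) • x - x ^ q ^ j ∈ W.asIdeal := by
  induction j with
  | zero =>
    intro x
    rw [pow_zero, pow_zero, pow_one, one_smul, sub_self]
    exact W.asIdeal.zero_mem
  | succ j ih =>
    intro x
    rw [pow_succ', mul_smul]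
    have h1 := h ((σ ^ j) • x)
    have h2 : ((σ ^ j) • x) ^ q - (x ^ q ^ j) ^ q ∈ W.asIdeal :=
      Ideal.mem_of_dvd _ (sub_dvd_pow_sub_pow _ _ q) (ih x)
    have h3 := W.asIdeal.add_mem h1 h2
    rw [sub_add_sub_cancel, ← pow_mul, ← pow_succ] at h3
    exact h3

/-- the values at a place above `v` -/
private theorem dec_val {L : Type} [Field L] [NumberField L] [Algebra K L] [DecidableEq L]
    {v : HeightOneSpectrum (𝓞 K)} (W : HeightOneSpectrum (𝓞 L)) (hW : W.under (𝓞 K) = v) (a : 𝓞 K) :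
    (a ∈ v.asIdeal → W.valuation L (algebraMap K L (a : K)) < 1) ∧
    (a ∉ v.asIdeal → W.valuation L (algebraMap K L (a : K)) = 1) := by
  have h1 : W.valuation L (algebraMap K L (a : K)) < 1 ↔ a ∈ v.asIdeal := by
    have h2 : algebraMap K L (a : K) = algebraMap (𝓞 L) L (algebraMap (𝓞 K) (𝓞 L) a) := rfl
    rw [h2, W.valuation_lt_one_iff_mem, ← hW]
    exact Iff.rfl
  refine ⟨h1.2, fun h => ?_⟩
  exact le_antisymm (v_alg_le (W.valuation L) a) (not_lt.1 fun h2 => h (h1.1 h2))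

variable [HC]

section
variable {μ : 𝓞 K} {H : Subgroup (CU μ)} {F L' : Type} [Field F] [NumberField F] [Algebra K F]
  [Field L'] [NumberField L'] [Algebra K L'] [Algebra F L'] [IsScalarTower K F L']
  [DecidableEq L'] {J' : Pt L'} (hAB : AB H F L' J')
include hAB

private theorem dec_one (hM : Md μ) {res : U H →* Gal(F/K)}
    (hres : ∀ (σ : Gal(L'/K)) (u : U H), ga σ J' = smU J' u →
      ∀ x : F, algebraMap F L' (res u x) = σ (algebraMap F L' x))
    (v : HeightOneSpectrum (𝓞 K)) (hμ : μ ∉ v.asIdeal) {u : U H}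
    (hu : μ ∣ ps v.asIdeal - rp u) (P : HeightOneSpectrum (𝓞 F)) (hP : P.under (𝓞 K) = v) :
    P.asIdeal.inertiaDeg (𝓞 K) = orderOf (res u) ∧ P.asIdeal.ramificationIdx (𝓞 K) = 1 := by
  have hgal := hAB.gal
  have hgalF := hAB.galF
  have hgalT : IsGalois F L' := IsGalois.tower_top_of_isGalois K F L'
  have hbv : (bO : 𝓞 K) ∉ v.asIdeal := fun h => hμ (hM.bad v h)
  have hβs : Ideal.span {ps v.asIdeal} = v.asIdeal := ps_span v hbv
  obtain ⟨β, hβ⟩ : ∃ β, β = ps v.asIdeal := ⟨_, rfl⟩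
  rw [← hβ] at hβs hu
  have hβ0 : β ≠ 0 := by
    intro h0
    rw [h0, Ideal.span_singleton_eq_bot.2 rfl] at hβs
    exact v.ne_bot hβs.symm
  have hβp : Prime β := by
    rw [← Ideal.span_singleton_prime hβ0, hβs]
    exact v.isPrime
  have hβv : β ∈ v.asIdeal := by
    rw [← hβs]
    exact Ideal.mem_span_singleton_self β
  obtain ⟨W, hWP⟩ := CF.exists_over (N := L') P
  have hWv : W.under (𝓞 K) = v := by
    rw [← hP, ← hWP]
    apply HeightOneSpectrum.ext
    show Ideal.under (𝓞 K) W.asIdeal = Ideal.under (𝓞 K) (Ideal.under (𝓞 F) W.asIdeal)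
    exact (Ideal.under_under _).symm
  have hWβ := (dec_val W hWv β).1 hβv
  have hWμ := (dec_val W hWv μ).2 hμ
  have hWb : W.valuation L' (bD L') = 1 := by
    have h4 := (dec_val W hWv bO).2 hbv
    rwa [bO_map] at h4
  obtain ⟨σ, hσ⟩ := CF.exists_fr (k := K) W
  have hσ' : ∀ x : 𝓞 L', σ • x - x ^ Ideal.absNorm v.asIdeal ∈ W.asIdeal := by
    intro x
    have h5 := hσ x
    rwa [Pool.Agent.Lib.MP_1a91b9_nt.nrm_eq, hWv] at h5
  have hJ0 : sm L' μ J' = 0 := (hAB.ord μ).2 dvd_rfl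
  have hfr : ga σ J' = smU J' u := by
    have h6 := frob (k := K) W hWb σ (by rw [hWv]; exact hσ') hWμ hJ0
    rw [hWv, AN.psi_self, ← hβ] at h6
    rw [h6]
    exact smU_of hAB.ord hu
  have hτ := hres σ u hfr
  -- the powers
  have hτj : ∀ (j : ℕ) (x : F), algebraMap F L' ((res u ^ j) x) = (σ ^ j) (algebraMap F L' x) := by
    intro j
    induction j with
    | zero => intro x; rfl
    | succ j ih =>
      intro x
      rw [pow_succ', pow_succ']
      change algebraMap F L' (res u ((res u ^ j) x)) = σ ((σ ^ j) (algebraMap F L' x))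
      rw [hτ, ih]
  have hσj := dec_pow W σ _ hσ'
  -- the ramification
  have hram := unramA hAB W hWb hWμ
  have hβv' : v.valuation K (β : K) < 1 := by
    have e1 : (β : K) = algebraMap (𝓞 K) K β := rfl
    rw [e1, v.valuation_lt_one_iff_mem]
    exact hβv
  have hod := od_prime_K hβp v hβv'
  have heP : P.asIdeal.ramificationIdx (𝓞 K) = 1 := by
    have h5 := od_map (k := K) W (β : K)
    rw [hram, Nat.cast_one, one_mul, hWv, hod] at h5
    have h6 := od_map (k := F) W (algebraMap K F (β : K))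
    rw [← IsScalarTower.algebraMap_apply K F L', h5, hWP] at h6
    have h7 := od_map (k := K) P (β : K)
    rw [hP, hod, mul_one] at h7
    rw [h7] at h6
    have h0 : (0 : ℤ) ≤ (P.asIdeal.ramificationIdx (𝓞 K) : ℤ) := Int.natCast_nonneg _
    rcases Int.mul_eq_one_iff_eq_one_or_neg_one.1 h6.symm with h8 | h8
    · exact_mod_cast h8.2
    · omega
  refine ⟨?_, heP⟩
  have hvm : v.asIdeal.IsMaximal := v.isMaximal
  have hPm : P.asIdeal.IsMaximal := P.isMaximal
  have hlo : P.asIdeal.LiesOver v.asIdeal := ⟨by rw [← hP]; rfl⟩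
  have hcard := Ideal.absNorm_pow_inertiaDeg v.asIdeal P.asIdeal
  -- the order divides the degree
  have hfin : Finite (𝓞 F ⧸ P.asIdeal) := Ideal.finiteQuotientOfFreeOfNeBot _ P.ne_bot
  have hfin2 : Finite Gal(F/K) := inferInstance
  have hq : ∀ x : 𝓞 F, x ^ Ideal.absNorm P.asIdeal - x ∈ P.asIdeal := by
    intro x
    let _ : Field (𝓞 F ⧸ P.asIdeal) := Ideal.Quotient.field P.asIdeal
    have _ := Fintype.ofFinite (𝓞 F ⧸ P.asIdeal)
    rw [← Ideal.Quotient.eq, map_pow]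
    have h5 : Ideal.absNorm P.asIdeal = Fintype.card (𝓞 F ⧸ P.asIdeal) := by
      rw [Ideal.absNorm_apply, Submodule.cardQuot_apply, Nat.card_eq_fintype_card]
    rw [h5]
    exact FiniteField.pow_card _
  have hmemP : ∀ x : 𝓞 F, x ∈ P.asIdeal → algebraMap (𝓞 F) (𝓞 L') x ∈ W.asIdeal := by
    intro x hx
    rw [← hWP] at hx
    exact hx
  have hram2 : ¬ CF.Ram F (W.under (𝓞 K)) := by
    intro h5
    apply h5
    rw [hWv, Ideal.ramificationIdxIn_eq_ramificationIdx v.asIdeal P.asIdeal Gal(F/K), heP]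
  have hone : ∀ j : ℕ, (∀ x : F, (σ ^ j) (algebraMap F L' x) = algebraMap F L' x) ↔ res u ^ j = 1 := by
    intro j
    constructor
    · intro h5
      apply AlgEquiv.ext
      intro x
      apply (algebraMap F L').injective
      rw [hτj, h5]
      rfl
    · intro h5 x
      rw [← hτj, h5]
      rfl
  have hd1 : orderOf (res u) ∣ P.asIdeal.inertiaDeg (𝓞 K) := by
    rw [orderOf_dvd_iff_pow_eq_one, ← hone]
    refine CF.fix_of_triv (k := K) W _ hram2 fun x => ?_
    have h5 := hσj (P.asIdeal.inertiaDeg (𝓞 K)) (algebraMap (𝓞 F) (𝓞 L') x)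
    rw [hcard] at h5
    have h6 := hmemP _ (hq x)
    rw [map_sub, map_pow] at h6
    have h7 := W.asIdeal.add_mem h5 h6
    rwa [sub_add_sub_cancel] at h7
  have hpos : 0 < orderOf (res u) := orderOf_pos _
  have hd2 : P.asIdeal.inertiaDeg (𝓞 K) ∣ orderOf (res u) := by
    have h5 := CF.fr_fix (k := K) (L := F) W (σ ^ orderOf (res u))
      (Ideal.absNorm v.asIdeal ^ orderOf (res u)) (orderOf (res u)) v hWv
      (by rw [Pool.Agent.Lib.MP_1a91b9_nt.nrm_eq]) hpos (hσj _)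
      ((hone _).2 (pow_orderOf_eq_one _))
    rwa [hWP] at h5
  exact Nat.dvd_antisymm hd2 hd1

theorem AB.dec (hM : Md μ) {res : U H →* Gal(F/K)}
    (hres : ∀ (σ : Gal(L'/K)) (u : U H), ga σ J' = smU J' u →
      ∀ x : F, algebraMap F L' (res u x) = σ (algebraMap F L' x))
    (v : HeightOneSpectrum (𝓞 K)) (hμ : μ ∉ v.asIdeal) {u : U H}
    (hu : μ ∣ ps v.asIdeal - rp u) :
    (∀ P : S4.Over F v, psi F P.1.asIdeal = ps v.asIdeal ^ orderOf (res u) ∧
      Ideal.absNorm P.1.asIdeal = Ideal.absNorm v.asIdeal ^ orderOf (res u)) ∧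
    Fintype.card (S4.Over F v) * orderOf (res u) = Fintype.card Gal(F/K) := by
  have hgalF := hAB.galF
  have hunder : ∀ P : S4.Over F v, P.1.under (𝓞 K) = v := by
    intro P
    apply HeightOneSpectrum.ext
    exact P.2
  have hone : ∀ P : S4.Over F v, P.1.asIdeal.inertiaDeg (𝓞 K) = orderOf (res u) ∧
      P.1.asIdeal.ramificationIdx (𝓞 K) = 1 :=
    fun P => dec_one hAB hM hres v hμ hu P.1 (hunder P)
  have hvm : v.asIdeal.IsMaximal := v.isMaximal
  constructor
  · intro P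
    have hPm : P.1.asIdeal.IsMaximal := P.1.isMaximal
    have hlo : P.1.asIdeal.LiesOver v.asIdeal := ⟨P.2.symm⟩
    have hf := (hone P).1
    constructor
    · have h1 : Ideal.relNorm (𝓞 K) P.1.asIdeal = v.asIdeal ^ P.1.asIdeal.inertiaDeg (𝓞 K) :=
        Ideal.relNorm_eq_pow_of_isMaximal P.1.asIdeal v.asIdeal
      rw [psi, h1, ps_pow, hf]
    · rw [← Ideal.absNorm_pow_inertiaDeg v.asIdeal P.1.asIdeal, hf]
  · obtain ⟨P, hP⟩ := CF.exists_over (N := F) v
    have hPv : P.asIdeal.under (𝓞 K) = v.asIdeal := by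
      rw [← hP]
      rfl
    have hPm : P.asIdeal.IsMaximal := P.isMaximal
    have hPp : P.asIdeal.IsPrime := P.isPrime
    have hlo : P.asIdeal.LiesOver v.asIdeal := ⟨hPv.symm⟩
    have hfund := Ideal.ncard_primesOver_mul_ramificationIdxIn_mul_inertiaDegIn v.asIdeal (𝓞 F)
      Gal(F/K)
    have he : v.asIdeal.ramificationIdxIn (𝓞 F) = 1 := by
      rw [Ideal.ramificationIdxIn_eq_ramificationIdx v.asIdeal P.asIdeal Gal(F/K)]
      exact (hone ⟨P, hPv⟩).2
    have hf : v.asIdeal.inertiaDegIn (𝓞 F) = orderOf (res u) := by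
      rw [Ideal.inertiaDegIn_eq_inertiaDeg v.asIdeal P.asIdeal Gal(F/K)]
      exact (hone ⟨P, hPv⟩).1
    rw [he, hf, one_mul, ← Pool.Agent.Lib.MP_1a91b9_nt.card_over_eq, Nat.card_eq_fintype_card,
      Nat.card_eq_fintype_card] at hfund
    exact hfund


end

end

end Pool.Agent.Lib.MP_1a91b9_nuX.DG
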