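import Pool.Agent.Lib.MP_1a91b9_nuX.DB.VT
import Pool.Agent.Lib.MP_1a91b9_nuX.DG.FqV
import Pool.Agent.Lib.MP_1a91b9_nuT.DG.Defs

/-!
# The base field: definitions

The base field `F` is contained in `L' = K(J)`, `J` a torsion point of
exact annihilator `μ` (`AB`). `H` is the group of the residue classes modulo `μ` by which
`Gal(L'/K)` acts on `J`. For `PD ϖ ℓ q` and `N/F` with the point `P` (`Full F ϖ P`) the field `L` is
the compositum of `N` and `L'` (`TopG`); `Gal(L/K)` is `H × (𝓞 K/ϖ)^×`. The elliptic units are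
products of the values `fq (u J + a P)`.
-/

set_option autoImplicit false

namespace Pool.Agent.Lib.MP_1a91b9_nuX.DG

variable [Pool.Agent.Lib.MP_1a91b9_nuT.CD]

open NumberField IsDedekindDomain WeierstrassCurve Pool.Agent.Lib.MP_1a91b9_nuT
open Pool.Agent.Lib.MP_1a91b9_nuX.DB

export Pool.Agent.Lib.MP_1a91b9_nuT.DG (f2)

noncomputable section

/-- the residue classes prime to `μ` -/
abbrev CU (μ : 𝓞 K) : Type := MP_1a91b9_nuT.DG.U μ

/-- the elements of a group of residue classes -/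
abbrev U {μ : 𝓞 K} (H : Subgroup (CU μ)) : Type := ↥H

section
variable {μ : 𝓞 K} {H : Subgroup (CU μ)}

/-- a representative of a residue class -/
def rp (u : U H) : 𝓞 K := MP_1a91b9_nuT.DG.rp (u : CU μ)

theorem rp_cop (u : U H) : IsCoprime (rp u) μ := MP_1a91b9_nuT.DG.rp_cop (u : CU μ)

theorem rp_inj {u v : U H} (h : μ ∣ rp u - rp v) : u = v :=
  Subtype.ext (MP_1a91b9_nuT.DG.rp_inj h)

theorem rp_mul (u v : U H) : μ ∣ rp (u * v) - rp u * rp v :=
  MP_1a91b9_nuT.DG.rp_mul (u : CU μ) (v : CU μ)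

theorem rp_one : μ ∣ rp (1 : U H) - 1 := MP_1a91b9_nuT.DG.rp_one

end

/-- the action of a residue class on a point killed by `μ` -/
def smU {F : Type*} [Field F] [Algebra K F] [DecidableEq F] {μ : 𝓞 K} {H : Subgroup (CU μ)}
    (J : Pt F) (u : U H) : Pt F :=
  sm F (rp u) J

section
variable {F : Type*} [Field F] [Algebra K F] [DecidableEq F] {μ : 𝓞 K} {H : Subgroup (CU μ)}
  {J : Pt F} (hJ : Ord μ J)

include hJ

theorem smU_of {c : 𝓞 K} {u : U H} (hc : μ ∣ c - rp u) : sm F c J = smU J u :=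
  (hJ.sm_eq_iff c (rp u)).2 hc

theorem smU_one : smU J (1 : U H) = J := by
  rw [← smU_of hJ (c := 1) (u := (1 : U H)) (by
    have h1 := rp_one (μ := μ) (H := H)
    rwa [← dvd_neg, neg_sub] at h1), map_one]
  rfl

theorem smU_mul (g u : U H) : sm F (rp g) (smU J u) = smU J (g * u) := by
  unfold smU
  rw [sm_sm, hJ.sm_eq_iff, ← dvd_neg, neg_sub]
  exact rp_mul g u

theorem smU_kill (u : U H) : sm F μ (smU J u) = 0 := by
  unfold smU
  rw [sm_sm]
  exact (hJ _).2 (dvd_mul_right _ _)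

theorem smU_inj {u v : U H} (h : smU J u = smU J v) : u = v :=
  rp_inj ((hJ.sm_eq_iff _ _).1 h)

theorem smU_ord (u : U H) : Ord μ (smU J u) := hJ.smul (rp_cop u)

theorem smU_lam [FP] (hl : ¬ μ ∣ pk) (u : U H) : sm F pk (smU J u) ≠ 0 :=
  fun e => hl ((smU_ord hJ u pk).1 e)

end

/-- the image of a point in an extension -/
def up {N : Type*} [Field N] [Algebra K N] [DecidableEq N] (L : Type*) [Field L] [Algebra K L]
    [DecidableEq L] [Algebra N L] [IsScalarTower K N L] (P : Pt N) : Pt L :=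
  pm (IsScalarTower.toAlgHom K N L) P

/-- the elliptic unit of index `c` at the torsion point `Q` -/
def xQ [FP] {N : Type} [Field N] [NumberField N] [Algebra K N] [DecidableEq N]
    (T : Finset (𝓞 K)) (iv : 𝓞 K → 𝓞 K) (n : 𝓞 K → ℤ) (P Q : Pt N) (c : 𝓞 K) : N :=
  ∏ a ∈ T, fq (Q + sm N a P) ^ n (c * iv a)

/-- the elliptic unit attached to a function on the residue classes -/
def XX [FP] {N : Type} [Field N] [NumberField N] [Algebra K N] [DecidableEq N] {μ : 𝓞 K}
    {H : Subgroup (CU μ)} [Fintype (U H)] (T : Finset (𝓞 K)) (iv : 𝓞 K → 𝓞 K) (n : 𝓞 K → ℤ)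
    (P J : Pt N) (c : U H → 𝓞 K) : N := ∏ u : U H, xQ T iv n P (smU J u) (c u)

/-- the logarithmic derivative of `fq` at `Q` -/
def lamQ [FP] {N : Type*} [Field N] [Algebra K N] [DecidableEq N] (Q : Pt N) : N :=
  2 * yc Q * dq Q / fq Q

/-- the base field: `F` is contained in `L = K(J)`, `J` of exact annihilator `μ`, `Gal(L/K)` acts on
`J` through the group of residue classes `H` -/
structure AB {μ : 𝓞 K} (H : Subgroup (CU μ)) (F L : Type) [Field F] [NumberField F] [Algebra K F]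
    [Field L] [NumberField L] [Algebra K L] [Algebra F L] [IsScalarTower K F L] [DecidableEq L]
    (J : Pt L) : Prop where
  gal : IsGalois K L
  ne : μ ≠ 0
  ord : Ord μ J
  gen : ∀ σ : Gal(L/K), ga σ J = J → σ = 1
  mem : ∀ σ : Gal(L/K), ∃ u : U H, ga σ J = smU J u
  surj : ∀ u : U H, ∃ σ : Gal(L/K), ga σ J = smU J u

/-- the field `L = N(J)`, `N = F(P)` -/
structure TopG [FP] {μ : 𝓞 K} (H : Subgroup (CU μ)) (ϖ : 𝓞 K) (ℓ q : ℕ) (F N L : Type) [Field F]
    [NumberField F] [Algebra K F] [Field N] [NumberField N] [Algebra K N] [Algebra F N]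
    [IsScalarTower K F N] [IsGalois F N] [DecidableEq N] [Field L] [NumberField L] [Algebra K L]
    [Algebra F L] [Algebra N L] [IsScalarTower K F L] [IsScalarTower K N L] [IsScalarTower F N L]
    [DecidableEq L] (P : Pt N) (J : Pt L) : Prop where
  pd : PD ϖ ℓ q
  gal : IsGalois K L
  full : Full F ϖ P
  ne : μ ≠ 0
  ord : Ord μ J
  nlam : ¬ μ ∣ pk
  copw : CW ℓ μ
  cu : ¬ ℓ ∣ Nat.card (U H)
  gen : ∀ σ : Gal(L/K), ga σ J = J → ga σ (up L P) = up L P → σ = 1
  mem : ∀ σ : Gal(L/K), ∃ u : U H, ga σ J = smU J u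
  surj : ∀ (u : U H) (d : 𝓞 K), ¬ ϖ ∣ d →
    ∃ σ : Gal(L/K), ga σ J = smU J u ∧ ga σ (up L P) = sm L d (up L P)
  fixF : ∀ σ : Gal(L/K), ga σ J = J → ∀ x : F, σ (algebraMap F L x) = algebraMap F L x
  odP : ∀ W : HeightOneSpectrum (𝓞 L), W.valuation L (algebraMap K L (ϖ : K)) < 1 →
    od W (tc (up L P)) = 1

section
variable {L : Type} [Field L] [NumberField L] [Algebra K L] [DecidableEq L]

/-- the classes of the automorphisms over `N` -/
def inB (N : Type) [Field N] [NumberField N] [Algebra K N] [Algebra N L] [IsScalarTower K N L]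
    {μ : 𝓞 K} {H : Subgroup (CU μ)} (J : Pt L) (b : U H) : Prop :=
  ∃ σ : Gal(L/N), ga σ J = smU J b

/-- functions modulo `ϖ` invariant under `Gal(L/N)` -/
def BI (N : Type) [Field N] [NumberField N] [Algebra K N] [Algebra N L] [IsScalarTower K N L]
    {μ : 𝓞 K} {H : Subgroup (CU μ)} (ϖ : 𝓞 K) (J : Pt L) (c : U H → 𝓞 K) : Prop :=
  ∀ b u : U H, inB N J b → ϖ ∣ c (u * b) - c u

/-- non-degeneracy at `ϖ`: the condition on the values `lamQ (u J)` -/
def ND [FP] (N : Type) [Field N] [NumberField N] [Algebra K N] [Algebra N L]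
    [IsScalarTower K N L] {μ : 𝓞 K} (H : Subgroup (CU μ)) (ϖ : 𝓞 K) (J : Pt L) : Prop :=
  ∀ c : U H → 𝓞 K, BI N ϖ J c → (∀ W : HeightOneSpectrum (𝓞 L),
    W.valuation L (algebraMap K L (ϖ : K)) < 1 →
      W.valuation L (∑ᶠ u : U H, algebraMap K L (c u : K) * lamQ (smU J u)) < 1) →
    ∀ u, ϖ ∣ c u

end

/-- the determinant of the traces of `lamQ J` (an element of the base field) -/
def dL [FP] (F L : Type) [Field F] [NumberField F] [Algebra K F] [Field L]
    [NumberField L] [Algebra K L] [Algebra F L] [IsScalarTower K F L] [DecidableEq L]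
    (J : Pt L) : F :=
  haveI : DecidableEq Gal(F/K) := Classical.decEq _
  Matrix.det (Matrix.of fun g h : Gal(F/K) => (g * h) (Algebra.trace F L (lamQ J)))

/-- convolution of functions on a finite group -/
def conv {G : Type*} [Group G] [Fintype G] (α η : G → 𝓞 K) (w : G) : 𝓞 K :=
  ∑ g : G, α (g⁻¹ * w) * η g

section
variable [FP] {F : Type*} [Field F] [Algebra K F] [DecidableEq F]

/-- `lamQ` commutes with embeddings -/
theorem lamQ_pm {F' : Type*} [Field F'] [Algebra K F'] [DecidableEq F']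
    (f : F →ₐ[K] F') (Q : Pt F) : lamQ (pm f Q) = f (lamQ Q) := by
  unfold lamQ
  rw [map_div₀, map_mul, map_mul, map_ofNat, yc_pm, dq_pm, fq_pm]

theorem lamQ_ga {k : Type*} [Field k] [Algebra K k] [Algebra k F] [IsScalarTower K k F]
    (σ : Gal(F/k)) (Q : Pt F) : lamQ (ga σ Q) = σ (lamQ Q) :=
  lamQ_pm ((σ : F →ₐ[k] F).restrictScalars K) Q

theorem fq_ga {k : Type*} [Field k] [Algebra K k] [Algebra k F] [IsScalarTower K k F]
    (σ : Gal(F/k)) (Q : Pt F) : fq (ga σ Q) = σ (fq Q) :=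
  fq_pm ((σ : F →ₐ[k] F).restrictScalars K) Q

end

end

end Pool.Agent.Lib.MP_1a91b9_nuX.DG
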