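import Pool.Agent.Lib.MP_1a91b9_nuX.DG.Defs

/-!
# embedding of `N = F(P)`

Port of MP_1a91b9_nuT/DG/Emb.lean to the curves `y² = x³ + D`.
-/

set_option autoImplicit false

namespace Pool.Agent.Lib.MP_1a91b9_nuX.DG

variable [Pool.Agent.Lib.MP_1a91b9_nuT.CD]

open NumberField IsDedekindDomain WeierstrassCurve Pool.Agent.Lib.MP_1a91b9_nuT
open Pool.Agent.Lib.MP_1a91b9_nuX.DB

noncomputable section

private theorem emb_ne {ϖ : 𝓞 K} (hϖ : Prime ϖ) {N : Type} [Field N] [Algebra K N]
    [DecidableEq N] {P : Pt N} (hP : Ord ϖ P) : P ≠ 0 := by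
  intro h
  have h1 : ϖ ∣ 1 := (hP 1).1 (by rw [h, map_zero])
  exact hϖ.not_isUnit (isUnit_of_dvd_one h1)

private theorem emb_top {ϖ : 𝓞 K} (hϖ : Prime ϖ) {F N : Type} [Field F] [NumberField F]
    [Algebra K F] [Field N] [NumberField N] [Algebra K N] [Algebra F N] [IsScalarTower K F N]
    [IsGalois F N] [DecidableEq N] {P : Pt N} (hF : Full F ϖ P) (M : IntermediateField F N)
    (hx : xc P ∈ M) (hy : yc P ∈ M) : M = ⊤ := by
  have hfin : FiniteDimensional F N := Module.Finite.of_restrictScalars_finite ℚ F N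
  have h1 : M.fixingSubgroup = ⊥ := by
    rw [eq_bot_iff]
    intro σ hσ
    rw [IntermediateField.mem_fixingSubgroup_iff] at hσ
    have hP0 : P ≠ 0 := emb_ne hϖ hF.ord
    have h2 : ga σ P = P := by
      refine pt_ext ?_ hP0 ?_ ?_
      · intro h
        exact hP0 (pm_inj ((σ : N →ₐ[F] N).restrictScalars K) (h.trans (map_zero _).symm))
      · rw [xc_ga, hσ _ hx]
      · rw [yc_ga, hσ _ hy]
    exact Subgroup.mem_bot.2 (hF.gen σ h2)
  rw [← IsGalois.fixedField_fixingSubgroup M, h1, IntermediateField.fixedField_bot]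

theorem exists_embN {ϖ : 𝓞 K} (hϖ : Prime ϖ) {F N L : Type} [Field F] [NumberField F]
    [Algebra K F] [Field N] [NumberField N] [Algebra K N] [Algebra F N] [IsScalarTower K F N]
    [IsGalois F N] [DecidableEq N] [Field L] [NumberField L] [Algebra K L] [Algebra F L]
    [IsScalarTower K F L] [DecidableEq L] {P : Pt N} (hF : Full F ϖ P) {R : Pt L}
    (hR : Ord ϖ R) : Nonempty (N →ₐ[F] L) := by
  classical
  obtain ⟨jK⟩ := exists_emb L
  letI aF : Algebra F ℂ := (jK.toRingHom.comp (algebraMap F L)).toAlgebra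
  have hmap : ∀ x : F, algebraMap F ℂ x = jK (algebraMap F L x) := fun _ => rfl
  haveI tF : IsScalarTower K F ℂ := by
    refine IsScalarTower.of_algebraMap_eq fun x => ?_
    rw [hmap, ← IsScalarTower.algebraMap_apply K F L, AlgHom.commutes]
  have hfin : FiniteDimensional F N := Module.Finite.of_restrictScalars_finite ℚ F N
  let g : N →ₐ[F] ℂ := IsAlgClosed.lift
  let j : L →ₐ[F] ℂ := { jK.toRingHom with commutes' := fun _ => rfl }
  have hj : ∀ x : L, j x = jK x := fun _ => rfl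
  have hP' : Ord ϖ (pm (g.restrictScalars K) P) := (Ord.map _).2 hF.ord
  have hR' : Ord ϖ (pm jK R) := (Ord.map _).2 hR
  obtain ⟨c, hc⟩ := ord_cases (AlgHom.id K ℂ) hϖ.ne_zero hR' ((hP' ϖ).2 dvd_rfl)
  rw [← pm_sm] at hc
  have hx : g (xc P) = j (xc (sm L c R)) := by
    have h1 := congrArg xc hc
    rw [xc_pm, xc_pm] at h1
    exact h1
  have hy : g (yc P) = j (yc (sm L c R)) := by
    have h1 := congrArg yc hc
    rw [yc_pm, yc_pm] at h1
    exact h1
  have hM : IntermediateField.comap g j.fieldRange = ⊤ :=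
    emb_top hϖ hF _ ⟨_, hx.symm⟩ ⟨_, hy.symm⟩
  have hr : ∀ x : N, g x ∈ j.range := by
    intro x
    have h1 : x ∈ IntermediateField.comap g j.fieldRange := by
      rw [hM]
      exact IntermediateField.mem_top
    exact h1
  have e : L ≃ₐ[F] j.range := AlgEquiv.ofInjectiveField j
  exact ⟨(e.symm : j.range →ₐ[F] L).comp (g.codRestrict j.range hr)⟩

end

end Pool.Agent.Lib.MP_1a91b9_nuX.DG
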