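import Pool.Agent.Lib.MP_1a91b9_nuX.DB.DistX
import Pool.Agent.Lib.MP_1a91b9_nuX.DB.ValE
import Pool.Agent.Lib.MP_1a91b9_nuX.DB.Pd
import Pool.Agent.Lib.MP_1a91b9_nuT.Mult.MulA

/-!
# The function `fq`: the denominator of the multiplication by a fixed element

`FP` fixes an element `a` of `𝓞 K`, not `0` and not a unit, prime to `2`; `fq Q` is the value at `x(Q)` of the
denominator of the multiplication by `a` on the abscissae.
-/

set_option autoImplicit false

namespace Pool.Agent.Lib.MP_1a91b9_nuX.DG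

open NumberField IsDedekindDomain WeierstrassCurve Pool.Agent.Lib.MP_1a91b9_nuT
open Pool.Agent.Lib.MP_1a91b9_nuX.DB
open Pool.Agent.Lib.MP_1a91b9_nuT.Mult (mulD mulN mul_spec div_mem)
open S3 (X Y)

noncomputable section

variable [CD]

/-- the auxiliary element -/
class FP where
  a : 𝓞 K
  ne : a ≠ 0
  nu : ¬ IsUnit a
  two : IsCoprime (2 : 𝓞 K) a

/-- the auxiliary element -/
def pk [FP] : 𝓞 K := FP.a

theorem pk_ne [FP] : (pk : 𝓞 K) ≠ 0 := FP.ne

theorem pk_nu [FP] : ¬ IsUnit (pk : 𝓞 K) := FP.nu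

theorem pk_two [FP] : IsCoprime (2 : 𝓞 K) pk := FP.two

/-- the denominator over a field -/
def dpoly [FP] (F : Type*) [Field F] [Algebra K F] : Polynomial F :=
  (mulD pk).map (algebraMap K F)

/-- the value of the denominator of the multiplication by `pk` at `x(Q)` -/
def fq [FP] {F : Type*} [Field F] [Algebra K F] (Q : Pt F) : F := (dpoly F).eval (xc Q)

/-- the value of the derivative of the denominator at `x(Q)` -/
def dq [FP] {F : Type*} [Field F] [Algebra K F] (Q : Pt F) : F := (dpoly F).derivative.eval (xc Q)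

variable [FP]

theorem dpoly_map {F F' : Type*} [Field F] [Algebra K F] [Field F'] [Algebra K F']
    (f : F →ₐ[K] F') : (dpoly F).map (f : F →+* F') = dpoly F' := by
  unfold dpoly
  rw [Polynomial.map_map]
  congr 1
  ext x
  exact f.commutes x

theorem dpoly_lead (F : Type*) [Field F] [Algebra K F] :
    (dpoly F).leadingCoeff = algebraMap K F ((pk : 𝓞 K) : K) ^ 2 := by
  unfold dpoly
  rw [Polynomial.leadingCoeff_map, (mul_spec pk_ne).2.2.2.1, map_pow]

theorem dpoly_deg (F : Type*) [Field F] [Algebra K F] :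
    (dpoly F).natDegree + 1 = Ideal.absNorm (Ideal.span {(pk : 𝓞 K)}) := by
  unfold dpoly
  rw [Polynomial.natDegree_map, (mul_spec pk_ne).2.2.1]

section
variable {F F' : Type*} [Field F] [Algebra K F] [Field F'] [Algebra K F'] [DecidableEq F]
  [DecidableEq F']

theorem pk_emb_ne : algebraMap K F ((pk : 𝓞 K) : K) ≠ 0 := by
  intro h
  apply pk_ne
  apply RingOfIntegers.ext
  exact (algebraMap K F).injective (h.trans (map_zero _).symm)

theorem fq_pm (f : F →ₐ[K] F') (Q : Pt F) : fq (pm f Q) = f (fq Q) := by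
  unfold fq
  rw [xc_pm, ← dpoly_map f]
  exact Polynomial.eval_map_apply (f : F →+* F') (xc Q)

theorem dq_pm (f : F →ₐ[K] F') (Q : Pt F) : dq (pm f Q) = f (dq Q) := by
  unfold dq
  rw [xc_pm, ← dpoly_map f, Polynomial.derivative_map]
  exact Polynomial.eval_map_apply (f : F →+* F') (xc Q)

/-- two points with the same abscissa -/
theorem xc_cases {P Q : Pt F} (hP : P ≠ 0) (hQ : Q ≠ 0) (h : xc P = xc Q) : P = Q ∨ P = -Q := by
  obtain ⟨h1, e1⟩ := exists_mk hP
  obtain ⟨h2, e2⟩ := exists_mk hQ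
  have h3 : (yc P - yc Q) * (yc P + yc Q) = 0 := by
    rw [h] at h1
    linear_combination h1 - h2
  rcases mul_eq_zero.1 h3 with h4 | h4
  · exact Or.inl (pt_ext hP hQ h (sub_eq_zero.1 h4))
  · right
    rw [e2, neg_mk, e1, mk_inj]
    exact ⟨h, by linear_combination h4⟩

end

/-- the zeros of the denominator over `ℂ` -/
theorem fq_zero_C [DecidableEq ℂ] {Q : Pt ℂ} (hQ : Q ≠ 0) (h : fq Q = 0) : sm ℂ pk Q = 0 := by
  obtain ⟨u, hus, hu0, hu1, hub⟩ := exists_uni
  obtain ⟨z, rfl⟩ := hus Q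
  have hz : z ∉ PP.lattice := fun h1 => hQ ((hu0 z).2 h1)
  rw [← hub, hu0]
  by_contra hc
  obtain ⟨-, -, -, -, hcop, hmul, -⟩ := mul_spec (pk_ne)
  have h1 := hmul z hz hc
  have h2 : ((mulD pk).map (embK.toRingHom : K →+* ℂ)).eval (PP.weierstrassP z / Om ^ 2) = 0 := by
    have h3 := (hu1 z hz).1
    unfold fq at h
    rw [h3] at h
    exact h
  rw [h2, mul_zero] at h1
  obtain ⟨a, b, hab⟩ := hcop
  have h4 := congrArg (fun p => (Polynomial.map (embK.toRingHom : K →+* ℂ) p).eval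
    (PP.weierstrassP z / Om ^ 2)) hab
  simp only [Polynomial.map_add, Polynomial.map_mul, Polynomial.eval_add, Polynomial.eval_mul,
    Polynomial.map_one, Polynomial.eval_one] at h4
  rw [h1, h2, mul_zero, mul_zero, add_zero] at h4
  exact zero_ne_one h4

section
variable {F : Type*} [Field F] [Algebra K F] [DecidableEq F]

/-- the zeros of the denominator -/
theorem fq_zero (f : F →ₐ[K] ℂ) {Q : Pt F} (hQ : Q ≠ 0) (h : fq Q = 0) : sm F pk Q = 0 := by
  classical
  have h1 : sm ℂ pk (pm f Q) = 0 := by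
    refine fq_zero_C (fun e => hQ (pm_inj f (e.trans (map_zero _).symm))) ?_
    rw [fq_pm, h, map_zero]
  rw [← pm_sm] at h1
  exact pm_inj f (h1.trans (map_zero _).symm)

theorem fq_ne (f : F →ₐ[K] ℂ) {Q : Pt F} (h : sm F pk Q ≠ 0) : fq Q ≠ 0 := by
  intro e
  refine h (fq_zero f (fun e0 => ?_) e)
  rw [e0, map_zero] at h
  exact h rfl

/-- the roots of the denominator over an algebraically closed field -/
theorem root_pt [IsAlgClosed F] (f : F →ₐ[K] ℂ) {r : F} (hr : r ∈ (dpoly F).roots) :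
    ∃ s : Pt F, s ≠ 0 ∧ xc s = r ∧ sm F pk s = 0 := by
  obtain ⟨y, hy⟩ := IsAlgClosed.exists_pow_nat_eq (r ^ 3 + cA F * r + cB F) (n := 2) two_pos
  refine ⟨mkPt r y hy, mk_ne_zero _ _ _, rfl, fq_zero f (mk_ne_zero _ _ _) ?_⟩
  exact (Polynomial.mem_roots'.1 hr).2

theorem fq_prod [IsAlgClosed F] (Q : Pt F) : fq Q = algebraMap K F ((pk : 𝓞 K) : K) ^ 2 *
    ((dpoly F).roots.map (xc Q - ·)).prod := by
  unfold fq
  rw [(IsAlgClosed.splits (dpoly F)).eval_eq_prod_roots, dpoly_lead]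

end

end

end Pool.Agent.Lib.MP_1a91b9_nuX.DG
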