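import Pool.Agent.Lib.MP_1a91b9_nuX.DG.FqV

/-!
# The distribution relation of `fq`
-/

set_option autoImplicit false

namespace Pool.Agent.Lib.MP_1a91b9_nuX.DG

open NumberField IsDedekindDomain WeierstrassCurve Pool.Agent.Lib.MP_1a91b9_nuT
open Pool.Agent.Lib.MP_1a91b9_nuX.DB
open Pool.Agent.Lib.MP_1a91b9_nuT.Mult (mulD mulN mul_spec div_mem)
open S3 (X Y)

noncomputable section

variable [CD]

/-- representatives modulo a nonzero element -/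
theorem exists_rep {a : 𝓞 K} (ha : a ≠ 0) : ∃ (ι : Type) (_ : Fintype ι) (_ : DecidableEq ι)
    (ρ : ι → 𝓞 K) (i₀ : ι), (∀ x : 𝓞 K, ∃! i, a ∣ x - ρ i) ∧ a ∣ ρ i₀ ∧
    Fintype.card ι = Ideal.absNorm (Ideal.span {a}) := by
  classical
  have hne : Ideal.span {a} ≠ (⊥ : Ideal (𝓞 K)) := by
    rwa [Ne, Ideal.span_singleton_eq_bot]
  have hfin : Finite (𝓞 K ⧸ Ideal.span {a}) := Ideal.finiteQuotientOfFreeOfNeBot _ hne
  have hmk : ∀ x y : 𝓞 K, Ideal.Quotient.mk (Ideal.span {a}) x = Ideal.Quotient.mk _ y ↔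
      a ∣ x - y := by
    intro x y
    rw [Ideal.Quotient.mk_eq_mk_iff_sub_mem, Ideal.mem_span_singleton]
  have hσ1 : ∀ g : 𝓞 K ⧸ Ideal.span {a}, Ideal.Quotient.mk (Ideal.span {a}) (Quotient.out g) = g :=
    fun g => Quotient.out_eq g
  let iF : Fintype (𝓞 K ⧸ Ideal.span {a}) := Fintype.ofFinite _
  refine ⟨𝓞 K ⧸ Ideal.span {a}, iF, inferInstance, fun g => Quotient.out g, 0,
    fun x => ⟨Ideal.Quotient.mk _ x, ?_, fun g hg => ?_⟩, ?_, ?_⟩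
  · show a ∣ x - Quotient.out (Ideal.Quotient.mk (Ideal.span {a}) x)
    rw [← hmk, hσ1]
  · have hg' : a ∣ x - Quotient.out g := hg
    rw [← hmk, hσ1] at hg'
    exact hg'.symm
  · have h1 := (hmk (Quotient.out (0 : 𝓞 K ⧸ Ideal.span {a})) 0).1 (by rw [hσ1, map_zero])
    rwa [sub_zero] at h1
  · rw [← Nat.card_eq_fintype_card]
    rfl

/-- representatives multiplied by a unit modulo `a` -/
theorem rep_mul {a b : 𝓞 K} (hab : IsCoprime a b) {ι : Type} {ρ : ι → 𝓞 K}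
    (hρ : ∀ x : 𝓞 K, ∃! i, a ∣ x - ρ i) (x : 𝓞 K) : ∃! i, a ∣ x - b * ρ i := by
  obtain ⟨u, w, huw⟩ := hab
  obtain ⟨i, hi, hu⟩ := hρ (w * x)
  refine ⟨i, ?_, fun j hj => hu j ?_⟩
  · obtain ⟨c, hc⟩ := hi
    exact ⟨u * x + b * c, by linear_combination b * hc - x * huw⟩
  · obtain ⟨c, hc⟩ := hj
    exact ⟨w * c - u * ρ j, by linear_combination w * hc + ρ j * huw⟩

theorem emb_mul (a b : 𝓞 K) : embK ((a * b : 𝓞 K) : K) = embK (a : K) * embK (b : K) := by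
  have e : ((a * b : 𝓞 K) : K) = (a : K) * (b : K) := rfl
  rw [e, map_mul]

variable [FP]

theorem fq_eval_C {ι : Type} [Fintype ι] [DecidableEq ι] {ρ : ι → 𝓞 K}
    (hρ : ∀ x : 𝓞 K, ∃! i, pk ∣ x - ρ i) {i₀ : ι} (h0 : pk ∣ ρ i₀) (Q : Pt ℂ) :
    fq Q = embK ((pk : 𝓞 K) : K) ^ 2 *
      ∏ i ∈ Finset.univ.erase i₀, (xc Q - X (embK (ρ i : K) / embK ((pk : 𝓞 K) : K))) :=
  (mul_spec pk_ne).2.2.2.2.2.2 ι ρ hρ i₀ h0 (xc Q)

private theorem dist_fq_C [DecidableEq ℂ] {β : 𝓞 K} (hβ0 : β ≠ 0) (hc : IsCoprime β pk)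
    {T : Finset (𝓞 K)} (hT : IsRes β T) {Rb A : Pt ℂ} (hRb : Ord β Rb)
    (hA : sm ℂ pk (sm ℂ β A) ≠ 0) :
    fq A * ∏ a ∈ T, fq (A + sm ℂ a Rb) =
      embK (β : K) ^ (2 * (Ideal.absNorm (Ideal.span {(pk : 𝓞 K)}) - 1)) *
        (∏ a ∈ T, fq (sm ℂ a Rb)) * fq (sm ℂ β A) := by
  obtain ⟨ι, iF, iD, ρ, i₀, hρ, h0, hcard⟩ := exists_rep (pk_ne)
  obtain ⟨u, hus, hu0, hu1, hub⟩ := exists_uni
  have hβA : sm ℂ β A ≠ 0 := fun e => hA (by rw [e, map_zero])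
  have hρ' : ∀ x : 𝓞 K, ∃! i, pk ∣ x - β * ρ i := rep_mul hc.symm hρ
  have h0' : pk ∣ β * ρ i₀ := h0.mul_left _
  have hni : ∀ i ∈ Finset.univ.erase i₀, ¬ pk ∣ ρ i := by
    intro i hi hd
    obtain ⟨k, -, hk⟩ := hρ 0
    apply (Finset.mem_erase.1 hi).1
    have e : ∀ j, pk ∣ ρ j → j = k := fun j hj => hk j (by
      change pk ∣ 0 - ρ j
      rw [zero_sub]
      exact (dvd_neg).2 hj)
    rw [e i hd, e i₀ h0]
  -- the points
  obtain ⟨s, hs⟩ : ∃ s : ι → Pt ℂ, ∀ i, s i = u (embK (ρ i : K) / embK ((pk : 𝓞 K) : K)) :=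
    ⟨_, fun _ => rfl⟩
  have hnm : ∀ c : 𝓞 K, ¬ pk ∣ c → embK (c : K) / embK ((pk : 𝓞 K) : K) ∉ PP.lattice :=
    fun c hc1 hm => hc1 ((div_mem pk_ne c).1 hm)
  have hcopβ : ∀ i ∈ Finset.univ.erase i₀, ¬ pk ∣ β * ρ i := fun i hi hd =>
    hni i hi (hc.symm.dvd_of_dvd_mul_left hd)
  have hcop2 : ∀ i ∈ Finset.univ.erase i₀, ¬ pk ∣ 2 * (β * ρ i) := fun i hi hd =>
    hcopβ i hi (pk_two.symm.dvd_of_dvd_mul_left hd)
  have hx : ∀ i ∈ Finset.univ.erase i₀, xc (s i) = X (embK (ρ i : K) / embK ((pk : 𝓞 K) : K)) := by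
    intro i hi
    rw [hs]
    exact (hu1 _ (hnm _ (hni i hi))).1
  have hsβ : ∀ i, sm ℂ β (s i) = u (embK ((β * ρ i : 𝓞 K) : K) / embK ((pk : 𝓞 K) : K)) := by
    intro i
    rw [hs, ← hub, ← mul_div_assoc, ← emb_mul]
  have hxβ : ∀ i ∈ Finset.univ.erase i₀, xc (sm ℂ β (s i)) =
      X (embK ((β * ρ i : 𝓞 K) : K) / embK ((pk : 𝓞 K) : K)) := by
    intro i hi
    rw [hsβ]
    exact (hu1 _ (hnm _ (hcopβ i hi))).1
  have key : ∀ i ∈ Finset.univ.erase i₀,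
      (xc A - xc (s i)) * ∏ a ∈ T, (xc (A + sm ℂ a Rb) - xc (s i)) =
      embK (β : K) ^ 2 * (∏ a ∈ T, (xc (sm ℂ a Rb) - xc (s i))) *
        (xc (sm ℂ β A) - xc (sm ℂ β (s i))) := by
    intro i hi
    have hsn : sm ℂ β (s i) ≠ 0 := by
      rw [hsβ]
      intro e
      exact hnm _ (hcopβ i hi) ((hu0 _).1 e)
    refine distx (AlgHom.id K ℂ) hβ0 hT hRb hβA ?_ ?_
    · rw [← sm_nat, hsβ, ← hub, ← mul_div_assoc, ← emb_mul]
      intro e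
      refine hnm _ ?_ ((hu0 _).1 e)
      exact_mod_cast hcop2 i hi
    · intro e
      apply hA
      have hk : sm ℂ pk (sm ℂ β (s i)) = 0 := by
        rw [hsβ, ← hub, hu0, mul_div_cancel₀ _ (Mult.embK_ne_zero pk_ne)]
        exact S3.embK_mem _
      rcases xc_cases hβA hsn e with h1 | h1
      · rw [h1, hk]
      · rw [h1, map_neg, hk, neg_zero]
  have hprod := Finset.prod_congr rfl key
  rw [Finset.prod_mul_distrib, Finset.prod_mul_distrib, Finset.prod_mul_distrib,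
    Finset.prod_const, Finset.card_erase_of_mem (Finset.mem_univ _), Finset.card_univ, hcard,
    Finset.prod_comm, Finset.prod_comm (s := Finset.univ.erase i₀) (t := T)
      (f := fun i a => xc (sm ℂ a Rb) - xc (s i))] at hprod
  have hf : ∀ Q : Pt ℂ, fq Q = embK ((pk : 𝓞 K) : K) ^ 2 *
      ∏ i ∈ Finset.univ.erase i₀, (xc Q - xc (s i)) := by
    intro Q
    rw [fq_eval_C hρ h0 Q]
    congr 1
    exact Finset.prod_congr rfl fun i hi => by rw [hx i hi]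
  have hfβ : fq (sm ℂ β A) = embK ((pk : 𝓞 K) : K) ^ 2 *
      ∏ i ∈ Finset.univ.erase i₀, (xc (sm ℂ β A) - xc (sm ℂ β (s i))) := by
    rw [fq_eval_C hρ' h0' (sm ℂ β A)]
    congr 1
    exact Finset.prod_congr rfl fun i hi => by rw [hxβ i hi]
  rw [hf A, hfβ, Finset.prod_congr rfl fun a _ => hf (A + sm ℂ a Rb),
    Finset.prod_congr rfl fun a _ => hf (sm ℂ a Rb), Finset.prod_mul_distrib,
    Finset.prod_mul_distrib, pow_mul]
  linear_combination (embK ((pk : 𝓞 K) : K) ^ 2 *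
    ∏ a ∈ T, embK ((pk : 𝓞 K) : K) ^ 2) * hprod

/-- **the distribution relation** -/
theorem dist_fq {F : Type*} [Field F] [Algebra K F] [DecidableEq F] (f : F →ₐ[K] ℂ) {β : 𝓞 K}
    (hβ0 : β ≠ 0) (hc : IsCoprime β pk) {T : Finset (𝓞 K)} (hT : IsRes β T) {Rb A : Pt F}
    (hRb : Ord β Rb) (hA : sm F pk (sm F β A) ≠ 0) :
    fq A * ∏ a ∈ T, fq (A + sm F a Rb) =
      algebraMap K F (β : K) ^ (2 * (Ideal.absNorm (Ideal.span {(pk : 𝓞 K)}) - 1)) *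
        (∏ a ∈ T, fq (sm F a Rb)) * fq (sm F β A) := by
  classical
  have h1 := dist_fq_C hβ0 hc hT ((Ord.map f).2 hRb) (A := pm f A) (by
    rw [← pm_sm, ← pm_sm]
    intro e
    exact hA (pm_inj f (e.trans (map_zero _).symm)))
  apply f.toRingHom.injective
  change f _ = f _
  rw [map_mul, map_mul, map_mul, map_pow, AlgHom.commutes, algebraMap_eq, map_prod, map_prod]
  simp only [← fq_pm, map_add, pm_sm]
  exact h1

end

end Pool.Agent.Lib.MP_1a91b9_nuX.DG
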