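import Pool.Agent.Lib.MP_1a91b9_nuX.DG.Defs

/-!
# `Gal(F/K)` as a quotient of the group `H`
-/

set_option autoImplicit false

namespace Pool.Agent.Lib.MP_1a91b9_nuX.DG

variable [Pool.Agent.Lib.MP_1a91b9_nuT.CD]

open NumberField IsDedekindDomain WeierstrassCurve Pool.Agent.Lib.MP_1a91b9_nuT
open Pool.Agent.Lib.MP_1a91b9_nuX.DB

noncomputable section

section
variable {μ : 𝓞 K} {H : Subgroup (CU μ)} {F L' : Type} [Field F] [NumberField F] [Algebra K F]
  [Field L'] [NumberField L'] [Algebra K L'] [Algebra F L'] [IsScalarTower K F L']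
  [DecidableEq L'] {J' : Pt L'} (hAB : AB H F L' J')
include hAB

private theorem GALU_act (σ : Gal(L'/K)) : ∃ u : U H, ga σ J' = smU J' u := hAB.mem σ

private theorem GALU_surj (u : U H) : ∃ σ : Gal(L'/K), ga σ J' = smU J' u := hAB.surj u

private theorem GALU_inj {σ τ : Gal(L'/K)} (h : ga σ J' = ga τ J') : σ = τ := by
  have h1 : ga (τ⁻¹ * σ) J' = J' := by rw [ga_mul, h, ← ga_mul, inv_mul_cancel, ga_one]
  exact (inv_mul_eq_one.1 (hAB.gen _ h1)).symm

private theorem GALU_mul {σ τ : Gal(L'/K)} {u v : U H} (h1 : ga σ J' = smU J' u)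
    (h2 : ga τ J' = smU J' v) : ga (σ * τ) J' = smU J' (u * v) := by
  rw [ga_mul, h2, mul_comm u v, ← smU_mul hAB.ord, ← h1]
  unfold smU
  rw [ga_sm]

private theorem GALU_comm (σ τ : Gal(L'/K)) : σ * τ = τ * σ := by
  obtain ⟨u, hu⟩ := GALU_act hAB σ
  obtain ⟨v, hv⟩ := GALU_act hAB τ
  refine GALU_inj hAB ?_
  rw [GALU_mul hAB hu hv, GALU_mul hAB hv hu, mul_comm]

theorem AB.galF : IsGalois K F := by
  have := hAB.gal
  have : IsGalois F L' := IsGalois.tower_top_of_isGalois K F L'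
  have h1 : Normal K (IsScalarTower.toAlgHom K F L').fieldRange := by
    rw [IntermediateField.normal_iff_forall_map_le']
    rintro σ _ ⟨_, ⟨y, rfl⟩, rfl⟩
    have h2 : ∀ ρ : Gal(L'/F), ρ (σ (algebraMap F L' y)) = σ (algebraMap F L' y) := by
      intro ρ
      have h3 := congrArg (fun τ : Gal(L'/K) => τ (algebraMap F L' y))
        (GALU_comm hAB (AlgEquiv.restrictScalars K ρ) σ)
      have h4 : ρ (σ (algebraMap F L' y)) = σ (ρ (algebraMap F L' y)) := h3
      rw [h4, ρ.commutes]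
    obtain ⟨z, hz⟩ := (IsGalois.mem_range_algebraMap_iff_fixed _).2 h2
    exact ⟨z, hz⟩
  have h5 : IsGalois K (IsScalarTower.toAlgHom K F L').fieldRange := { to_normal := h1 }
  have e : (IsScalarTower.toAlgHom K F L').fieldRange ≃ₐ[K] F :=
    (AlgEquiv.ofInjectiveField (IsScalarTower.toAlgHom K F L')).symm
  exact IsGalois.of_algEquiv e

private theorem GALU_lift (g : Gal(F/K)) : ∃ σ : Gal(L'/K), ∀ x : F,
    algebraMap F L' (g x) = σ (algebraMap F L' x) := by
  have := hAB.gal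
  have := hAB.galF
  obtain ⟨σ, rfl⟩ := AlgEquiv.restrictNormalHom_surjective (F := K) (K₁ := F) L' g
  exact ⟨σ, fun x => AlgEquiv.restrictNormal_commutes σ F x⟩

theorem AB.commF (a b : Gal(F/K)) : a * b = b * a := by
  obtain ⟨σ, hσ⟩ := GALU_lift hAB a
  obtain ⟨τ, hτ⟩ := GALU_lift hAB b
  refine AlgEquiv.ext fun x => ?_
  refine (algebraMap F L').injective ?_
  rw [AlgEquiv.mul_apply, AlgEquiv.mul_apply, hσ, hτ, hτ, hσ]
  exact congrArg (fun ρ : Gal(L'/K) => ρ (algebraMap F L' x)) (GALU_comm hAB σ τ)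

theorem AB.exists_res : ∃ res : U H →* Gal(F/K), Function.Surjective res ∧
    ∀ (σ : Gal(L'/K)) (u : U H), ga σ J' = smU J' u →
      ∀ x : F, algebraMap F L' (res u x) = σ (algebraMap F L' x) := by
  have := hAB.gal
  have := hAB.galF
  choose s hs using GALU_surj hAB
  let s' : U H →* Gal(L'/K) := MonoidHom.mk' s fun u v => GALU_inj hAB (by
    rw [hs, GALU_mul hAB (hs u) (hs v)])
  refine ⟨(AlgEquiv.restrictNormalHom F).comp s', ?_, ?_⟩
  · intro g
    obtain ⟨σ, rfl⟩ := AlgEquiv.restrictNormalHom_surjective (F := K) (K₁ := F) L' g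
    obtain ⟨u, hu⟩ := GALU_act hAB σ
    refine ⟨u, ?_⟩
    have h1 : s u = σ := GALU_inj hAB ((hs u).trans hu.symm)
    rw [MonoidHom.comp_apply]
    exact congrArg _ h1
  · intro σ u hu x
    have h1 : s u = σ := GALU_inj hAB ((hs u).trans hu.symm)
    rw [← h1]
    exact AlgEquiv.restrictNormal_commutes (s u) F x

variable [FP]

theorem AB.trace_res [Fintype (U H)] {res : U H →* Gal(F/K)}
    (hres : ∀ (σ : Gal(L'/K)) (u : U H), ga σ J' = smU J' u →
      ∀ x : F, algebraMap F L' (res u x) = σ (algebraMap F L' x)) (g : Gal(F/K)) :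
    algebraMap F L' (g (Algebra.trace F L' (lamQ J'))) =
      ∑ u : U H, haveI := Classical.dec (res u = g); if res u = g then lamQ (smU J' u) else 0 := by
  classical
  have := hAB.gal
  have : IsGalois F L' := IsGalois.tower_top_of_isGalois K F L'
  obtain ⟨σ1, hσ1⟩ := GALU_lift hAB g
  have hR : (∑ u : U H, haveI := Classical.dec (res u = g); if res u = g then lamQ (smU J' u) else 0) =
      ∑ u ∈ Finset.univ.filter (fun u : U H => res u = g), lamQ (smU J' u) := by
    rw [Finset.sum_filter]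
  rw [hR, hσ1, trace_eq_sum_automorphisms, map_sum]
  choose cl hcl using GALU_act hAB
  refine Finset.sum_bij (fun (τ : Gal(L'/F)) _ => cl (σ1 * AlgEquiv.restrictScalars K τ)) ?_ ?_ ?_ ?_
  · intro τ _
    rw [Finset.mem_filter]
    refine ⟨Finset.mem_univ _, AlgEquiv.ext fun x => (algebraMap F L').injective ?_⟩
    rw [hres _ _ (hcl (σ1 * AlgEquiv.restrictScalars K τ)) x, hσ1, AlgEquiv.mul_apply,
      AlgEquiv.restrictScalars_apply, τ.commutes]
  · intro τ _ τ' _ h
    have h1 : σ1 * AlgEquiv.restrictScalars K τ = σ1 * AlgEquiv.restrictScalars K τ' :=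
      GALU_inj hAB (by rw [hcl, hcl, h])
    have h2 := mul_left_cancel h1
    refine AlgEquiv.ext fun x => ?_
    exact congrArg (fun ρ : Gal(L'/K) => ρ x) h2
  · intro u hu
    rw [Finset.mem_filter] at hu
    obtain ⟨σ, hσ⟩ := GALU_surj hAB u
    have h9 : ∀ x : F, (σ1⁻¹ * σ) (algebraMap F L' x) = algebraMap F L' x := by
      intro x
      rw [AlgEquiv.mul_apply, ← hres σ u hσ x, hu.2, hσ1, ← AlgEquiv.mul_apply, inv_mul_cancel,
        AlgEquiv.one_apply]
    refine ⟨AlgEquiv.ofRingEquiv (f := (σ1⁻¹ * σ : Gal(L'/K)).toRingEquiv) h9, Finset.mem_univ _, ?_⟩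
    refine smU_inj hAB.ord ?_
    rw [← hcl, ← hσ]
    have h10 : σ1 * AlgEquiv.restrictScalars K
        (AlgEquiv.ofRingEquiv (f := (σ1⁻¹ * σ : Gal(L'/K)).toRingEquiv) h9) = σ := by
      refine AlgEquiv.ext fun x => ?_
      show σ1 ((σ1⁻¹ * σ) x) = σ x
      rw [← AlgEquiv.mul_apply, mul_inv_cancel_left]
    rw [h10]
  · intro τ _
    rw [← hcl, lamQ_ga]
    rfl

end

end

end Pool.Agent.Lib.MP_1a91b9_nuX.DG
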