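import Pool.Agent.Lib.MP_1a91b9_nuX.DG.Dec
import Pool.Agent.Lib.MP_1a91b9_nuX.AN.Unfold
import Pool.Agent.Lib.MP_1a91b9_nuT.CF.Frob
import Pool.Agent.Lib.MP_1a91b9_nuT.DG.ZDefs
import Pool.Agent.Lib.MP_1a91b9_nuT.S4.LComp

/-!
# The L-series of the characters
-/

set_option autoImplicit false

namespace Pool.Agent.Lib.MP_1a91b9_nuX.DG

variable [Pool.Agent.Lib.MP_1a91b9_nuT.CD]

open NumberField IsDedekindDomain WeierstrassCurve Pool.Agent.Lib.MP_1a91b9_nuT
open Pool.Agent.Lib.MP_1a91b9_nuX.DB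

noncomputable section

variable [HC]

/-- the character of the ideals prime to `μ` attached to `χ` -/
def XI {μ : 𝓞 K} {H : Subgroup (CU μ)} {G : Type} [Group G] (res : U H →* G) (χ : G →* ℂ)
    (I : Ideal (𝓞 K)) : ℂ :=
  haveI := Classical.dec (IsCoprime I (Ideal.span {μ}) ∧ ∃ u : U H, μ ∣ ps I - rp u)
  if h : IsCoprime I (Ideal.span {μ}) ∧ ∃ u : U H, μ ∣ ps I - rp u then
    χ (res h.2.choose) else 0

section
variable {μ : 𝓞 K} {H : Subgroup (CU μ)} {G : Type} [Group G] (res : U H →* G) (χ : G →* ℂ)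

private theorem lch_of {I : Ideal (𝓞 K)} (hI : IsCoprime I (Ideal.span {μ})) {u : U H}
    (hu : μ ∣ ps I - rp u) : XI res χ I = χ (res u) := by
  have h : IsCoprime I (Ideal.span {μ}) ∧ ∃ u : U H, μ ∣ ps I - rp u := ⟨hI, u, hu⟩
  unfold XI
  rw [dif_pos h]
  have h1 : h.2.choose = u := by
    apply rp_inj
    have h2 := dvd_sub hu h.2.choose_spec
    rwa [sub_sub_sub_cancel_left] at h2
  rw [h1]

private theorem lch_not {I : Ideal (𝓞 K)} (hI : ¬ IsCoprime I (Ideal.span {μ})) :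
    XI res χ I = 0 := by
  unfold XI
  rw [dif_neg (fun h => hI h.1)]

private theorem lch_mul (hex : ∀ I : Ideal (𝓞 K), IsCoprime I (Ideal.span {μ}) →
    ∃ u : U H, μ ∣ ps I - rp u) (I J : Ideal (𝓞 K)) :
    XI res χ (I * J) = XI res χ I * XI res χ J := by
  by_cases hI : IsCoprime I (Ideal.span {μ})
  · by_cases hJ : IsCoprime J (Ideal.span {μ})
    · obtain ⟨u, hu⟩ := hex I hI
      obtain ⟨w, hw⟩ := hex J hJ
      have h1 : μ ∣ ps (I * J) - rp (u * w) := by
        have e : ps (I * J) - rp (u * w) = (ps I - rp u) * ps J +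
            rp u * (ps J - rp w) - (rp (u * w) - rp u * rp w) := by
          rw [AN.ps_mul]
          ring
        rw [e]
        exact dvd_sub (dvd_add (hu.mul_right _) (hw.mul_left _)) (rp_mul u w)
      rw [lch_of res χ hI hu, lch_of res χ hJ hw, lch_of res χ (hI.mul_left hJ) h1, map_mul, map_mul]
    · rw [lch_not res χ hJ, mul_zero, lch_not]
      exact fun h => hJ h.of_mul_left_right
  · rw [lch_not res χ hI, zero_mul, lch_not]
    exact fun h => hI h.of_mul_left_left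

private theorem lch_one : XI res χ 1 = 1 := by
  have h1 : μ ∣ ps 1 - rp (1 : U H) := by
    have h2 := rp_one (μ := μ) (H := H)
    rwa [← dvd_neg, neg_sub, ← AN.ps_one] at h2
  rw [lch_of res χ isCoprime_one_left h1, map_one, map_one]

private theorem lch_norm (hex : ∀ I : Ideal (𝓞 K), IsCoprime I (Ideal.span {μ}) →
    ∃ u : U H, μ ∣ ps I - rp u) (h : ∀ g, ‖χ g‖ = 1) (I : Ideal (𝓞 K)) :
    ‖XI res χ I‖ ≤ 1 := by
  by_cases hI : IsCoprime I (Ideal.span {μ})
  · obtain ⟨u, hu⟩ := hex I hI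
    rw [lch_of res χ hI hu, h]
  · rw [lch_not res χ hI, norm_zero]
    exact zero_le_one

end

omit [HC] in
private theorem lch_cpow (q n : ℕ) (s : ℂ) : ((q ^ n : ℕ) : ℂ) ^ s = ((q : ℂ) ^ s) ^ n := by
  induction n with
  | zero => rw [pow_zero, pow_zero, Nat.cast_one, Complex.one_cpow]
  | succ n ih => rw [pow_succ, Nat.cast_mul, Complex.natCast_mul_natCast_cpow, ih, pow_succ]

omit [HC] in
private theorem lch_embpow (β : 𝓞 K) (n : ℕ) :
    (starRingEnd ℂ) (embK (((β ^ n : 𝓞 K)) : K)) = ((starRingEnd ℂ) (embK (β : K))) ^ n := by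
  have e : (((β ^ n : 𝓞 K)) : K) = (β : K) ^ n := map_pow (algebraMap (𝓞 K) K) β n
  rw [e, map_pow, map_pow]

section
variable {μ : 𝓞 K} {H : Subgroup (CU μ)} {F L' : Type} [Field F] [NumberField F] [Algebra K F]
  [Field L'] [NumberField L'] [Algebra K L'] [Algebra F L'] [IsScalarTower K F L']
  [DecidableEq L'] {J' : Pt L'} (hAB : AB H F L' J')
include hAB

theorem AB.Lf_prod (hM : Md μ) {res : U H →* Gal(F/K)}
    (hres : ∀ (σ : Gal(L'/K)) (u : U H), ga σ J' = smU J' u →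
      ∀ x : F, algebraMap F L' (res u x) = σ (algebraMap F L' x))
    {ι : Type} [Fintype ι] {χ : ι → (Gal(F/K) →* ℂ)} (hχ1 : ∀ i g, ‖χ i g‖ = 1)
    (hχ : ∀ (g : Gal(F/K)) (y : ℂ), ∏ i, (1 - χ i g * y) =
      (1 - y ^ orderOf g) ^ (Fintype.card Gal(F/K) / orderOf g))
    (B : Finset (HeightOneSpectrum (𝓞 F)))
    (hB : ∀ v, v ∈ B ↔ algebraMap (𝓞 K) (𝓞 F) μ ∈ v.asIdeal) {s : ℂ} (hs : 2 < s.re) :
    ∏ i, S4.Lf (fun I : Ideal (𝓞 K) => psbC K I * XI res (χ i) I) s =
      S4.Lf (psbC F) s *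
        ∏ v ∈ B, (1 - psbC F v.asIdeal * (Ideal.absNorm v.asIdeal : ℂ) ^ (-s)) := by
  classical
  have hex : ∀ I : Ideal (𝓞 K), IsCoprime I (Ideal.span {μ}) → ∃ u : U H, μ ∣ ps I - rp u :=
    fun I hI => hAB.ps_mem hM hI
  obtain ⟨m, hm⟩ : ∃ m : Ideal (𝓞 F), m = Ideal.span {algebraMap (𝓞 K) (𝓞 F) μ} := ⟨_, rfl⟩
  have hBm : ∀ w, w ∈ B ↔ m ≤ w.asIdeal := by
    intro w
    rw [hB, hm, Ideal.span_singleton_le_iff_mem]
  rw [← AN.Lf_indC m B hBm s hs]
  -- the two Euler products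
  have hmulf : ∀ (i : ι) (I J : Ideal (𝓞 K)),
      psbC K (I * J) * XI res (χ i) (I * J) =
        (psbC K I * XI res (χ i) I) * (psbC K J * XI res (χ i) J) := by
    intro i I J
    rw [lch_mul res (χ i) hex, AN.psbC_mul]
    ring
  have honef : ∀ i : ι, psbC K 1 * XI res (χ i) 1 = 1 := by
    intro i
    rw [AN.psbC_one, lch_one, one_mul]
  have hnormf : ∀ (i : ι) (I : Ideal (𝓞 K)),
      ‖psbC K I * XI res (χ i) I‖ ≤ (Ideal.absNorm I : ℝ) ^ (1 / 2 : ℝ) := by
    intro i I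
    exact AN.norm_psbC_mul_le _ I (lch_norm res (χ i) hex (hχ1 i) I)
  have h1 : HasProd (fun w : HeightOneSpectrum (𝓞 K) => ∏ i : ι,
      (1 - psbC K w.asIdeal * XI res (χ i) w.asIdeal *
        (Ideal.absNorm w.asIdeal : ℂ) ^ (-s))⁻¹)
      (∏ i : ι, S4.Lf (fun I : Ideal (𝓞 K) => psbC K I * XI res (χ i) I) s) :=
    hasProd_prod fun i _ => (S4.hasProd_Lf (fun I : Ideal (𝓞 K) =>
      psbC K I * XI res (χ i) I) (honef i) (hmulf i) (1 / 2)
      (by norm_num) (hnormf i) s (by linarith)).2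
  have h2 := (S4.hasProd_Lf (F := F) (fun I => psbC F I * S4.indC m I)
    (by rw [AN.psbC_one, S4.indC_one, mul_one])
    (fun I J => by rw [AN.psbC_mul, S4.indC_mul]; ring) (1 / 2) (by norm_num)
    (fun I => AN.norm_psbC_mul_le _ I (S4.norm_indC_le m I)) s (by linarith)).2
  have h3 := S4.hasProd_over (F := K) (F' := F) _ _ h2
  refine h1.unique ?_
  have hfun : (fun w : HeightOneSpectrum (𝓞 K) => ∏ i : ι,
      (1 - psbC K w.asIdeal * XI res (χ i) w.asIdeal *
        (Ideal.absNorm w.asIdeal : ℂ) ^ (-s))⁻¹) =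
      (fun v : HeightOneSpectrum (𝓞 K) => ∏ w : S4.Over F v,
        (1 - (fun I => psbC F I * S4.indC m I) w.1.asIdeal *
          (Ideal.absNorm w.1.asIdeal : ℂ) ^ (-s))⁻¹) := by
    funext v
    have hmem : ∀ P : S4.Over F v, (m ≤ P.1.asIdeal ↔ μ ∈ v.asIdeal) := by
      intro P
      have e : μ ∈ v.asIdeal ↔ μ ∈ P.1.asIdeal.under (𝓞 K) := by rw [P.2]
      rw [hm, Ideal.span_singleton_le_iff_mem, e]
      exact Iff.rfl
    by_cases hv : μ ∈ v.asIdeal
    · have h4 : ¬ IsCoprime v.asIdeal (Ideal.span {μ}) := by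
        rw [← S4.le_iff_not_coprime, Ideal.span_singleton_le_iff_mem]
        exact hv
      have e1 : ∀ i : ι, (1 - psbC K v.asIdeal *
          XI res (χ i) v.asIdeal * (Ideal.absNorm v.asIdeal : ℂ) ^ (-s))⁻¹ = 1 := by
        intro i
        rw [lch_not res (χ i) h4, mul_zero, zero_mul, sub_zero, inv_one]
      have e2 : ∀ P : S4.Over F v, (1 - (fun I => psbC F I * S4.indC m I) P.1.asIdeal *
          (Ideal.absNorm P.1.asIdeal : ℂ) ^ (-s))⁻¹ = 1 := by
        intro P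
        have h5 := (S4.le_iff_not_coprime m P.1).1 ((hmem P).2 hv)
        show (1 - psbC F P.1.asIdeal * S4.indC m P.1.asIdeal *
          (Ideal.absNorm P.1.asIdeal : ℂ) ^ (-s))⁻¹ = 1
        rw [S4.indC_of_not h5, mul_zero, zero_mul, sub_zero, inv_one]
      rw [Finset.prod_congr rfl fun i _ => e1 i, Finset.prod_congr rfl fun P _ => e2 P,
        Finset.prod_const_one, Finset.prod_const_one]
    · have h4 : IsCoprime v.asIdeal (Ideal.span {μ}) := by
        by_contra h5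
        rw [← S4.le_iff_not_coprime, Ideal.span_singleton_le_iff_mem] at h5
        exact hv h5
      obtain ⟨u, hu⟩ := hex v.asIdeal h4
      obtain ⟨hd1, hd2⟩ := hAB.dec hM hres v hv hu
      obtain ⟨y, hy⟩ : ∃ y : ℂ, y = (starRingEnd ℂ) (embK (ps v.asIdeal : K)) *
          (Ideal.absNorm v.asIdeal : ℂ) ^ (-s) := ⟨_, rfl⟩
      have e1 : ∀ i : ι, (1 - psbC K v.asIdeal *
          XI res (χ i) v.asIdeal * (Ideal.absNorm v.asIdeal : ℂ) ^ (-s))⁻¹ =
          (1 - χ i (res u) * y)⁻¹ := by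
        intro i
        rw [lch_of res (χ i) h4 hu, hy, psbC_self]
        congr 2
        ring
      have e2 : ∀ P : S4.Over F v, (1 - (fun I => psbC F I * S4.indC m I) P.1.asIdeal *
          (Ideal.absNorm P.1.asIdeal : ℂ) ^ (-s))⁻¹ = (1 - y ^ orderOf (res u))⁻¹ := by
        intro P
        have h5 : IsCoprime P.1.asIdeal m := by
          by_contra h6
          exact hv ((hmem P).1 ((S4.le_iff_not_coprime m P.1).2 h6))
        show (1 - psbC F P.1.asIdeal * S4.indC m P.1.asIdeal *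
          (Ideal.absNorm P.1.asIdeal : ℂ) ^ (-s))⁻¹ = (1 - y ^ orderOf (res u))⁻¹
        rw [S4.indC_of h5, mul_one, AN.psbC, AN.psC, (hd1 P).1, (hd1 P).2, lch_embpow,
          lch_cpow, ← mul_pow, hy]
      have hpos : 0 < orderOf (res u) := orderOf_pos _
      have hcard : Fintype.card (S4.Over F v) = Fintype.card Gal(F/K) / orderOf (res u) := by
        rw [← hd2, Nat.mul_div_cancel _ hpos]
      rw [Finset.prod_congr rfl fun i _ => e1 i, Finset.prod_congr rfl fun P _ => e2 P,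
        Finset.prod_inv_distrib, hχ, Finset.prod_const, Finset.card_univ, hcard, inv_pow]
  rw [hfun]
  exact h3

end

end

end Pool.Agent.Lib.MP_1a91b9_nuX.DG
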