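import Pool.Agent.Lib.MP_1a91b9_nuX.DG.LChi
import Pool.Agent.Lib.MP_1a91b9_nuT.DG.Defs
import Pool.Agent.Lib.MP_1a91b9_nuT.CF.Frob
import Pool.Agent.Lib.MP_1a91b9_nuT.DG.Unr
import Pool.Agent.Lib.MP_1a91b9_nuT.DG.ZDefs
import Pool.Agent.Lib.MP_1a91b9_nuT.S4.Quad
import Pool.Agent.Lib.MP_1a91b9_nuT.S4.LComp
import Pool.Agent.Lib.MP_1a91b9_nuT.DG.ZA

/-!
# The L-series of a character as a sum over the residue classes

JOB LSUM. PROOF (complete; helper30): port of MP_1a91b9_nuT/DG/LSum.lean (start from this file and copy its private lemmas; see also `Lf_sum` in MP_1a91b9_nuX/AN/ESum.lean). The ideals `I` coprime to `μ` correspond to the elements `a` coprime to `μ` with `Fx a` by `I = span {a}`, `a = ps I`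
(`hM.cop_I`, `Fx.inj`), i.e. (`hAB.fx_iff hM`) to the `a` with `μ ∣ a - rp u` for some (unique: `rp_inj`) `u : U H` (such an `a` is coprime to `μ`: `rp_cop`). `xr u` of the old file becomes `rp u`, `3 * μ` becomes `μ`, `psiK_unique` becomes `Fx.inj`. `XI res χ (span {a}) = χ (res u)` for `μ ∣ a - rp u` because `ps (span {a}) = a`.
-/

set_option autoImplicit false

namespace Pool.Agent.Lib.MP_1a91b9_nuX.DG

variable [Pool.Agent.Lib.MP_1a91b9_nuT.CD]

open NumberField IsDedekindDomain WeierstrassCurve Pool.Agent.Lib.MP_1a91b9_nuT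
open Pool.Agent.Lib.MP_1a91b9_nuX.DB

noncomputable section

variable [HC]

export Pool.Agent.Lib.MP_1a91b9_nuT.DG (ZS summable_Z summable_all)

/-- the summand of `ZS` -/
private def LSum_T (c x : 𝓞 K) (s : ℂ) (a : 𝓞 K) : ℂ :=
  haveI := Classical.dec (c ∣ a - x)
  if c ∣ a - x then (starRingEnd ℂ) (embK (a : K)) * ((‖embK (a : K)‖ : ℝ) : ℂ) ^ (-2 * s) else 0

private theorem LSum_T_pos {c x a : 𝓞 K} (s : ℂ) (h : c ∣ a - x) :
    LSum_T c x s a = (starRingEnd ℂ) (embK (a : K)) * ((‖embK (a : K)‖ : ℝ) : ℂ) ^ (-2 * s) := by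
  unfold LSum_T
  exact if_pos h

private theorem LSum_T_neg {c x a : 𝓞 K} (s : ℂ) (h : ¬ c ∣ a - x) : LSum_T c x s a = 0 := by
  unfold LSum_T
  exact if_neg h

private theorem LSum_cpow {x : ℝ} (hx : 0 ≤ x) (s : ℂ) : (((x ^ 2 : ℝ)) : ℂ) ^ (-s) = (x : ℂ) ^ (-2 * s) := by
  have h1 : (((x ^ 2 : ℝ)) : ℂ) = (x : ℂ) * (x : ℂ) := by
    push_cast
    ring
  rw [h1, Complex.mul_cpow_ofReal_nonneg hx hx, ← pow_two]
  have h2 : (-2 * s : ℂ) = ((2 : ℕ) : ℂ) * (-s) := by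
    push_cast
    ring
  rw [h2, Complex.cpow_nat_mul]

private theorem LSum_norm (a : 𝓞 K) (s : ℂ) :
    (Ideal.absNorm (Ideal.span {a}) : ℂ) ^ (-s) = ((‖embK (a : K)‖ : ℝ) : ℂ) ^ (-2 * s) := by
  have h1 : (Ideal.absNorm (Ideal.span {a}) : ℝ) = ‖embK (a : K)‖ ^ 2 := by
    rw [← bs1_card, Ideal.absNorm_apply, Submodule.cardQuot_apply]
  rw [← LSum_cpow (norm_nonneg _) s, ← h1]
  rw [Complex.ofReal_natCast]

section
variable {μ : 𝓞 K} {H : Subgroup (CU μ)} {F L' : Type} [Field F] [NumberField F] [Algebra K F]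
  [Field L'] [NumberField L'] [Algebra K L'] [Algebra F L'] [IsScalarTower K F L']
  [DecidableEq L'] {J' : Pt L'} (hAB : AB H F L' J')
include hAB

private theorem LSum_key (hM : Md μ) [Fintype (U H)] {G : Type} [Group G] (res : U H →* G)
    (χ : G →* ℂ) (s : ℂ) {a : 𝓞 K} (ha : IsCoprime a μ) (hF : Fx a) :
    psbC K (Ideal.span {a}) * XI res χ (Ideal.span {a}) *
        (Ideal.absNorm (Ideal.span {a}) : ℂ) ^ (-s) =
      ∑ u : U H, χ (res u) * LSum_T μ (rp u) s a := by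
  have hψ : ps (Ideal.span {a}) = a := hF
  have hcond : IsCoprime (Ideal.span {a}) (Ideal.span {μ}) ∧
      ∃ u : U H, μ ∣ ps (Ideal.span {a}) - rp u := by
    have h1 := (Ideal.isCoprime_span_singleton_iff _ _).mpr ha
    exact ⟨h1, hAB.ps_mem hM h1⟩
  obtain ⟨u0, hu0', hXI⟩ : ∃ u0 : U H, μ ∣ ps (Ideal.span {a}) - rp u0 ∧
      XI res χ (Ideal.span {a}) = χ (res u0) := by
    refine ⟨hcond.2.choose, hcond.2.choose_spec, ?_⟩
    unfold XI
    exact dif_pos hcond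
  have hu0 : μ ∣ a - rp u0 := by
    rwa [hψ] at hu0'
  rw [Finset.sum_eq_single u0]
  · rw [hXI, LSum_T_pos s hu0, LSum_norm, psbC_self, hψ]
    ring
  · intro u _ hu
    rw [LSum_T_neg s, mul_zero]
    intro hd
    apply hu
    have h2 : μ ∣ rp u - rp u0 := by
      have e : rp u - rp u0 = (a - rp u0) - (a - rp u) := by ring
      rw [e]
      exact dvd_sub hu0 hd
    exact rp_inj h2
  · intro h
    exact absurd (Finset.mem_univ _) h

theorem AB.Lf_sum (hM : Md μ) [Fintype (U H)] {G : Type} [Group G] (res : U H →* G) (χ : G →* ℂ)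
    (hχ1 : ∀ g, ‖χ g‖ = 1) {s : ℂ} (hs : 2 < s.re) :
    S4.Lf (fun I : Ideal (𝓞 K) => psbC K I * XI res χ I) s =
      ∑ u : U H, χ (res u) * ZS μ (rp u) s := by
  have hR : ∑ u : U H, χ (res u) * ZS μ (rp u) s =
      ∑' a : 𝓞 K, ∑ u : U H, χ (res u) * LSum_T μ (rp u) s a := by
    have h1 : ∀ u ∈ (Finset.univ : Finset (U H)),
        Summable fun a : 𝓞 K => χ (res u) * LSum_T μ (rp u) s a :=
      fun u _ => (summable_Z μ (rp u) hs).mul_left _
    rw [Summable.tsum_finsetSum h1]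
    refine Finset.sum_congr rfl (fun u _ => ?_)
    rw [tsum_mul_left]
    rfl
  rw [hR]
  have hsup : ∀ a : 𝓞 K, (∑ u : U H, χ (res u) * LSum_T μ (rp u) s a) ≠ 0 →
      IsCoprime a μ ∧ Fx a := by
    intro a ha
    obtain ⟨u, _, hu⟩ := Finset.exists_ne_zero_of_sum_ne_zero ha
    have hd : μ ∣ a - rp u := by
      by_contra hd
      apply hu
      rw [LSum_T_neg s hd, mul_zero]
    have hc : IsCoprime a μ := by
      obtain ⟨c, hc⟩ := hd
      obtain ⟨p, q, hpq⟩ := rp_cop u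
      exact ⟨p, q - p * c, by linear_combination p * hc + hpq⟩
    exact ⟨hc, (hAB.fx_iff hM hc).2 ⟨u, hd⟩⟩
  unfold S4.Lf
  refine tsum_eq_tsum_of_ne_zero_bij
    (fun a : Function.support (fun a : 𝓞 K => ∑ u : U H, χ (res u) * LSum_T μ (rp u) s a) =>
      Ideal.span {(a : 𝓞 K)}) ?_ ?_ ?_
  · intro a b hab
    obtain ⟨-, h1⟩ := hsup a.1 a.2
    obtain ⟨-, h2⟩ := hsup b.1 b.2
    exact Subtype.ext (AN.Fx.inj h1 h2 hab)
  · intro I hI
    have hXI : XI res χ I ≠ 0 := by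
      intro h
      apply hI
      show psbC K I * XI res χ I * (Ideal.absNorm I : ℂ) ^ (-s) = 0
      rw [h, mul_zero, zero_mul]
    have hcond : IsCoprime I (Ideal.span {μ}) ∧ ∃ u : U H, μ ∣ ps I - rp u := by
      by_contra hcond
      apply hXI
      unfold XI
      exact dif_neg hcond
    obtain ⟨-, hsp, hcop, hfx⟩ := hM.cop_I hcond.1
    have hk := LSum_key hAB hM res χ s hcop hfx
    rw [hsp] at hk
    refine ⟨⟨ps I, ?_⟩, hsp⟩
    show (∑ u : U H, χ (res u) * LSum_T μ (rp u) s (ps I)) ≠ 0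
    rw [← hk]
    exact hI
  · intro a
    obtain ⟨h1, h2⟩ := hsup a.1 a.2
    exact LSum_key hAB hM res χ s h1 h2

end

end

end Pool.Agent.Lib.MP_1a91b9_nuX.DG
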