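import Pool.Agent.Lib.MP_1a91b9_nuX.DG.FqD
import Pool.Agent.Lib.MP_1a91b9_nuX.DG.Defs
import Pool.Agent.Lib.MP_1a91b9_nuT.S3.Main

/-!
# The values `lamQ (a J)` in terms of `E1`
-/

set_option autoImplicit false

namespace Pool.Agent.Lib.MP_1a91b9_nuX.DG

variable [Pool.Agent.Lib.MP_1a91b9_nuT.CD]

open NumberField IsDedekindDomain WeierstrassCurve Pool.Agent.Lib.MP_1a91b9_nuT
open Pool.Agent.Lib.MP_1a91b9_nuX.DB
open Pool.Agent.Lib.MP_1a91b9_nuT.Mult (mulD mulN mul_spec div_mem)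
open S3 (X Y)

noncomputable section

/-- `E1` and multiplication by a unit -/
theorem E1_unit (u : (𝓞 K)ˣ) (z : ℂ) :
    embK ((u : 𝓞 K) : K) * E1 (embK ((u : 𝓞 K) : K) * z) = E1 z := by
  obtain ⟨w, hw⟩ : ∃ w : 𝓞 K, (u : 𝓞 K) * w = 1 := ⟨_, u.mul_inv⟩
  have hw' : embK ((u : 𝓞 K) : K) * embK (w : K) = 1 := by
    rw [← emb_mul, hw]
    have e : ((1 : 𝓞 K) : K) = 1 := rfl
    rw [e, map_one]
  have h1 := S3.dist (ι := Unit) (α := embK ((u : 𝓞 K) : K)) (τ := fun _ => 0)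
    (S3.embK_mem _) (Mult.embK_ne_zero u.ne_zero) (fun _ => by simp) (fun x hx => by
      refine ⟨(), ?_, fun _ _ => rfl⟩
      have h2 := S3.mul_mem (S3.embK_mem w) hx
      rwa [← mul_assoc, mul_comm (embK (w : K)), hw', one_mul, ← sub_zero x] at h2) z
  rw [← h1]
  simp

/-- the distribution relation over the quotients by `a` -/
theorem E1_dist {a : 𝓞 K} (ha : a ≠ 0) {ι : Type} [Fintype ι] {ρ : ι → 𝓞 K}
    (hρ : ∀ x : 𝓞 K, ∃! i, a ∣ x - ρ i) (z : ℂ) :
    ∑ i, E1 (z + embK (ρ i : K) / embK (a : K)) = embK (a : K) * E1 (embK (a : K) * z) := by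
  have ha0 := Mult.embK_ne_zero ha
  refine S3.dist (α := embK (a : K)) (τ := fun i => embK (ρ i : K) / embK (a : K))
    (S3.embK_mem _) ha0 (fun i => ?_) (fun x hx => ?_) z
  · rw [mul_div_cancel₀ _ ha0]
    exact S3.embK_mem _
  · obtain ⟨y, hy⟩ := S3.mem_PP_iff.1 hx
    obtain ⟨i, hi, hu⟩ := hρ y
    have key : ∀ i, x - embK (ρ i : K) / embK (a : K) ∈ PP.lattice ↔ a ∣ y - ρ i := by
      intro i
      rw [← div_mem ha]
      have e1 : ((y - ρ i : 𝓞 K) : K) = (y : K) - (ρ i : K) := rfl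
      rw [e1, map_sub, hy]
      have e2 : (embK (a : K) * x - embK (ρ i : K)) / embK (a : K) =
          x - embK (ρ i : K) / embK (a : K) := by
        field_simp
      rw [e2]
    exact ⟨i, (key i).2 hi, fun j hj => hu j ((key j).1 hj)⟩

theorem cop_of {μ t : 𝓞 K} (hμ0 : μ ≠ 0) (h : ∀ a, μ ∣ a * t → μ ∣ a) : IsCoprime t μ := by
  obtain ⟨g, hg⟩ := (IsPrincipalIdealRing.principal (Ideal.span {t, μ})).principal
  have hg' : Ideal.span {t, μ} = Ideal.span {g} := hg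
  have ht : t ∈ Ideal.span {g} := by
    rw [← hg']
    exact Ideal.subset_span (by simp)
  have hm : μ ∈ Ideal.span {g} := by
    rw [← hg']
    exact Ideal.subset_span (by simp)
  obtain ⟨t', ht'⟩ := Ideal.mem_span_singleton.1 ht
  obtain ⟨m', hm'⟩ := Ideal.mem_span_singleton.1 hm
  have hm0 : m' ≠ 0 := fun h0 => hμ0 (by rw [hm', h0, mul_zero])
  obtain ⟨e, he⟩ := h m' ⟨t', by rw [ht', hm']; ring⟩
  have hge : g * e = 1 := by
    apply mul_left_cancel₀ hm0
    rw [mul_one]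
    nth_rewrite 2 [he]
    rw [hm']
    ring
  have hmem : g ∈ Ideal.span {t, μ} := by
    rw [hg']
    exact Ideal.mem_span_singleton_self g
  obtain ⟨a, b, hab⟩ := Ideal.mem_span_pair.1 hmem
  exact ⟨a * e, b * e, by linear_combination e * hab + hge⟩

variable [FP]

/-- the logarithmic derivative of the denominator -/
theorem lam_E1 {ι : Type} [Fintype ι] [DecidableEq ι] {ρ : ι → 𝓞 K}
    (hρ : ∀ x : 𝓞 K, ∃! i, pk ∣ x - ρ i) {i₀ : ι} (h0 : pk ∣ ρ i₀) {z : ℂ}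
    (h2 : 2 * z ∉ PP.lattice) (ha : embK ((pk : 𝓞 K) : K) * z ∉ PP.lattice) :
    Om * (Y z * ((dpoly ℂ).derivative.eval (X z) / (dpoly ℂ).eval (X z))) =
      2 * (embK ((pk : 𝓞 K) : K) * E1 (embK ((pk : 𝓞 K) : K) * z) -
        (Fintype.card ι : ℂ) * E1 z) := by
  have hz : z ∉ PP.lattice := fun h => ha (S3.mul_mem (S3.embK_mem _) h)
  have hOm := S3.Om_ne_zero
  have hni : ∀ i ∈ Finset.univ.erase i₀, ¬ pk ∣ ρ i := by
    intro i hi hd
    obtain ⟨k, -, hk⟩ := hρ 0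
    apply (Finset.mem_erase.1 hi).1
    have e : ∀ j, pk ∣ ρ j → j = k := fun j hj => hk j (by
      change pk ∣ 0 - ρ j
      rw [zero_sub]
      exact (dvd_neg).2 hj)
    rw [e i hd, e i₀ h0]
  obtain ⟨s, hs⟩ : ∃ s : ι → ℂ, ∀ i, s i = embK (ρ i : K) / embK ((pk : 𝓞 K) : K) :=
    ⟨_, fun _ => rfl⟩
  have hsa : ∀ i, embK ((pk : 𝓞 K) : K) * s i ∈ PP.lattice := by
    intro i
    rw [hs, mul_div_cancel₀ _ (Mult.embK_ne_zero pk_ne)]
    exact S3.embK_mem _
  have hsn : ∀ i ∈ Finset.univ.erase i₀, s i ∉ PP.lattice := by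
    intro i hi hm
    rw [hs] at hm
    exact hni i hi ((div_mem pk_ne _).1 hm)
  have hsm : ∀ i, s i - z ∉ PP.lattice := by
    intro i hm
    apply ha
    have h3 := sub_mem (hsa i) (S3.mul_mem (S3.embK_mem (pk : 𝓞 K)) hm)
    have e : embK ((pk : 𝓞 K) : K) * s i - embK ((pk : 𝓞 K) : K) * (s i - z) =
        embK ((pk : 𝓞 K) : K) * z := by ring
    rwa [e] at h3
  have hsp : ∀ i, s i + z ∉ PP.lattice := by
    intro i hm
    apply ha
    have h3 := sub_mem (S3.mul_mem (S3.embK_mem (pk : 𝓞 K)) hm) (hsa i)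
    have e : embK ((pk : 𝓞 K) : K) * (s i + z) - embK ((pk : 𝓞 K) : K) * s i =
        embK ((pk : 𝓞 K) : K) * z := by ring
    rwa [e] at h3
  -- each term
  have hterm : ∀ i ∈ Finset.univ.erase i₀, Om * (Y z * (1 / (X z - X (s i)))) =
      E1 (z - s i) + E1 (z + s i) - 2 * E1 z := by
    intro i hi
    have h3 := S3.sig (w := z) (z := s i) h2 (hsn i hi) (hsm i) (hsp i)
    have hQ : PP.derivWeierstrassP z ≠ 0 := Per.Q_ne h2
    have h4 : PP.weierstrassP (s i) - PP.weierstrassP z ≠ 0 := by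
      intro e
      rw [e, zero_mul] at h3
      exact hQ h3.symm
    have h4' : PP.weierstrassP z - PP.weierstrassP (s i) ≠ 0 := by
      intro e
      apply h4
      linear_combination -e
    have e1 : E1 (s i - z) = -E1 (z - s i) := by
      rw [← S3.E1_neg, neg_sub]
    have e2 : E1 (s i + z) = E1 (z + s i) := by rw [add_comm]
    rw [e1, e2] at h3
    have e3 : Om * (Y z * (1 / (X z - X (s i)))) =
        PP.derivWeierstrassP z / (PP.weierstrassP z - PP.weierstrassP (s i)) := by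
      rw [S3.X, S3.X, S3.Y, ← sub_div]
      field_simp
    rw [e3, div_eq_iff h4', ← h3]
    ring
  -- the sum over the roots
  have hD : ∀ x : ℂ, (dpoly ℂ).eval x = embK ((pk : 𝓞 K) : K) ^ 2 *
      ∏ i ∈ Finset.univ.erase i₀, (x - X (s i)) := by
    intro x
    have h3 := (mul_spec (pk_ne)).2.2.2.2.2.2 ι ρ hρ i₀ h0 x
    simp only [hs]
    exact h3
  have hpoly : dpoly ℂ = Polynomial.C (embK ((pk : 𝓞 K) : K) ^ 2) *
      ∏ i ∈ Finset.univ.erase i₀, (Polynomial.X - Polynomial.C (X (s i))) := by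
    refine Polynomial.funext fun x => ?_
    rw [hD, Polynomial.eval_mul, Polynomial.eval_C, Polynomial.eval_prod]
    simp
  have hne : (dpoly ℂ).eval (X z) ≠ 0 := by
    rw [hD]
    refine mul_ne_zero (pow_ne_zero _ (Mult.embK_ne_zero pk_ne))
      (Finset.prod_ne_zero_iff.2 fun i hi e => ?_)
    have h3 := S3.sig (w := z) (z := s i) h2 (hsn i hi) (hsm i) (hsp i)
    rw [S3.X, S3.X, ← sub_div, div_eq_zero_iff] at e
    have h4 := e.resolve_right (pow_ne_zero _ hOm)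
    have h5 : PP.weierstrassP (s i) - PP.weierstrassP z = 0 := by linear_combination -h4
    rw [h5, zero_mul] at h3
    exact Per.Q_ne h2 h3.symm
  have hroots : (dpoly ℂ).roots = (Finset.univ.erase i₀).val.map (fun i => X (s i)) := by
    rw [hpoly, Polynomial.roots_C_mul _ (pow_ne_zero _ (Mult.embK_ne_zero pk_ne))]
    have e : ∏ i ∈ Finset.univ.erase i₀, (Polynomial.X - Polynomial.C (X (s i))) =
        (((Finset.univ.erase i₀).val.map (fun i => X (s i))).map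
          (fun a => Polynomial.X - Polynomial.C a)).prod := by
      rw [Multiset.map_map]
      rfl
    rw [e, Polynomial.roots_multiset_prod_X_sub_C]
  rw [(IsAlgClosed.splits (dpoly ℂ)).eval_derivative_div_eval_of_ne_zero hne, hroots,
    Multiset.map_map]
  have e1 : Om * (Y z * (Multiset.map ((fun w => 1 / (X z - w)) ∘ fun i => X (s i))
      (Finset.univ.erase i₀).val).sum) =
      ∑ i ∈ Finset.univ.erase i₀, Om * (Y z * (1 / (X z - X (s i)))) := by
    rw [← Finset.mul_sum, ← Finset.mul_sum]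
    rfl
  rw [e1, Finset.sum_congr rfl hterm, Finset.sum_sub_distrib, Finset.sum_add_distrib,
    Finset.sum_const, Finset.card_erase_of_mem (Finset.mem_univ _), Finset.card_univ]
  -- the distribution relations
  have hd1 : ∑ i, E1 (z + s i) = embK ((pk : 𝓞 K) : K) * E1 (embK ((pk : 𝓞 K) : K) * z) := by
    have h3 := E1_dist (pk_ne) hρ z
    simp only [hs]
    exact h3
  have hd2 : ∑ i, E1 (z - s i) = embK ((pk : 𝓞 K) : K) * E1 (embK ((pk : 𝓞 K) : K) * z) := by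
    have h3 := E1_dist (pk_ne) (ρ := fun i => (-1) * ρ i) (fun x => by
      have h4 := rep_mul (a := (pk : 𝓞 K)) (b := -1) ⟨0, -1, by ring⟩ hρ x
      exact h4) z
    rw [← h3]
    refine Finset.sum_congr rfl fun i _ => ?_
    have e : embK (((-1) * ρ i : 𝓞 K) : K) = -embK (ρ i : K) := by
      rw [emb_mul]
      have e2 : ((-1 : 𝓞 K) : K) = -1 := rfl
      rw [e2, map_neg, map_one]
      ring
    rw [hs, e, neg_div, sub_eq_add_neg]
  have hz0 : E1 (z + s i₀) = E1 z := S3.E1_add (by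
    rw [hs]
    exact (div_mem pk_ne _).2 h0) z
  have hz1 : E1 (z - s i₀) = E1 z := S3.E1_sub (by
    rw [hs]
    exact (div_mem pk_ne _).2 h0) z
  have hc : (1 : ℕ) ≤ Fintype.card ι := Fintype.card_pos_iff.2 ⟨i₀⟩
  rw [← Finset.add_sum_erase _ _ (Finset.mem_univ i₀), hz0] at hd1
  rw [← Finset.add_sum_erase _ _ (Finset.mem_univ i₀), hz1] at hd2
  rw [nsmul_eq_mul, Nat.cast_sub hc, Nat.cast_one]
  linear_combination hd1 + hd2

/-- **the values `lamQ (a J)`** -/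
theorem lam_val {μ : 𝓞 K} (hμ0 : μ ≠ 0) (hl : ¬ μ ∣ pk) (h2 : ¬ μ ∣ 2) {L : Type*}
    [Field L] [Algebra K L] [DecidableEq L] (φ : L →ₐ[K] ℂ) {J : Pt L}
    (hJ : Ord μ J) : ∃ y0 : 𝓞 K, IsCoprime y0 μ ∧ ∀ a : 𝓞 K, IsCoprime a μ →
      Om * φ (lamQ (sm L a J)) =
        2 * (embK ((pk : 𝓞 K) : K) * E1 (embK ((pk * (a * y0) : 𝓞 K) : K) / embK (μ : K)) -
          (Ideal.absNorm (Ideal.span {(pk : 𝓞 K)}) : ℂ) *
            E1 (embK ((a * y0 : 𝓞 K) : K) / embK (μ : K))) := by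
  classical
  obtain ⟨un, hus, hu0, hu1, hub⟩ := exists_uni
  have hμC := Mult.embK_ne_zero hμ0
  obtain ⟨ι, iF, iD, ρ, i₀, hρ, h0, hcard⟩ := exists_rep (pk_ne)
  -- the point `J`
  obtain ⟨zJ, hzJ⟩ := hus (pm φ J)
  have hJm : embK (μ : K) * zJ ∈ PP.lattice := by
    rw [← hu0, hub, hzJ, ← pm_sm, (hJ μ).2 dvd_rfl, map_zero]
  obtain ⟨y0, hy0⟩ := S3.mem_PP_iff.1 hJm
  have hzt' : embK (y0 : K) / embK (μ : K) = zJ := by
    rw [hy0]
    field_simp
  have hord : ∀ a : 𝓞 K, μ ∣ a * y0 ↔ μ ∣ a := by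
    intro a
    rw [← hJ a, ← div_mem hμ0, emb_mul, mul_div_assoc, hzt', ← hu0, hub, hzJ, ← pm_sm]
    constructor
    · intro h
      exact pm_inj φ (h.trans (map_zero _).symm)
    · intro h
      rw [h, map_zero]
  have hycop : IsCoprime y0 μ := cop_of hμ0 fun a ha => (hord a).1 ha
  refine ⟨y0, hycop, fun a ha => ?_⟩
  obtain ⟨z, hz⟩ : ∃ z : ℂ, z = embK ((a * y0 : 𝓞 K) : K) / embK (μ : K) := ⟨_, rfl⟩
  have hzJ' : z = embK (a : K) * zJ := by
    rw [hz, emb_mul, mul_div_assoc, hzt']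
  have hunz : un z = pm φ (sm L a J) := by
    rw [hzJ', hub, hzJ, ← pm_sm]
  have hdv : ∀ b : 𝓞 K, embK (b : K) * z ∈ PP.lattice ↔ μ ∣ b := by
    intro b
    rw [hz, ← mul_div_assoc, ← emb_mul, div_mem hμ0]
    constructor
    · intro h
      have h3 : μ ∣ b * a := (hord (b * a)).1 (by rwa [mul_assoc])
      exact ha.symm.dvd_of_dvd_mul_right h3
    · intro h
      exact h.mul_right _
  have hz2 : 2 * z ∉ PP.lattice := by
    intro h
    apply h2
    rw [← hdv]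
    have e : embK (((2 : 𝓞 K)) : K) = 2 := by
      have e1 : ((2 : 𝓞 K) : K) = 2 := map_ofNat (algebraMap (𝓞 K) K) 2
      rw [e1, map_ofNat]
    rwa [e]
  have hza : embK ((pk : 𝓞 K) : K) * z ∉ PP.lattice := fun h => hl ((hdv _).1 h)
  have hz1 : z ∉ PP.lattice := fun h => hza (S3.mul_mem (S3.embK_mem _) h)
  have h3 := lam_E1 hρ h0 hz2 hza
  rw [hcard] at h3
  have e1 : φ (lamQ (sm L a J)) =
      Y z * ((dpoly ℂ).derivative.eval (X z) / (dpoly ℂ).eval (X z)) := by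
    rw [← lamQ_pm, ← hunz]
    unfold lamQ fq dq
    rw [(hu1 z hz1).1, (hu1 z hz1).2]
    ring
  have e2 : embK ((pk : 𝓞 K) : K) * z = embK ((pk * (a * y0) : 𝓞 K) : K) / embK (μ : K) := by
    rw [hz, emb_mul pk, mul_div_assoc]
  rw [e1, h3, e2, ← hz]

end

end Pool.Agent.Lib.MP_1a91b9_nuX.DG
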