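import Pool.Agent.Lib.MP_1a91b9_nuX.DG.YYG
import Pool.Agent.Lib.MP_1a91b9_nuX.DG.Unr
import Pool.Agent.Lib.MP_1a91b9_nuX.DB.Frob
import Pool.Agent.Lib.MP_1a91b9_nuX.DB.Ram
import Pool.Agent.Lib.MP_1a91b9_nuX.DB.Ext
import Pool.Agent.Lib.MP_1a91b9_nuT.DB.ThA
import Pool.Agent.Lib.MP_1a91b9_nuT.DB.Thaine

/-!
# Thaine's theorem over `L`
-/

set_option autoImplicit false

namespace Pool.Agent.Lib.MP_1a91b9_nuX.DG

variable [Pool.Agent.Lib.MP_1a91b9_nuT.CD]

open NumberField IsDedekindDomain WeierstrassCurve Pool.Agent.Lib.MP_1a91b9_nuT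
open Pool.Agent.Lib.MP_1a91b9_nuX.DB Pool.Agent.Lib.MP_1a91b9_nt

noncomputable section


section
variable {F : Type} [Field F] [NumberField F]

private theorem thg_mem (w : HeightOneSpectrum (𝓞 F)) (a : 𝓞 F) :
    w.valuation F (a : F) < 1 ↔ a ∈ w.asIdeal :=
  w.valuation_lt_one_iff_mem a

private theorem thg_one_notMem (v : HeightOneSpectrum (𝓞 F)) :
    (1 : 𝓞 F) ∉ v.asIdeal := fun h => v.isPrime.ne_top ((Ideal.eq_top_iff_one _).2 h)

private theorem thg_val_one (v : HeightOneSpectrum (𝓞 F)) {x : 𝓞 F}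
    (hx : x ∉ v.asIdeal) : v.valuation F (x : F) = 1 := by
  refine le_antisymm (v.valuation_le_one x) ?_
  rw [← not_lt, thg_mem]
  exact hx

private theorem thg_coprime (v : HeightOneSpectrum (𝓞 F)) {a b : ℕ}
    (hab : a.Coprime b) (ha : (a : 𝓞 F) ∈ v.asIdeal) (hb : (b : 𝓞 F) ∈ v.asIdeal) : False := by
  obtain ⟨x, y, hxy⟩ := (Nat.isCoprime_iff_coprime.2 hab)
  apply thg_one_notMem v
  have h1 : (1 : 𝓞 F) = (x : 𝓞 F) * (a : 𝓞 F) + (y : 𝓞 F) * (b : 𝓞 F) := by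
    have := congrArg (fun z : ℤ => (z : 𝓞 F)) hxy
    push_cast at this
    exact this.symm
  rw [h1]
  exact Ideal.add_mem _ (Ideal.mul_mem_left _ _ ha) (Ideal.mul_mem_left _ _ hb)

private theorem thg_card (v : HeightOneSpectrum (𝓞 F)) :
    Nat.card (𝓞 F ⧸ v.asIdeal) = nrm v := (nrm_eq v).symm

private theorem thg_int (lam : HeightOneSpectrum (𝓞 F)) (hp : (nrm lam).Prime) (x : 𝓞 F) :
    ∃ m : ℤ, x - m ∈ lam.asIdeal := by
  have hfin : Finite (𝓞 F ⧸ lam.asIdeal) := Ideal.finiteQuotientOfFreeOfNeBot _ lam.ne_bot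
  let _ : Fintype (𝓞 F ⧸ lam.asIdeal) := Fintype.ofFinite _
  have hcard : Fintype.card (𝓞 F ⧸ lam.asIdeal) = nrm lam := by
    rw [← Nat.card_eq_fintype_card, nrm_eq]
    rfl
  have : Fact (nrm lam).Prime := ⟨hp⟩
  let e : ZMod (nrm lam) ≃+* (𝓞 F ⧸ lam.asIdeal) := ZMod.ringEquivOfPrime _ hp hcard
  obtain ⟨z, hz⟩ := e.surjective (Ideal.Quotient.mk lam.asIdeal x)
  refine ⟨(z.val : ℤ), ?_⟩
  rw [← Ideal.Quotient.eq_zero_iff_mem, map_sub, ← hz, Int.cast_natCast, map_natCast,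
    ← map_natCast e, ZMod.natCast_zmod_val, sub_self]

private theorem thg_frob (lam : HeightOneSpectrum (𝓞 F)) (x : 𝓞 F) :
    x - x ^ nrm lam ∈ lam.asIdeal := by
  rw [← Ideal.Quotient.eq, map_pow]
  have hmax : lam.asIdeal.IsMaximal := lam.isMaximal
  let _ : Field (𝓞 F ⧸ lam.asIdeal) := Ideal.Quotient.field lam.asIdeal
  have hfin : Finite (𝓞 F ⧸ lam.asIdeal) := lam.asIdeal.finiteQuotientOfFreeOfNeBot lam.ne_bot
  have := Fintype.ofFinite (𝓞 F ⧸ lam.asIdeal)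
  have h1 := FiniteField.pow_card (Ideal.Quotient.mk lam.asIdeal x)
  rw [← Nat.card_eq_fintype_card, thg_card] at h1
  exact h1.symm

private theorem thg_over {L : Type} [Field L] [NumberField L] [Algebra F L]
    (v : HeightOneSpectrum (𝓞 F)) : ∃ w : HeightOneSpectrum (𝓞 L), w.under (𝓞 F) = v := by
  have : v.asIdeal.IsMaximal := v.isMaximal
  obtain ⟨Q, hQm, hQ⟩ := Ideal.exists_maximal_ideal_liesOver_of_isIntegral (S := 𝓞 L) v.asIdeal
  have hne : Q ≠ ⊥ := Ideal.ne_bot_of_liesOver_of_ne_bot v.ne_bot Q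
  refine ⟨⟨Q, hQm.isPrime, hne⟩, ?_⟩
  apply HeightOneSpectrum.ext
  exact hQ.over.symm

variable [Algebra K F]

private theorem thg_K (v : HeightOneSpectrum (𝓞 F))
    (x : 𝓞 K) : v.valuation F (algebraMap K F (x : K)) < 1 ↔ algebraMap (𝓞 K) (𝓞 F) x ∈ v.asIdeal := by
  rw [← thg_mem]
  rfl

private theorem thg_dvd (v : HeightOneSpectrum (𝓞 F))
    {x y : 𝓞 K} (h : x ∣ y) (hx : algebraMap (𝓞 K) (𝓞 F) x ∈ v.asIdeal) :
    algebraMap (𝓞 K) (𝓞 F) y ∈ v.asIdeal := by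
  obtain ⟨c, rfl⟩ := h
  rw [map_mul]
  exact Ideal.mul_mem_right _ _ hx

private theorem thg_beta_p
    (v : HeightOneSpectrum (𝓞 F)) {β : 𝓞 K} {p : ℕ} (hβ : Deg1 β p)
    (hv : algebraMap (𝓞 K) (𝓞 F) β ∈ v.asIdeal) : (p : 𝓞 F) ∈ v.asIdeal := by
  have h1 : β ∣ ((p : ℤ) : 𝓞 K) := (hβ.dvd_int_iff p).2 dvd_rfl
  have h2 := thg_dvd v h1 hv
  simpa using h2

private theorem thg_sub (v : HeightOneSpectrum (𝓞 F)) {β γ : 𝓞 K} (hβ : γ ∣ β - 1)
    (hv : algebraMap (𝓞 K) (𝓞 F) β ∈ v.asIdeal) : algebraMap (𝓞 K) (𝓞 F) γ ∉ v.asIdeal := by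
  intro h3
  apply thg_one_notMem v
  have h1 := thg_dvd v hβ h3
  rw [map_sub, map_one] at h1
  have h2 : (1 : 𝓞 F) = algebraMap (𝓞 K) (𝓞 F) β - (algebraMap (𝓞 K) (𝓞 F) β - 1) := by ring
  rw [h2]
  exact Ideal.sub_mem _ hv h1

private theorem thg_beta_dvd {β : 𝓞 K} (hβ : Prime β) {v : HeightOneSpectrum (𝓞 F)}
    (hv : v.valuation F (algebraMap K F (β : K)) < 1) (x : 𝓞 K) :
    v.valuation F (algebraMap K F (x : K)) < 1 ↔ β ∣ x := by
  have hmem : ∀ y : 𝓞 K, v.valuation F (algebraMap K F (y : K)) < 1 ↔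
      y ∈ (v.under (𝓞 K)).asIdeal := by
    intro y
    exact thg_mem v (algebraMap (𝓞 K) (𝓞 F) y)
  have hmax : (Ideal.span {β}).IsMaximal := by
    have h1 : (Ideal.span {β}).IsPrime := (Ideal.span_singleton_prime hβ.ne_zero).2 hβ
    refine h1.isMaximal ?_
    rw [Ne, Ideal.span_singleton_eq_bot]
    exact hβ.ne_zero
  have heq : Ideal.span {β} = (v.under (𝓞 K)).asIdeal := by
    refine hmax.eq_of_le (v.under (𝓞 K)).isPrime.ne_top ?_
    rw [Ideal.span_le, Set.singleton_subset_iff]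
    exact (hmem β).1 hv
  rw [hmem, ← heq, Ideal.mem_span_singleton]

end

private theorem thg_pl {ℓ p : ℕ} (hℓ : ℓ.Prime) (hp : p.Prime) (h : ℓ ∣ p - 1) : p.Coprime ℓ := by
  rw [Nat.coprime_primes hp hℓ]
  intro e
  subst e
  have h1 := Nat.le_of_dvd (by have := hp.two_le; omega) h
  have := hp.two_le
  omega

private theorem thg_varpi {F : Type} [Field F] [NumberField F] [Algebra K F] {ϖ : 𝓞 K} {ℓ q p : ℕ}
    (h : PD ϖ ℓ q) (v : HeightOneSpectrum (𝓞 F)) (hco : p.Coprime ℓ) (hpm : (p : 𝓞 F) ∈ v.asIdeal) :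
    v.valuation F (algebraMap K F (ϖ : K)) = 1 := by
  have h1 : algebraMap (𝓞 K) (𝓞 F) ϖ ∉ v.asIdeal := by
    intro h2
    have h4 := thg_dvd v h.dvd h2
    rw [map_natCast] at h4
    exact thg_coprime v hco hpm h4
  exact thg_val_one v h1

/-- the element of degree one below a place of prime norm -/
theorem exists_beta {N : Type} [Field N] [NumberField N] [Algebra K N]
    {lam : HeightOneSpectrum (𝓞 N)} (hp : (nrm lam).Prime) : ∃ β : 𝓞 K, Deg1 β (nrm lam) ∧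
    lam.valuation N (algebraMap K N (β : K)) < 1 := by
  obtain ⟨I, hI⟩ : ∃ I : Ideal (𝓞 K), I = lam.asIdeal.comap (algebraMap (𝓞 K) (𝓞 N)) := ⟨_, rfl⟩
  have hIp : I.IsPrime := hI ▸ Ideal.IsPrime.comap _
  have hfin : Finite (𝓞 N ⧸ lam.asIdeal) := lam.asIdeal.finiteQuotientOfFreeOfNeBot lam.ne_bot
  let f : 𝓞 K ⧸ I →+* 𝓞 N ⧸ lam.asIdeal :=
    Ideal.quotientMap lam.asIdeal (algebraMap (𝓞 K) (𝓞 N)) hI.le
  have hinj : Function.Injective f := Ideal.quotientMap_injective' hI.ge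
  have hdvd : Nat.card (𝓞 K ⧸ I) ∣ nrm lam := by
    rw [← thg_card]
    exact AddSubgroup.card_dvd_of_injective f.toAddMonoidHom hinj
  have hfinK : Finite (𝓞 K ⧸ I) := Finite.of_injective f hinj
  have hnt : Nontrivial (𝓞 K ⧸ I) := Ideal.Quotient.nontrivial_iff.2 hIp.ne_top
  have hcard : Nat.card (𝓞 K ⧸ I) = nrm lam := by
    rcases (Nat.dvd_prime hp).1 hdvd with h1 | h1
    · have h2 : 1 < Nat.card (𝓞 K ⧸ I) := Finite.one_lt_card
      omega
    · exact h1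
  obtain ⟨a, ha⟩ := (inferInstance : I.IsPrincipal)
  have ha2 : I = Ideal.span {a} := ha
  refine ⟨a, ⟨hp, ?_⟩, ?_⟩
  · rw [← ha2]
    exact hcard
  · rw [thg_K]
    have h4 : a ∈ I := by
      rw [ha2]
      exact Ideal.mem_span_singleton_self _
    rw [hI] at h4
    exact h4

/-- the factors of a unit are units -/
theorem v_of_mul {F : Type} [Field F] [Algebra K F] {Γ : Type*} [DecidableEq F]
    [LinearOrderedCommGroupWithZero Γ] (v : Valuation F Γ) {a b : 𝓞 K}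
    (h : v (algebraMap K F ((a * b : 𝓞 K) : K)) = 1) :
    v (algebraMap K F (a : K)) = 1 ∧ v (algebraMap K F (b : K)) = 1 := by
  have e : ((a * b : 𝓞 K) : K) = (a : K) * (b : K) := rfl
  rw [e, map_mul, map_mul] at h
  have ha := v_alg_le v a
  have hb := v_alg_le v b
  refine ⟨le_antisymm ha ?_, le_antisymm hb ?_⟩
  · rw [← h]
    exact mul_le_of_le_one_right' hb
  · rw [← h]
    exact mul_le_of_le_one_left' ha

private theorem thg_two (v : HeightOneSpectrum (𝓞 K)) : 2 ≤ Ideal.absNorm v.asIdeal := by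
  have h1 : Ideal.absNorm v.asIdeal ≠ 0 := by
    rw [Ne, Ideal.absNorm_eq_zero_iff]
    exact v.ne_bot
  have h2 : Ideal.absNorm v.asIdeal ≠ 1 := by
    rw [Ne, Ideal.absNorm_eq_one_iff]
    exact v.isPrime.ne_top
  omega

private theorem thg_gen [HC] {F : Type} [Field F] [NumberField F] [Algebra K F]
    (v : HeightOneSpectrum (𝓞 F)) (w : HeightOneSpectrum (𝓞 K)) (hw : v.under (𝓞 K) = w)
    (hn : Ideal.absNorm w.asIdeal = Ideal.absNorm v.asIdeal) :
    psi F v.asIdeal = ps w.asIdeal := by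
  have h0 : w.asIdeal.IsMaximal := w.isMaximal
  have h1 : v.asIdeal.LiesOver w.asIdeal := by
    rw [← hw]
    exact ⟨rfl⟩
  have hrel : Ideal.relNorm (𝓞 K) v.asIdeal = w.asIdeal ^ v.asIdeal.inertiaDeg (𝓞 K) :=
    Ideal.relNorm_eq_pow_of_isMaximal v.asIdeal w.asIdeal
  have hab : Ideal.absNorm (Ideal.relNorm (𝓞 K) v.asIdeal) = Ideal.absNorm v.asIdeal :=
    Ideal.absNorm_relNorm _ _ _
  rw [hrel, map_pow, ← hn] at hab
  have hf : v.asIdeal.inertiaDeg (𝓞 K) = 1 := by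
    refine Nat.pow_right_injective (thg_two w) ?_
    simp only [pow_one]
    exact hab
  rw [psi_pow, hf, hw, pow_one]

private theorem thg_psi [HC] (v : HeightOneSpectrum (𝓞 K)) (h : ((CD.bad : ℤ) : 𝓞 K) ∉ v.asIdeal) :
    Ideal.span {psi K v.asIdeal} = v.asIdeal := by
  rw [thg_gen v v ?_ rfl]
  · exact ps_span v h
  · apply HeightOneSpectrum.ext
    ext x
    exact Iff.of_eq (congrArg (fun z => z ∈ v.asIdeal) (RingOfIntegers.ext rfl))

section
variable [FP] [HC] {μ : 𝓞 K} {H : Subgroup (CU μ)} {ϖ : 𝓞 K} {ℓ q : ℕ} {F N L : Type} [Field F] [NumberField F] [Algebra K F]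
  [Field N] [NumberField N] [Algebra K N] [Algebra F N] [IsScalarTower K F N] [IsGalois F N]
  [DecidableEq N] [Field L] [NumberField L] [Algebra K L] [Algebra F L] [Algebra N L]
  [IsScalarTower K F L] [IsScalarTower K N L] [IsScalarTower F N L] [DecidableEq L]
  {P : Pt N} {J : Pt L} (hG : TopG H ϖ ℓ q F N L P J)
  {lam : HeightOneSpectrum (𝓞 L)} (hp : (nrm lam).Prime) (hl : ℓ ∣ nrm lam - 1)
  (hlb : lam.valuation L (bD L) = 1)
  (hlμ : lam.valuation L (algebraMap K L ((μ * pk : 𝓞 K) : K)) = 1)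
include hG hp hl hlb hlμ

theorem TopG.fix_beta {β : 𝓞 K} (hβ : Deg1 β (nrm lam))
    (hb : lam.valuation L (algebraMap K L (β : K)) < 1) :
    ¬ β ∣ (ℓ : 𝓞 K) * pk ∧ ∃ β' : 𝓞 K, Associated β β' ∧ sm L β' J = J ∧
      sm L β' (up L P) = up L P := by
  have hgal : IsGalois K L := hG.gal
  have h := hG.pd
  have hco : (nrm lam).Coprime ℓ := thg_pl h.hl hp hl
  have hbm := (thg_K lam β).1 hb
  have hpm : ((nrm lam : ℕ) : 𝓞 L) ∈ lam.asIdeal := thg_beta_p lam hβ hbm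
  have hϖ1 := thg_varpi h lam hco hpm
  have hmax : (Ideal.span {β}).IsMaximal := by
    have h1 : (Ideal.span {β}).IsPrime := (Ideal.span_singleton_prime hβ.isPrime.ne_zero).2 hβ.isPrime
    refine h1.isMaximal ?_
    rw [Ne, Ideal.span_singleton_eq_bot]
    exact hβ.isPrime.ne_zero
  have heq : Ideal.span {β} = (lam.under (𝓞 K)).asIdeal := by
    refine hmax.eq_of_le (lam.under (𝓞 K)).isPrime.ne_top ?_
    rw [Ideal.span_le, Set.singleton_subset_iff]
    exact hbm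
  have hnorm : Ideal.absNorm (lam.under (𝓞 K)).asIdeal = nrm lam := by
    rw [← heq]
    exact hβ.norm
  have hσ : ∀ x : 𝓞 L, (1 : Gal(L/K)) • x -
      x ^ (Ideal.absNorm (lam.under (𝓞 K)).asIdeal) ∈ lam.asIdeal := by
    intro x
    rw [one_smul, hnorm]
    exact thg_frob lam x
  have hD : ((CD.bad : ℤ) : 𝓞 K) ∉ (lam.under (𝓞 K)).asIdeal := by
    intro h1
    have h2 : algebraMap (𝓞 K) (𝓞 L) ((CD.bad : ℤ) : 𝓞 K) ∈ lam.asIdeal := h1
    rw [map_intCast, ← thg_mem] at h2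
    have e : ((((CD.bad : ℤ) : 𝓞 L)) : L) = bD L := map_intCast (algebraMap (𝓞 L) L) _
    rw [e, hlb] at h2
    exact lt_irrefl _ h2
  refine ⟨fun hd => ?_, psi K (lam.under (𝓞 K)).asIdeal, ?_, ?_, ?_⟩
  · rcases hβ.isPrime.dvd_or_dvd hd with h0 | h0
    · have h1 : β ∣ ((ℓ : ℤ) : 𝓞 K) := by simpa using h0
      have h2 := (hβ.dvd_int_iff ℓ).1 h1
      have h3 : nrm lam ∣ ℓ := by exact_mod_cast h2
      have h4 := (Nat.prime_dvd_prime_iff_eq hp h.hl).1 h3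
      rw [h4] at hco
      exact h.hl.one_lt.ne' ((Nat.coprime_self _).1 hco)
    · have h1 := (thg_beta_dvd hβ.isPrime hb _).2 h0
      rw [(v_of_mul _ hlμ).2] at h1
      exact lt_irrefl _ h1
  · rw [← Ideal.span_singleton_eq_span_singleton, heq, thg_psi _ hD]
  · have h1 := frob lam hlb (1 : Gal(L/K)) hσ (v_of_mul _ hlμ).1 ((hG.ord _).2 dvd_rfl)
    rw [ga_one] at h1
    exact h1.symm
  · have h1 := frob lam hlb (1 : Gal(L/K)) hσ hϖ1 ((hG.ordP _).2 dvd_rfl)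
    rw [ga_one] at h1
    exact h1.symm

variable {T : Finset (𝓞 K)} {iv : 𝓞 K → 𝓞 K} {n : 𝓞 K → ℤ} (hT : TrD ϖ ℓ T iv n)
  {b : ℤ} (hb : ∀ x : ℤ, ¬ (nrm lam : ℤ) ∣ x → ∃ i : ℕ, (nrm lam : ℤ) ∣ x - b ^ i)
  (hb0 : ¬ (nrm lam : ℤ) ∣ b) (hb1 : ∀ i : ℕ, (nrm lam : ℤ) ∣ b ^ i - 1 → nrm lam - 1 ∣ i)
include hT hb hb0 hb1

theorem TopG.thaineG [Fintype (U H)] {f : HeightOneSpectrum (𝓞 L) → ZMod ℓ} (hf : PrincZero f)
    (hf3 : ∀ v : HeightOneSpectrum (𝓞 L), v.valuation L (bD L) < 1 → f v = 0)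
    (c : U H → 𝓞 K) : ∃ a : Gal(L/K) → ℤ, (∀ σ : Gal(L/K),
      (gpl σ lam).valuation L (XX T iv n (up L P) J c - (b : L) ^ a σ) < 1) ∧
      ∑ σ : Gal(L/K), (a σ : ZMod ℓ) * f (gpl σ lam) = 0 := by
  classical
  have hgal : IsGalois K L := hG.gal
  have h := hG.pd
  have hco : (nrm lam).Coprime ℓ := thg_pl h.hl hp hl
  have hpm : ((nrm lam : ℕ) : 𝓞 L) ∈ lam.asIdeal := by
    rw [nrm_eq]
    exact Ideal.absNorm_mem _
  have hϖ1 := thg_varpi h lam hco hpm
  -- the places `gpl σ lam` are distinct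
  have hinj : ∀ σ τ : Gal(L/K), gpl σ lam = gpl τ lam → σ = τ := by
    intro σ τ hστ
    have h1 : gpl (τ⁻¹ * σ) lam = lam := by
      rw [gpl_mul, hστ, ← gpl_mul, inv_mul_cancel, gpl_one]
    have h2 : τ⁻¹ * σ = 1 := by
      refine hG.nosG lam hlb (v_of_mul _ hlμ).1 hϖ1 _ ?_
      intro x
      obtain ⟨m, hm⟩ := thg_int lam hp x
      have h3 : (τ⁻¹ * σ) • (x - (m : 𝓞 L)) ∈ lam.asIdeal := by
        rw [← thg_mem] at hm ⊢
        have h4 := gpl_val (τ⁻¹ * σ) lam ((x - (m : 𝓞 L) : 𝓞 L) : L)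
        rw [h1] at h4
        have h5 : (((τ⁻¹ * σ) • (x - (m : 𝓞 L)) : 𝓞 L) : L) =
          (τ⁻¹ * σ) ((x - (m : 𝓞 L) : 𝓞 L) : L) := rfl
        rw [h5, h4]
        exact hm
      have h6 := lam.asIdeal.sub_mem h3 hm
      have h7 : (τ⁻¹ * σ) • (x - (m : 𝓞 L)) - (x - (m : 𝓞 L)) = (τ⁻¹ * σ) • x - x := by
        rw [smul_sub]
        have h8 : (τ⁻¹ * σ) • (m : 𝓞 L) = (m : 𝓞 L) :=
          map_intCast (MulSemiringAction.toRingHom Gal(L/K) (𝓞 L) (τ⁻¹ * σ)) m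
        rw [h8]
        ring
      rwa [h7] at h6
    exact (inv_mul_eq_one.1 h2).symm
  have hℓ : Fact ℓ.Prime := ⟨h.hl⟩
  obtain ⟨β, hβ, hlamβ⟩ := exists_beta (N := L) hp
  obtain ⟨hβϖ, β', hβ', hJβ, hPβ⟩ := hG.fix_beta hp hl hlb hlμ hβ hlamβ
  have hμβ : μ ∣ β' - 1 := by
    have h1 : sm L β' J = sm L 1 J := by
      rw [hJβ, map_one]
      rfl
    exact (hG.ord.sm_eq_iff β' 1).1 h1
  obtain ⟨L3, iF, iNF, iKL, i0, iNL, s0, s1, s2, g0, g1, R, hR, hgen⟩ :=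
    exists_ext L L hβ.isPrime.ne_zero
  clear g0 s2 s0 i0
  -- the places which contain `β`
  have hβval : ∀ v : HeightOneSpectrum (𝓞 L), v.valuation L (algebraMap K L (β : K)) < 1 ↔
      ∃ σ : Gal(L/K), gpl σ lam = v := by
    intro v
    constructor
    · intro hv
      refine gpl_trans lam v ?_
      apply HeightOneSpectrum.ext
      ext x
      have key : ∀ u : HeightOneSpectrum (𝓞 L), u.valuation L (algebraMap K L (β : K)) < 1 →
          (x ∈ (u.under (𝓞 K)).asIdeal ↔ β ∣ x) := by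
        intro u hu
        rw [← thg_beta_dvd hβ.isPrime hu x]
        exact (thg_mem u (algebraMap (𝓞 K) (𝓞 L) x)).symm
      rw [key lam hlamβ, key v hv]
    · rintro ⟨σ, rfl⟩
      have h1 := gpl_val σ lam (algebraMap K L (β : K))
      rw [AlgEquiv.commutes] at h1
      rw [h1]
      exact hlamβ
  have hbad : ∀ v : HeightOneSpectrum (𝓞 L), v.valuation L (algebraMap K L (β : K)) < 1 →
      v.valuation L (bD L) = 1 := by
    intro v hv
    obtain ⟨σ, rfl⟩ := (hβval v).1 hv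
    have h1 := gpl_val σ lam (bD L)
    rw [map_intCast, hlb] at h1
    exact h1
  have hod : ∀ v : HeightOneSpectrum (𝓞 L), v.valuation L (algebraMap K L (β : K)) < 1 →
      od v (algebraMap K L (β : K)) = 1 := by
    intro v hv
    have hbm := (thg_K v β).1 hv
    have hpv : ((nrm lam : ℕ) : 𝓞 L) ∈ v.asIdeal := thg_beta_p v hβ hbm
    have kμ : v.valuation L (algebraMap K L (μ : K)) = 1 :=
      thg_val_one v (thg_sub v hμβ (thg_dvd v hβ'.dvd hbm))
    have hram : v.asIdeal.ramificationIdx (𝓞 K) = 1 :=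
      hG.unramG v (hbad v hv) kμ (thg_varpi h v hco hpv)
    rw [od_map, hram, Nat.cast_one, one_mul]
    rw [val_map_lt] at hv
    exact od_prime_K hβ.isPrime _ hv
  have hram := fun (v : HeightOneSpectrum (𝓞 L))
    (hv : v.valuation L (algebraMap K L (β : K)) < 1) =>
      ram (k := L) (F := L3) hβ.isPrime hR hgen v (hod v hv) (hbad v hv)
  obtain ⟨hfin, -, hall⟩ := hram lam hlamβ
  rw [hβ.norm] at hfin
  have hfin' : Module.finrank L L3 = nrm lam - 1 := by omega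
  obtain ⟨τ, hτ⟩ := hall (b : 𝓞 K) (by rw [hβ.dvd_int_iff]; exact hb0)
  have hpow : ∀ i : ℕ, ga (τ ^ i) R = sm L3 ((b : 𝓞 K) ^ i) R := by
    intro i
    induction i with
    | zero => rw [pow_zero, ga_one, pow_zero, map_one]; rfl
    | succ i ih =>
      rw [pow_succ, ga_mul, hτ, ga_sm, ih, pow_succ', map_mul]
      rfl
  have hgenτ : ∀ σ : Gal(L3/L), σ ∈ Subgroup.zpowers τ := by
    intro σ
    obtain ⟨c', hc', hσ⟩ := gal_sm (k := L) hβ.isPrime.ne_zero hR σ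
    obtain ⟨j, hj, hcj⟩ := hβ.exists_int c'
    have hndvd : ¬ β ∣ c' := fun hd => hβ.isPrime.not_isUnit (hc'.isUnit_of_dvd' hd dvd_rfl)
    have hpj : ¬ (nrm lam : ℤ) ∣ (j : ℤ) := by
      intro hd
      apply hndvd
      have h1 := (hβ.dvd_int_iff (j : ℤ)).2 hd
      rw [Int.cast_natCast] at h1
      have h2 := dvd_add hcj h1
      rwa [sub_add_cancel] at h2
    obtain ⟨i, hi⟩ := hb j hpj
    have h3 : β ∣ c' - (b : 𝓞 K) ^ i := by
      have h4 := (hβ.dvd_int_iff ((j : ℤ) - b ^ i)).2 hi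
      rw [Int.cast_sub, Int.cast_natCast, Int.cast_pow] at h4
      have h5 := dvd_add hcj h4
      rwa [sub_add_sub_cancel] at h5
    have h6 : ga σ R = ga (τ ^ i) R := by
      rw [hσ, hpow, hR.sm_eq_iff]
      exact h3
    have h7 : ga ((τ ^ i)⁻¹ * σ) R = R := by
      rw [ga_mul, h6, ← ga_mul, inv_mul_cancel, ga_one]
    have h8 := hgen _ h7
    rw [(inv_mul_eq_one.1 h8).symm]
    exact Subgroup.npow_mem_zpowers τ i
  have hy : Algebra.norm L (yyG T iv n (up L P) J R c) = 1 :=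
    yyG_norm h hT hG.ordP hG.copw hG.nlam hG.ord hβ hβ' hβϖ hR hJβ hPβ hgen hall c
  have hyu : ∀ W : HeightOneSpectrum (𝓞 L3), W.valuation L3 (yyG T iv n (up L P) J R c) = 1 :=
    fun W => yyG_val h hT hG.ordP hG.copw hG.nlam hG.ord hβ hβ' hβϖ hR hJβ (W.valuation L3) c
  -- the relation
  let Z : Finset (HeightOneSpectrum (𝓞 L)) :=
    Finset.univ.image fun σ : Gal(L/K) => gpl σ lam
  have hZmem : ∀ v : HeightOneSpectrum (𝓞 L), v ∈ Z ↔
      v.valuation L (algebraMap K L (β : K)) < 1 := by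
    intro v
    rw [hβval]
    simp [Z]
  obtain ⟨a, ha, hsum⟩ := thaine (ℓ := ℓ) (N := L) (L := L3) (by rw [hfin']; exact hl) hgenτ hy hyu
    Z (t := tc R) (b := b) (by
      intro W hW
      have hv := (hZmem _).1 hW
      obtain ⟨h1, -, h2, h3, -⟩ := (hram _ hv).2.1 W rfl
      refine ⟨h1, h2, ?_⟩
      have h4 : τ (tc R) = tc (sm L3 (b : 𝓞 K) R) := by
        rw [← hτ]
        exact (tc_pm ((τ : L3 →ₐ[L] L3).restrictScalars K) R).symm
      have h5 := ker_sm_t (W.valuation L3) h3 (b : 𝓞 K)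
      have h6 : algebraMap K L3 (((b : ℤ) : 𝓞 K) : K) = (b : L3) := by simp
      rw [h6] at h5
      rw [h4]
      refine lt_of_le_of_lt h5 ?_
      have ht0 : tc R ≠ 0 := by
        intro h7
        rw [h7] at h2
        simp [od] at h2
      rw [val_eq W ht0, h2, ← WithZero.exp_nsmul, WithZero.exp_lt_exp]
      norm_num) hf (by
      intro W hW
      rw [hZmem] at hW
      by_cases h3 : (W.under (𝓞 L)).valuation L (bD L) < 1
      · exact Or.inl (hf3 _ h3)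
      · right
        have hle : (W.under (𝓞 L)).valuation L (bD L) ≤ 1 := by
          have h4 := (W.under (𝓞 L)).valuation_le_one (K := L) ((CD.bad : ℤ) : 𝓞 L)
          have h5 : ((((CD.bad : ℤ) : 𝓞 L)) : L) = bD L := map_intCast (algebraMap (𝓞 L) L) _
          rw [← h5]
          exact h4
        have h3' : (W.under (𝓞 L)).valuation L (bD L) = 1 := le_antisymm hle (not_lt.1 h3)
        have hβ' : (W.under (𝓞 L)).valuation L (algebraMap K L (β : K)) = 1 :=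
          le_antisymm (v_alg_le _ β) (not_lt.1 hW)
        have h5 : W.valuation L3 (bD L3) = 1 := by
          have h6 := (val_map_eq W (bD L)).2 h3'
          rwa [map_intCast] at h6
        have h7 : W.valuation L3 (algebraMap K L3 (β : K)) = 1 := by
          rw [IsScalarTower.algebraMap_apply K L L3]
          exact (val_map_eq W _).2 hβ'
        rw [unram (k := L) hβ.isPrime hR hgen W h5 h7]
        intro h8
        exact h.hl.one_lt.ne' (Nat.dvd_one.1 h8))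
  refine ⟨fun σ => a (gpl σ lam), ?_, ?_⟩
  · intro σ
    obtain ⟨W, hW⟩ := thg_over (L := L3) (gpl σ lam)
    have hv : (gpl σ lam).valuation L (algebraMap K L (β : K)) < 1 := (hβval _).2 ⟨σ, rfl⟩
    have h1 := ha W (by rw [hW, hZmem]; exact hv)
    rw [hW] at h1
    have hWβ : W.valuation L3 (algebraMap K L3 (β : K)) < 1 := by
      rw [IsScalarTower.algebraMap_apply K L L3, val_map_lt, hW]
      exact hv
    have hWb : W.valuation L3 (bD L3) = 1 := by
      have h6 := (val_map_eq W (bD L)).2 (by rw [hW]; exact hbad _ hv)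
      rwa [map_intCast] at h6
    have h2 := yyG_cong h hT hG.ordP hG.copw hG.nlam hG.ord hβ hβ' hβϖ hR hJβ (W.valuation L3) hWβ hWb c
    have h3 : W.valuation L3 (algebraMap L L3 (XX T iv n (up L P) J c -
        (b : L) ^ a (gpl σ lam))) < 1 := by
      have h4 : algebraMap L L3 (XX T iv n (up L P) J c - (b : L) ^ a (gpl σ lam)) =
          (yyG T iv n (up L P) J R c - (b : L3) ^ a (gpl σ lam)) -
            (yyG T iv n (up L P) J R c - algebraMap L L3 (XX T iv n (up L P) J c)) := by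
        rw [map_sub, map_zpow₀, map_intCast]
        ring
      rw [h4]
      exact lt_of_le_of_lt (Valuation.map_sub _ _ _) (max_lt h1 h2)
    rw [val_map_lt, hW] at h3
    exact h3
  · rw [← hsum]
    refine (Finset.sum_image (s := Finset.univ) (g := fun σ : Gal(L/K) => gpl σ lam)
      (f := fun v => (a v : ZMod ℓ) * f v) ?_).symm
    intro σ _ τ' _ hστ
    exact hinj σ τ' hστ

end

end

end Pool.Agent.Lib.MP_1a91b9_nuX.DG

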