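import Pool.Agent.Lib.MP_1a91b9_nuX.DG.LamV
import Pool.Agent.Lib.MP_1a91b9_nuX.DG.GalU
import Pool.Agent.Lib.MP_1a91b9_nuX.DG.Hps

/-!
# The traces of the values `lamQ`
-/

set_option autoImplicit false

namespace Pool.Agent.Lib.MP_1a91b9_nuX.DG

variable [Pool.Agent.Lib.MP_1a91b9_nuT.CD]

open NumberField IsDedekindDomain WeierstrassCurve Pool.Agent.Lib.MP_1a91b9_nuT
open Pool.Agent.Lib.MP_1a91b9_nuX.DB

noncomputable section

private theorem trv_congr {ν a b : 𝓞 K} (hν : ν ≠ 0) (h : ν ∣ a - b) :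
    E1 (embK (a : K) / embK (ν : K)) = E1 (embK (b : K) / embK (ν : K)) := by
  obtain ⟨e, he⟩ := h
  have h1 : (a : K) = (b : K) + (ν : K) * (e : K) := by
    have h0 := congrArg (algebraMap (𝓞 K) K) he
    rw [map_sub, map_mul] at h0
    have h3 : (a : K) - (b : K) = (ν : K) * (e : K) := h0
    linear_combination h3
  have h2 : embK (a : K) / embK (ν : K) = embK (b : K) / embK (ν : K) + embK (e : K) := by
    rw [h1, map_add, map_mul, add_div, mul_div_cancel_left₀ _ (Mult.embK_ne_zero hν)]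
  rw [h2, E1_period]

private theorem trv_unit {ν : 𝓞 K} (η : (𝓞 K)ˣ) (a : 𝓞 K) :
    embK ((η : 𝓞 K) : K) * E1 (embK (((η : 𝓞 K) * a : 𝓞 K) : K) / embK (ν : K)) =
      E1 (embK (a : K) / embK (ν : K)) := by
  rw [emb_mul, mul_div_assoc, E1_unit]

theorem norm_emb_sq (a : 𝓞 K) :
    ‖embK (a : K)‖ ^ 2 = (Ideal.absNorm (Ideal.span {a}) : ℝ) := by
  rw [← normSq_emb, Complex.normSq_eq_norm_sq]

theorem norm_emb_unit (η : (𝓞 K)ˣ) : ‖embK ((η : 𝓞 K) : K)‖ = 1 := by
  have h1 := norm_emb_sq (η : 𝓞 K)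
  rw [Ideal.span_singleton_eq_top.2 η.isUnit, Ideal.absNorm_top, Nat.cast_one] at h1
  exact (pow_eq_one_iff_of_nonneg (norm_nonneg _) two_ne_zero).1 h1

variable [FP] [HC]

section
variable {μ : 𝓞 K} {H : Subgroup (CU μ)} {F L' : Type} [Field F] [NumberField F] [Algebra K F]
  [Field L'] [NumberField L'] [Algebra K L'] [Algebra F L'] [IsScalarTower K F L']
  [DecidableEq L'] {J' : Pt L'} (hAB : AB H F L' J')
include hAB

omit [FP] [HC] hAB in
private theorem trv_shift [Fintype (U H)] {G : Type} [Group G] [DecidableEq G] (res : U H →* G)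
    (f : U H → ℂ) (t : U H) (g : G) : ∑ u : U H, (if res u = g then f (u * t) else 0) =
      ∑ u : U H, if res u = g * res t then f u else 0 := by
  refine Fintype.sum_equiv (Equiv.mulRight t) _ _ fun u => ?_
  show (if res u = g then f (u * t) else 0) = if res (u * t) = g * res t then f (u * t) else 0
  by_cases hu : res u = g
  · rw [if_pos hu, if_pos (by rw [map_mul, hu])]
  · rw [if_neg hu, if_neg fun h => hu (by
      rw [map_mul] at h
      exact mul_right_cancel h)]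

/-- the traces of `lamQ` -/
theorem AB.trace_val (hM : Md μ) (hpk : IsCoprime pk μ) [Fintype (U H)] [DecidableEq Gal(F/K)]
    {res : U H →* Gal(F/K)}
    (hres : ∀ (σ : Gal(L'/K)) (u : U H), ga σ J' = smU J' u →
      ∀ x : F, algebraMap F L' (res u x) = σ (algebraMap F L' x)) (φ : L' →ₐ[K] ℂ) :
    ∃ (κ c : ℂ) (u0 u1 : U H), κ ≠ 0 ∧
      ‖c‖ < ‖(Ideal.absNorm (Ideal.span {(pk : 𝓞 K)}) : ℂ)‖ ∧ ∀ g : Gal(F/K),
      Om * φ (algebraMap F L' (g (Algebra.trace F L' (lamQ J')))) =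
        κ * (c * (∑ u : U H, if res u = g * res u0 * res u1 then
            (embK (μ : K))⁻¹ * E1 (embK ((rp u : 𝓞 K) : K) / embK (μ : K)) else 0) -
          (Ideal.absNorm (Ideal.span {(pk : 𝓞 K)}) : ℂ) *
            (∑ u : U H, if res u = g * res u0 then
              (embK (μ : K))⁻¹ * E1 (embK ((rp u : 𝓞 K) : K) / embK (μ : K)) else 0)) := by
  have hl : ¬ μ ∣ pk := fun h => hM.not_unit (hpk.symm.isUnit_of_dvd' dvd_rfl h)
  obtain ⟨y0, hy0, hval⟩ := lam_val hM.ne hl hM.two φ hAB.ord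
  obtain ⟨η, u0, hη⟩ := hAB.unit_mul hM hy0
  obtain ⟨η1, u1, hη1⟩ := hAB.unit_mul hM hpk
  have hη0 : embK ((η : 𝓞 K) : K) ≠ 0 := Mult.embK_ne_zero η.ne_zero
  have hη10 : embK ((η1 : 𝓞 K) : K) ≠ 0 := Mult.embK_ne_zero η1.ne_zero
  have hμ0 : embK (μ : K) ≠ 0 := Mult.embK_ne_zero hM.ne
  have hN1 : (1 : ℝ) < (Ideal.absNorm (Ideal.span {(pk : 𝓞 K)}) : ℝ) := by
    have h1 : Ideal.absNorm (Ideal.span {(pk : 𝓞 K)}) ≠ 0 := by
      rw [Ne, Ideal.absNorm_eq_zero_iff, Ideal.span_singleton_eq_bot]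
      exact pk_ne
    have h2 : Ideal.absNorm (Ideal.span {(pk : 𝓞 K)}) ≠ 1 := by
      rw [Ne, Ideal.absNorm_eq_one_iff, Ideal.span_singleton_eq_top]
      exact pk_nu
    have h3 : 1 < Ideal.absNorm (Ideal.span {(pk : 𝓞 K)}) := by omega
    exact_mod_cast h3
  refine ⟨2 * embK (μ : K) * (embK ((η : 𝓞 K) : K))⁻¹,
    embK ((pk : 𝓞 K) : K) * (embK ((η1 : 𝓞 K) : K))⁻¹, u0, u1, ?_, ?_, fun g => ?_⟩
  · exact mul_ne_zero (mul_ne_zero two_ne_zero hμ0) (inv_ne_zero hη0)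
  · rw [norm_mul, norm_inv, norm_emb_unit, inv_one, mul_one, Complex.norm_natCast]
    have h1 := norm_emb_sq (pk : 𝓞 K)
    have h2 : 0 ≤ ‖embK ((pk : 𝓞 K) : K)‖ := norm_nonneg _
    nlinarith
  · have hg : ∀ u : U H, (g : Gal(F/K)) = g := fun _ => rfl
    rw [hAB.trace_res hres g, map_sum, Finset.mul_sum]
    have e1 : ∀ u : U H, Om * φ (haveI := Classical.dec (res u = g);
        if res u = g then lamQ (smU J' u) else 0) =
        2 * embK (μ : K) * (embK ((η : 𝓞 K) : K))⁻¹ *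
          (embK ((pk : 𝓞 K) : K) * (embK ((η1 : 𝓞 K) : K))⁻¹ *
            (if res u = g then (embK (μ : K))⁻¹ *
              E1 (embK ((rp (u * (u0 * u1)) : 𝓞 K) : K) / embK (μ : K)) else 0) -
          (Ideal.absNorm (Ideal.span {(pk : 𝓞 K)}) : ℂ) *
            (if res u = g then (embK (μ : K))⁻¹ *
              E1 (embK ((rp (u * u0) : 𝓞 K) : K) / embK (μ : K)) else 0)) := by
      intro u
      by_cases hu : res u = g
      · rw [if_pos hu, if_pos hu, if_pos hu]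
        have e2 := hval (rp u) (rp_cop u)
        have e3 : μ ∣ rp u * y0 - (η : 𝓞 K) * rp (u * u0) := by
          have e4 : rp u * y0 - (η : 𝓞 K) * rp (u * u0) =
              rp u * (y0 - η * rp u0) - η * (rp (u * u0) - rp u * rp u0) := by ring
          rw [e4]
          exact dvd_sub (Dvd.dvd.mul_left hη _) (Dvd.dvd.mul_left (rp_mul u u0) _)
        have e4 : μ ∣ pk * (rp u * y0) - (((η1 * η : (𝓞 K)ˣ)) : 𝓞 K) * rp (u * (u0 * u1)) := by
          have e5 : pk * (rp u * y0) - (((η1 * η : (𝓞 K)ˣ)) : 𝓞 K) * rp (u * (u0 * u1)) =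
              pk * (rp u * y0 - η * rp (u * u0)) + (pk - η1 * rp u1) * (η * rp (u * u0)) -
                (η1 * η : 𝓞 K) * (rp (u * u0 * u1) - rp (u * u0) * rp u1) := by
            rw [Units.val_mul, mul_assoc u u0 u1]
            ring
          rw [e5]
          exact dvd_sub (dvd_add (Dvd.dvd.mul_left e3 _) (Dvd.dvd.mul_right hη1 _))
            (Dvd.dvd.mul_left (rp_mul (u * u0) u1) _)
        have e5 : E1 (embK ((rp u * y0 : 𝓞 K) : K) / embK (μ : K)) =
            (embK ((η : 𝓞 K) : K))⁻¹ * E1 (embK ((rp (u * u0) : 𝓞 K) : K) / embK (μ : K)) := by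
          rw [trv_congr hM.ne e3, ← trv_unit η (rp (u * u0)), inv_mul_cancel_left₀ hη0]
        have e6 : E1 (embK ((pk * (rp u * y0) : 𝓞 K) : K) / embK (μ : K)) =
            (embK ((η1 : 𝓞 K) : K))⁻¹ * (embK ((η : 𝓞 K) : K))⁻¹ *
              E1 (embK ((rp (u * (u0 * u1)) : 𝓞 K) : K) / embK (μ : K)) := by
          have e7 : embK ((((η1 * η : (𝓞 K)ˣ)) : 𝓞 K) : K) =
              embK ((η1 : 𝓞 K) : K) * embK ((η : 𝓞 K) : K) := by
            rw [Units.val_mul, emb_mul]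
          rw [trv_congr hM.ne e4, ← trv_unit (η1 * η) (rp (u * (u0 * u1))), e7]
          field_simp
        show Om * φ (lamQ (sm L' (rp u) J')) = _
        rw [e2, e5, e6]
        field_simp
      · rw [if_neg hu, if_neg hu, if_neg hu, map_zero]
        ring
    rw [Finset.sum_congr rfl fun u _ => e1 u, ← Finset.mul_sum, Finset.sum_sub_distrib,
      ← Finset.mul_sum, ← Finset.mul_sum]
    rw [trv_shift res (fun v => (embK (μ : K))⁻¹ *
        E1 (embK ((rp v : 𝓞 K) : K) / embK (μ : K))) (u0 * u1) g,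
      trv_shift res (fun v => (embK (μ : K))⁻¹ *
        E1 (embK ((rp v : 𝓞 K) : K) / embK (μ : K))) u0 g, map_mul, ← mul_assoc g]

end

end

end Pool.Agent.Lib.MP_1a91b9_nuX.DG
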