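import Pool.Agent.Lib.MP_1a91b9_nuX.DG.AddK
import Pool.Agent.Lib.MP_1a91b9_nuX.DG.XXa
import Pool.Agent.Lib.MP_1a91b9_nuX.DG.FqD
import Pool.Agent.Lib.MP_1a91b9_nuX.DG.FqL
import Pool.Agent.Lib.MP_1a91b9_nuX.DG.Up
import Pool.Agent.Lib.MP_1a91b9_nuT.DB.YY

/-!
# the units of the larger field
-/

set_option autoImplicit false

namespace Pool.Agent.Lib.MP_1a91b9_nuX.DG

variable [Pool.Agent.Lib.MP_1a91b9_nuT.CD]

open NumberField IsDedekindDomain WeierstrassCurve Pool.Agent.Lib.MP_1a91b9_nuT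
open Pool.Agent.Lib.MP_1a91b9_nuX.DB

noncomputable section

variable [FP]

section
variable {N L : Type} [Field N] [NumberField N] [Algebra K N] [DecidableEq N] [Field L]
  [NumberField L] [Algebra K L] [DecidableEq L] [Algebra N L] [IsScalarTower K N L]

/-- the elliptic unit of the larger field -/
def yyG {μ : 𝓞 K} {H : Subgroup (CU μ)} [Fintype (U H)] (T : Finset (𝓞 K)) (iv : 𝓞 K → 𝓞 K) (n : 𝓞 K → ℤ)
    (P J : Pt N) (R : Pt L) (c : U H → 𝓞 K) : L :=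
  ∏ u : U H, ∏ a ∈ T, fq (up L (smU J u) + sm L a (up L P) + R) ^ n (c u * iv a)

omit [FP] [NumberField N] [Algebra K N] [DecidableEq N] [NumberField L] [Algebra K L] [DecidableEq L]
  [IsScalarTower K N L] [Algebra N L] in
private theorem JYYG_zpow {κ : L} (hκ : κ ≠ 0) (s : Finset (𝓞 K)) (g : 𝓞 K → ℤ) :
    ∏ a ∈ s, κ ^ g a = κ ^ (∑ a ∈ s, g a) := by
  classical
  induction s using Finset.induction_on with
  | empty => simp
  | insert a s ha ih =>
    rw [Finset.prod_insert ha, Finset.sum_insert ha, ih, zpow_add₀ hκ]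

omit [FP] in
private theorem JYYG_up0 : up L (0 : Pt N) = 0 := map_zero _

/-- the condition on `β`: it does not divide `ℓ pk` -/
theorem cop_of_not {β : 𝓞 K} {p ℓ : ℕ} (hβ : Deg1 β p) (hβϖ : ¬ β ∣ (ℓ : 𝓞 K) * pk) :
    IsCoprime β ((ℓ : 𝓞 K) * pk) := hβ.isPrime.irreducible.coprime_iff_not_dvd.2 hβϖ

variable {ϖ : 𝓞 K} {ℓ q : ℕ} (h : PD ϖ ℓ q) {T : Finset (𝓞 K)} {iv : 𝓞 K → 𝓞 K} {n : 𝓞 K → ℤ}
  (hT : TrD ϖ ℓ T iv n) {P : Pt N} (hP : Ord ϖ P) {μ : 𝓞 K} {H : Subgroup (CU μ)} [Fintype (U H)]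
  (hμϖ : CW ℓ μ) (hl : ¬ μ ∣ pk) {J : Pt N} (hJ : Ord μ J) {β β' : 𝓞 K} {p : ℕ}
  (hβ : Deg1 β p) (hβ' : Associated β β') (hβϖ : ¬ β ∣ (ℓ : 𝓞 K) * pk) {R : Pt L} (hR : Ord β R)
  (hJβ : sm N β' J = J)

include hJ hβ' hJβ in
omit [FP] in
private theorem JYYG_copb : IsCoprime μ β := by
  obtain ⟨w, hw⟩ := hβ'
  have h1 : μ ∣ β' - 1 := by
    rw [← hJ.sm_eq_iff, hJβ, map_one]
    rfl
  obtain ⟨c, hc⟩ := h1
  refine ⟨-c, (w : 𝓞 K), ?_⟩
  rw [← hw] at hc
  linear_combination hc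

include hβ hβϖ in
private theorem JYYG_pb : IsCoprime β pk :=
  IsCoprime.of_isCoprime_of_dvd_right (cop_of_not hβ hβϖ) (dvd_mul_left _ _)

include h hβ hβϖ in
private theorem JYYG_bϖ : IsCoprime β ϖ :=
  IsCoprime.of_isCoprime_of_dvd_right (cop_of_not hβ hβϖ) (h.dvd.mul_right _)

include h hβ hβϖ hμϖ in
private theorem JYYG_cw : CW ℓ (μ * β) := by
  have e : μ * β * pk = μ * pk * β := by ring
  unfold CW
  rw [e, ← Ideal.span_singleton_mul_span_singleton, map_mul, hβ.norm]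
  intro hd
  rcases h.hl.dvd_mul.1 hd with h1 | h1
  · exact hμϖ h1
  · have h2 : ℓ = p := (Nat.prime_dvd_prime_iff_eq h.hl hβ.prime).1 h1
    apply hβϖ
    refine Dvd.dvd.mul_right ?_ _
    rw [h2]
    have h3 := dvd_absN β
    rwa [hβ.norm] at h3

include hJ in
omit [FP] in
private theorem JYYG_kill (u : U H) : sm L μ (up L (smU J u)) = 0 := by
  rw [← up_sm, smU_kill hJ u]
  exact JYYG_up0

include hJ hl in
private theorem JYYG_lam (u : U H) : sm L pk (up L (smU J u)) ≠ 0 := by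
  rw [← up_sm]
  intro e
  exact smU_lam hJ hl u (up_inj (e.trans JYYG_up0.symm))

include hP in
omit [FP] in
private theorem JYYG_killP (a : 𝓞 K) : sm L ϖ (sm L a (up L P)) = 0 := by
  rw [sm_sm]
  exact (up_ord hP _).2 (dvd_mul_right _ _)

include hP hR in
omit [FP] in
private theorem JYYG_pk (a : 𝓞 K) : sm L (ϖ * β) (sm L a (up L P) + R) = 0 := by
  have h1 : sm L (ϖ * β) (sm L a (up L P)) = 0 := by
    rw [mul_comm, ← sm_sm, JYYG_killP hP, map_zero]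
  have h2 : sm L (ϖ * β) R = 0 := (hR _).2 (dvd_mul_left _ _)
  rw [map_add, h1, h2, add_zero]

include h hP hμϖ hl hJ hβ hβ' hβϖ hJβ in
private theorem JYYG_cop : IsCoprime (μ * pk) (ϖ * β) :=
  (hμϖ.cop h).mul_right ((JYYG_copb hJ hβ' hJβ).mul_left (JYYG_pb hβ hβϖ).symm)

include h hP hμϖ hl hJ hβ hβ' hβϖ hR hJβ in
private theorem JYYG_sne (u : U H) (a : 𝓞 K) :
    sm L pk (up L (smU J u) + (sm L a (up L P) + R)) ≠ 0 :=
  sm_pk_ne (IsCoprime.of_isCoprime_of_dvd_left (JYYG_cop h hP hμϖ hl hJ hβ hβ' hβϖ hJβ)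
    (dvd_mul_right _ _)) (JYYG_kill hJ u) (JYYG_lam hl hJ u) (JYYG_pk hP hR a)

include h hP hμϖ hl hJ in
private theorem JYYG_sne1 (u : U H) (a : 𝓞 K) :
    sm L pk (up L (smU J u) + sm L a (up L P)) ≠ 0 :=
  sm_pk_ne (hμϖ.copμ h) (JYYG_kill hJ u) (JYYG_lam hl hJ u) (JYYG_killP hP a)

include h hP hμϖ hl hJ hβ hβ' hβϖ hR hJβ in
private theorem JYYG_ne (u : U H) (a : 𝓞 K) :
    fq (up L (smU J u) + sm L a (up L P) + R) ≠ 0 := by
  rw [add_assoc]
  obtain ⟨f⟩ := exists_emb L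
  exact fq_ne f (JYYG_sne h hP hμϖ hl hJ hβ hβ' hβϖ hR hJβ u a)

include h in
omit [FP] in
private theorem JYYG_one : ¬ ϖ ∣ (1 : 𝓞 K) := fun e => h.prime.not_isUnit (isUnit_of_dvd_one e)

include h hT hP hμϖ hl hJ hβ hβ' hβϖ hR hJβ

theorem yyG_val {Γ : Type*} [LinearOrderedCommGroupWithZero Γ] (v : Valuation L Γ)
    (c : U H → 𝓞 K) : v (yyG T iv n P J R c) = 1 := by
  unfold yyG
  rw [map_prod]
  refine Finset.prod_eq_one fun u _ => ?_
  have h1 := JYYG_ne h hP hμϖ hl hJ hβ hβ' hβϖ hR hJβ u 1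
  have halg : Algebra.IsAlgebraic K L := Algebra.IsAlgebraic.tower_top (K := ℚ) K
  have hcw := JYYG_cw h hμϖ hβ hβϖ
  have hk : sm L (μ * β) (up L (smU J u) + R) = 0 := by
    rw [map_add, sm_dvd (dvd_mul_right μ β) (JYYG_kill hJ u), (hR _).2 (dvd_mul_left β μ), add_zero]
  have hn : sm L pk (up L (smU J u) + R) ≠ 0 :=
    sm_pk_ne (JYYG_copb hJ hβ' hJβ) (JYYG_kill hJ u) (JYYG_lam hl hJ u) ((hR _).2 dvd_rfl)
  have hP0 : ∀ a ∈ T, sm L a (up L P) ≠ 0 := fun a ha e => hT.res.nz a ha ((up_ord hP a).1 e)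
  have hP1 : sm L 1 (up L P) ≠ 0 := fun e => JYYG_one h ((up_ord hP 1).1 e)
  have h2 : v (∏ a ∈ T, fq (up L (smU J u) + sm L a (up L P) + R) ^ n (c u * iv a)) =
      v (∏ a ∈ T, fq (up L (smU J u) + sm L 1 (up L P) + R) ^ n (c u * iv a)) := by
    rw [map_prod, map_prod]
    refine Finset.prod_congr rfl fun a ha => ?_
    rw [map_zpow₀, map_zpow₀, add_right_comm _ _ R, add_right_comm _ _ R,
      fq_v v h hcw hk hn (JYYG_killP hP a) (hP0 a ha) (JYYG_killP hP 1) hP1]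
  rw [h2, JYYG_zpow h1, hT.sum_zero h (c u), zpow_zero, map_one]

theorem yyG_cong {Γ : Type*} [LinearOrderedCommGroupWithZero Γ] (v : Valuation L Γ)
    (hv : v (algebraMap K L (β : K)) < 1) (hb : v (bD L) = 1) (c : U H → 𝓞 K) :
    v (yyG T iv n P J R c - algebraMap N L (XX T iv n P J c)) < 1 := by
  have hK : Ker v R := ker_of_val v hβ.isPrime hR hv hb
  have halg : Algebra.IsAlgebraic K L := Algebra.IsAlgebraic.tower_top (K := ℚ) K
  have hx : algebraMap N L (XX T iv n P J c) =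
      ∏ u : U H, ∏ a ∈ T, fq (up L (smU J u) + sm L a (up L P)) ^ n (c u * iv a) := by
    unfold XX
    rw [map_prod]
    refine Finset.prod_congr rfl fun u _ => ?_
    rw [xQ, map_prod]
    refine Finset.prod_congr rfl fun a _ => ?_
    rw [map_zpow₀, ← up_sm, ← up_add]
    congr 1
    exact (fq_pm (IsScalarTower.toAlgHom K N L) _).symm
  rw [hx]
  unfold yyG
  have hcop := JYYG_cop h hP hμϖ hl hJ hβ hβ' hβϖ hJβ
  have hm : v (algebraMap K L ((μ * pk : 𝓞 K) : K)) = 1 :=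
    v_cop v (IsCoprime.of_isCoprime_of_dvd_right hcop (dvd_mul_left β ϖ)) hv
  have hpk : v (algebraMap K L ((pk : 𝓞 K) : K)) = 1 := v_cop v (JYYG_pb hβ hβϖ).symm hv
  have hA : ∀ (u : U H) (a : 𝓞 K), v (fq (up L (smU J u) + sm L a (up L P) + R)) = 1 := by
    intro u a
    rw [add_assoc]
    exact fq_unit v hb hcop hm (JYYG_kill hJ u) (JYYG_lam hl hJ u) (JYYG_pk hP hR a)
  have hPn : ∀ a ∈ T, sm L a (up L P) ≠ 0 := fun a ha e => hT.res.nz a ha ((up_ord hP a).1 e)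
  have hB : ∀ (u : U H), ∀ a ∈ T, v (fq (up L (smU J u) + sm L a (up L P))) = 1 := by
    intro u a ha
    exact fq_unit v hb (hμϖ.cop h) hm (JYYG_kill hJ u) (JYYG_lam hl hJ u) (JYYG_killP hP a)
  have ht := ker_tc_lt v hK
  have hin : ∀ (u : U H), v (∏ a ∈ T, fq (up L (smU J u) + sm L a (up L P) + R) ^ n (c u * iv a) -
      ∏ a ∈ T, fq (up L (smU J u) + sm L a (up L P)) ^ n (c u * iv a)) < 1 := by
    intro u
    refine MP_1a91b9_nuT.DB.yya_prod v T _ _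
      (fun a _ => MP_1a91b9_nuT.DB.yya_val_zpow v (hA u a) _)
      (fun a ha => MP_1a91b9_nuT.DB.yya_val_zpow v (hB u a ha) _)
      fun a ha => MP_1a91b9_nuT.DB.yya_zpow v (hA u a) (hB u a ha) ?_ _
    have hQ0 : up L (smU J u) ≠ 0 := fun e => JYYG_lam (L := L) hl hJ u (by rw [e, map_zero])
    have hnk := not_ker_mixO v (hμϖ.copμ h) (JYYG_kill (L := L) hJ u) hQ0
      (JYYG_killP hP a) (hPn a ha)
    obtain ⟨h5, h7⟩ := fq_add v hpk hnk hK
    obtain ⟨-, -, hY⟩ := not_ker v hnk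
    have e : fq (up L (smU J u) + sm L a (up L P) + R) - fq (up L (smU J u) + sm L a (up L P)) =
        (fq (up L (smU J u) + sm L a (up L P) + R) - fq (up L (smU J u) + sm L a (up L P)) -
          2 * yc (up L (smU J u) + sm L a (up L P)) * dq (up L (smU J u) + sm L a (up L P)) *
            tc R) +
          2 * yc (up L (smU J u) + sm L a (up L P)) * dq (up L (smU J u) + sm L a (up L P)) *
            tc R := by ring
    rw [e]
    refine Valuation.map_add_lt v (lt_of_le_of_lt h5 (pow_lt_one₀ zero_le ht two_ne_zero)) ?_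
    rw [map_mul, map_mul, map_mul]
    have h6 : v (2 : L) ≤ 1 := by simpa using v_nat_le v (F := L) 2
    exact lt_of_le_of_lt (mul_le_mul' (mul_le_one' (mul_le_one' h6 hY) h7) le_rfl)
      (by rw [one_mul]; exact ht)
  refine MP_1a91b9_nuT.DB.yya_prod v Finset.univ _ _ (fun u _ => ?_) (fun u _ => ?_)
    fun u _ => hin u
  · rw [map_prod]
    exact Finset.prod_eq_one fun a _ => MP_1a91b9_nuT.DB.yya_val_zpow v (hA u a) _
  · rw [map_prod]
    exact Finset.prod_eq_one fun a ha => MP_1a91b9_nuT.DB.yya_val_zpow v (hB u a ha) _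

variable [IsGalois N L] (hPβ : sm N β' P = P) (hgen : ∀ σ : Gal(L/N), ga σ R = R → σ = 1)
  (hall : ∀ c : 𝓞 K, ¬ β ∣ c → ∃ σ : Gal(L/N), ga σ R = sm L c R)
include hPβ hgen hall

theorem norm_fqG (u : U H) (a : 𝓞 K) :
    algebraMap N L (Algebra.norm N (fq (up L (smU J u) + sm L a (up L P) + R))) =
      algebraMap K L (β' : K) ^ (2 * (Ideal.absNorm (Ideal.span {(pk : 𝓞 K)}) - 1)) *
        ∏ j ∈ Finset.Ico 1 p, fq (j • R) := by
  have hβ0 : β ≠ 0 := hβ.isPrime.ne_zero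
  have hβ'0 : β' ≠ 0 := hβ'.ne_zero_iff.1 hβ0
  have hRβ : sm L β R = 0 := (hR β).2 dvd_rfl
  have hR0 : R ≠ 0 := by
    intro e
    refine hβ.isPrime.not_isUnit (isUnit_of_dvd_one ((hR 1).1 ?_))
    rw [e, map_zero]
  obtain ⟨f⟩ := exists_emb L
  have hA1 : sm L pk (up L (smU J u) + sm L a (up L P)) ≠ 0 := JYYG_sne1 h hP hμϖ hl hJ u a
  have hx1 : fq (up L (smU J u) + sm L a (up L P)) ≠ 0 := fq_ne f hA1
  have hsmJ : sm L β' (up L (smU J u)) = up L (smU J u) := by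
    rw [← up_sm]
    congr 1
    unfold smU
    rw [sm_sm, mul_comm, ← sm_sm, hJβ]
  have hsmP : sm L β' (sm L a (up L P)) = sm L a (up L P) := by
    rw [sm_sm, mul_comm, ← sm_sm, ← up_sm, hPβ]
  set A := up L (smU J u) + sm L a (up L P) with hAd
  have hsm : sm L β' A = A := by
    rw [hAd, map_add, hsmJ, hsmP]
  obtain ⟨T', hT', hT1, hT2⟩ := isRes_deg1 hβ
  have hT'' : IsRes β' T' := ⟨fun c hc hd => hT'.nz c hc (hβ'.dvd_iff_dvd_left.2 hd),
    fun c hc => by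
      obtain ⟨d, hd, hcd⟩ := hT'.ex c (fun e => hc (hβ'.dvd_iff_dvd_left.1 e))
      exact ⟨d, hd, hβ'.dvd_iff_dvd_left.1 hcd⟩,
    fun c hc d hd hcd => hT'.uniq c hc d hd (hβ'.dvd_iff_dvd_left.2 hcd)⟩
  have hR' : Ord β' R := fun c => (hR c).trans hβ'.dvd_iff_dvd_left
  have h3 : IsCoprime β' pk := by
    obtain ⟨w, hw⟩ := hβ'
    rw [← hw]
    exact ((isCoprime_mul_unit_right_right w.isUnit pk β).2 (JYYG_pb hβ hβϖ).symm).symm
  have hconv : ∀ g : 𝓞 K → L, ∏ a ∈ T', g a = ∏ j ∈ Finset.Ico 1 p, g (j : 𝓞 K) := by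
    intro g
    symm
    refine Finset.prod_bij (fun j _ => (j : 𝓞 K)) (fun j hj => hT2 j hj)
      (fun i _ j _ e => Nat.cast_injective e) (fun b hb => ?_) (fun j _ => rfl)
    obtain ⟨m, hm, hm1⟩ := hT1 b hb
    exact ⟨m, hm, hm1.symm⟩
  have hd := dist_fq f hβ'0 h3 hT'' hR' (A := A) (by rw [hsm]; exact hA1)
  rw [hsm, hconv, hconv] at hd
  simp only [sm_nat] at hd
  have hd1 : ∏ j ∈ Finset.Ico 1 p, fq (A + j • R) =
      algebraMap K L (β' : K) ^ (2 * (Ideal.absNorm (Ideal.span {(pk : 𝓞 K)}) - 1)) *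
        ∏ j ∈ Finset.Ico 1 p, fq (j • R) := by
    refine mul_left_cancel₀ hx1 ?_
    rw [hd, mul_comm]
  rw [← hd1, Algebra.norm_eq_prod_automorphisms]
  have hex : ∀ σ : Gal(L/N), ∃ j : ℕ, j ∈ Finset.Ico 1 p ∧ ga σ R = j • R := by
    intro σ
    obtain ⟨c, hc, hc1⟩ := gal_sm hβ0 hR σ
    obtain ⟨k, hk, hk1⟩ := hβ.exists_int c
    refine ⟨k, Finset.mem_Ico.2 ⟨?_, hk⟩, ?_⟩
    · rcases Nat.eq_zero_or_pos k with e | e
      · exfalso
        rw [e, Nat.cast_zero, sub_zero] at hk1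
        exact hβ.isPrime.not_isUnit (hc.isUnit_of_dvd' hk1 dvd_rfl)
      · exact e
    · rw [hc1, sm_eq_int hRβ (k := (k : ℤ)) (by rw [Int.cast_natCast]; exact hk1), natCast_zsmul]
  have hinj : ∀ i ∈ Finset.Ico 1 p, ∀ j ∈ Finset.Ico 1 p, i • R = j • R → i = j := by
    intro i hi j hj hij
    rw [Finset.mem_Ico] at hi hj
    have h3 : ((i : ℤ) - j) • R = 0 := by
      rw [sub_smul, natCast_zsmul, natCast_zsmul, hij, sub_self]
    have h4 := (smul_zero_iff hβ hRβ hR0 _).1 h3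
    have h5 : ((i : ℤ) - j) = 0 := Int.eq_zero_of_abs_lt_dvd h4 (by rw [abs_lt]; omega)
    omega
  choose j hj1 hj2 using hex
  refine Finset.prod_bij (fun σ _ => j σ) (fun σ _ => hj1 σ) ?_ ?_ ?_
  · intro σ _ τ _ e
    have e1 : ga σ R = ga τ R := by
      rw [hj2, hj2, e]
    have e2 : ga (τ⁻¹ * σ) R = R := by
      rw [ga_mul, e1, ← ga_mul, inv_mul_cancel, ga_one]
    have e3 := hgen _ e2
    exact (inv_mul_eq_one.1 e3).symm
  · intro i hi
    have h3 : ¬ β ∣ ((i : ℕ) : 𝓞 K) := by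
      intro hd
      rw [← Int.cast_natCast, hβ.dvd_int_iff] at hd
      rw [Finset.mem_Ico] at hi
      have := Int.le_of_dvd (by omega) hd
      omega
    obtain ⟨σ, hσ⟩ := hall _ h3
    refine ⟨σ, Finset.mem_univ _, hinj _ (hj1 σ) _ hi ?_⟩
    rw [← hj2, hσ, sm_nat]
  · intro σ _
    rw [← fq_ga]
    have h3 : ga σ (A + R) = A + j σ • R := by
      rw [map_add, hj2, hAd, map_add, ga_sm, yyb_fix, yyb_fix]
    rw [← h3]

theorem yyG_norm (c : U H → 𝓞 K) : Algebra.norm N (yyG T iv n P J R c) = 1 := by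
  have hno := fun (u : U H) (a : 𝓞 K) =>
    norm_fqG h hT hP hμϖ hl hJ hβ hβ' hβϖ hR hJβ hPβ hgen hall u a
  apply (algebraMap N L).injective
  rw [map_one, Algebra.norm_eq_prod_automorphisms]
  set CC := algebraMap K L (β' : K) ^ (2 * (Ideal.absNorm (Ideal.span {(pk : 𝓞 K)}) - 1)) *
    ∏ j ∈ Finset.Ico 1 p, fq (j • R) with hCC
  have hC0 : CC ≠ 0 := by
    rw [← hno 1 1]
    intro e
    have e1 := (map_eq_zero_iff _ (algebraMap N L).injective).1 e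
    rw [Algebra.norm_eq_zero_iff] at e1
    exact JYYG_ne h hP hμϖ hl hJ hβ hβ' hβϖ hR hJβ 1 1 e1
  have h1 : ∏ σ : Gal(L/N), σ (yyG T iv n P J R c) =
      ∏ u : U H, ∏ a ∈ T, CC ^ n (c u * iv a) := by
    unfold yyG
    have h2 : ∀ σ : Gal(L/N), σ (∏ u : U H, ∏ a ∈ T,
        fq (up L (smU J u) + sm L a (up L P) + R) ^ n (c u * iv a)) =
        ∏ u : U H, ∏ a ∈ T,
          σ (fq (up L (smU J u) + sm L a (up L P) + R)) ^ n (c u * iv a) := fun σ => by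
      rw [map_prod]
      refine Finset.prod_congr rfl fun u _ => ?_
      rw [map_prod]
      exact Finset.prod_congr rfl fun a _ => map_zpow₀ σ _ _
    rw [Finset.prod_congr rfl fun σ _ => h2 σ, Finset.prod_comm]
    refine Finset.prod_congr rfl fun u _ => ?_
    rw [Finset.prod_comm]
    refine Finset.prod_congr rfl fun a ha => ?_
    rw [Finset.prod_zpow, ← hno u a, Algebra.norm_eq_prod_automorphisms]
  rw [h1]
  refine Finset.prod_eq_one fun u _ => ?_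
  rw [JYYG_zpow hC0, hT.sum_zero h, zpow_zero]

end

end

end Pool.Agent.Lib.MP_1a91b9_nuX.DG
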